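import Pool.Agent.H864.MultEmb

set_option autoImplicit false

/-! Embeddings of the complex numbers in the algebraic closure of `ℚ_p` such that given algebraic
numbers are not congruent to integers. -/

namespace Pool.Agent.H864.Kum

open NumberField Pool.Agent.H936R2 Pool.Agent.H864.Pad Pool.Agent.H864.Frob

/-- **Embeddings which separate algebraic numbers from the integers.** -/
theorem exists_add_embedding (A : Finset ℂ) (hA : ∀ a ∈ A, IsAlgebraic ℚ a) (σ : ℂ ≃+* ℂ)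
    (hσ : ∀ a ∈ A, σ a ≠ a) (s : Finset ℂ) (B : ℕ) :
    ∃ (p : ℕ) (_ : Fact p.Prime), B < p ∧ ∃ τ : ℂ →+* PadicAlgCl p, (∀ x ∈ s, ‖τ x‖ ≤ 1) ∧
      ∀ a ∈ A, ∀ n : ℕ, ‖τ (n - a)‖ = 1 := by
  classical
  obtain ⟨L, hLfin, hLgal, hL⟩ := exists_galois_field (A : Set ℂ) A.finite_toSet hA
  have hNL : NumberField L := { to_charZero := inferInstance, to_finiteDimensional := hLfin }
  let σ' : ℂ ≃ₐ[ℚ] ℂ := { σ with commutes' := fun q => map_ratCast σ q }
  let g : Gal(L/ℚ) := σ'.restrictNormal L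
  have hg : ∀ x : L, ((g x : L) : ℂ) = σ (x : ℂ) := fun x => σ'.restrictNormal_commutes L x
  let s' : Finset ℂ := s ∪ A.image fun a => (σ a - a)⁻¹
  let T : Finset L := A.attach.image fun a : {x // x ∈ A} => (⟨(a : ℂ), hL a.2⟩ : L)
  obtain ⟨p, hp, hpB, τ, hτs, hτT⟩ := exists_frob_embedding L g s' T B
  refine ⟨p, hp, hpB, τ, fun x hx => hτs x (Finset.mem_union_left _ hx), fun a ha n => ?_⟩
  have haT : (⟨a, hL ha⟩ : L) ∈ T := Finset.mem_image.2 ⟨(⟨a, ha⟩ : {x // x ∈ A}), Finset.mem_attach _ _, rfl⟩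
  obtain ⟨h1, h2⟩ := hτT _ haT
  rw [hg] at h2
  change ‖τ (σ a) - τ a ^ p‖ < 1 at h2
  change ‖τ a‖ ≤ 1 at h1
  have h3 : ‖τ (σ a - a)⁻¹‖ ≤ 1 := hτs _ (Finset.mem_union_right _ (Finset.mem_image_of_mem _ ha))
  have h4 : ¬ ‖τ (σ a - a)‖ < 1 := by
    intro hlt
    rw [map_inv₀, norm_inv] at h3
    have h5 : 0 < ‖τ (σ a - a)‖ := norm_pos_iff.2 (by
      rw [Ne, map_eq_zero, sub_eq_zero]
      exact hσ a ha)
    exact absurd h3 (not_le.2 ((one_lt_inv₀ h5).2 hlt))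
  have hn : ‖((n : ℕ) : PadicAlgCl p)‖ ≤ 1 := by
    have := norm_int_le (p := p) (n : ℤ)
    rwa [Int.cast_natCast] at this
  have hle : ‖τ (n - a)‖ ≤ 1 := by
    rw [map_sub, map_natCast, sub_eq_add_neg]
    refine (IsUltrametricDist.norm_add_le_max _ _).trans (max_le hn ?_)
    rw [norm_neg]
    exact h1
  apply le_antisymm hle
  by_contra hlt
  rw [not_le, map_sub, map_natCast] at hlt
  have := charP_resF (p := p)
  let aO : unitBall (PadicAlgCl p) := ⟨τ a, h1⟩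
  have e1 : res (PadicAlgCl p) aO = (n : ResF (PadicAlgCl p)) := by
    have h5 : res (PadicAlgCl p) ((n : ℕ) - aO) = 0 := by
      rw [res_eq_zero_iff]
      exact hlt
    rw [map_sub, map_natCast, sub_eq_zero] at h5
    exact h5.symm
  have e2 : res (PadicAlgCl p) (aO ^ p - aO) = 0 := by
    rw [map_sub, map_pow, e1, sub_eq_zero]
    have h6 := map_natCast (frobenius (ResF (PadicAlgCl p)) p) n
    rw [frobenius_def] at h6
    exact h6
  rw [res_eq_zero_iff] at e2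
  change ‖τ a ^ p - τ a‖ < 1 at e2
  apply h4
  have e3 : τ (σ a - a) = (τ (σ a) - τ a ^ p) + (τ a ^ p - τ a) := by
    rw [map_sub]
    ring
  rw [e3]
  exact norm_add_lt' h2 e2

end Pool.Agent.H864.Kum
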