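import Mathlib

set_option autoImplicit false

/-! Polynomials of small degree are not in the ideal generated by `X_i ^ Q - f_i`. -/

namespace Pool.Agent.H864.BS

open MvPolynomial

variable {σ : Type} [Fintype σ] [DecidableEq σ] {k : Type} [Field k]

/-- The exponent `Q (s + 1) - 1`. -/
noncomputable def expo (Q : ℕ) (s : σ → ℕ) : σ →₀ ℕ :=
  Finsupp.equivFunOnFinite.symm fun i => Q * (s i + 1) - 1

omit [DecidableEq σ] in
lemma expo_apply (Q : ℕ) (s : σ → ℕ) (i : σ) : expo Q s i = Q * (s i + 1) - 1 := rfl

omit [DecidableEq σ] in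
lemma degree_expo (Q : ℕ) (hQ : 0 < Q) (s : σ → ℕ) :
    (expo Q s).degree = Q * (∑ i, s i) + Fintype.card σ * (Q - 1) := by
  rw [Finsupp.degree_eq_sum]
  simp only [expo_apply]
  have h : ∀ i, Q * (s i + 1) - 1 = Q * s i + (Q - 1) := by
    intro i
    rw [Nat.mul_add, Nat.mul_one, Nat.add_sub_assoc hQ]
  rw [Finset.sum_congr rfl fun i _ => h i, Finset.sum_add_distrib, Finset.mul_sum]
  simp

/-- The functional. -/
noncomputable def lam (f : σ → MvPolynomial σ k) (Q N : ℕ) (h : MvPolynomial σ k) : k :=
  ∑ s ∈ Fintype.piFinset (fun _ : σ => Finset.range (N + 1)),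
    coeff (expo Q s) (h * ∏ i, f i ^ s i)

lemma lam_sum {κ : Type} (t : Finset κ) (f : σ → MvPolynomial σ k) (Q N : ℕ)
    (h : κ → MvPolynomial σ k) : lam f Q N (∑ j ∈ t, h j) = ∑ j ∈ t, lam f Q N (h j) := by
  unfold lam
  rw [Finset.sum_comm]
  apply Finset.sum_congr rfl
  intro s _
  rw [Finset.sum_mul, coeff_sum]

omit [DecidableEq σ] in
lemma totalDegree_prod_le (f : σ → MvPolynomial σ k) (Q : ℕ) (hf : ∀ i, (f i).totalDegree < Q)
    (s : σ → ℕ) : (∏ i, f i ^ s i).totalDegree ≤ (∑ i, s i) * (Q - 1) := by
  refine (totalDegree_finsetProd _ _).trans ?_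
  rw [Finset.sum_mul]
  apply Finset.sum_le_sum
  intro i _
  refine (totalDegree_pow _ _).trans ?_
  apply Nat.mul_le_mul_left
  have := hf i
  omega

omit [Fintype σ] [DecidableEq σ] in
lemma coeff_eq_zero_of_degree_lt (u : MvPolynomial σ k) (d : σ →₀ ℕ)
    (h : u.totalDegree < d.degree) : coeff d u = 0 := by
  by_contra hne
  have h1 := le_totalDegree (mem_support_iff.2 hne)
  have h2 : (d.sum fun _ e => e) = d.degree := by
    rw [Finsupp.degree_apply]
    rfl
  omega

lemma lam_gen (f : σ → MvPolynomial σ k) (Q : ℕ) (hf : ∀ i, (f i).totalDegree < Q)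
    (h : MvPolynomial σ k) (N : ℕ) (hN : h.totalDegree + Q ≤ N) (i : σ) :
    lam f Q N (h * (X i ^ Q - f i)) = 0 := by
  have hQ : 0 < Q := lt_of_le_of_lt (Nat.zero_le _) (hf i)
  set S := Fintype.piFinset (fun _ : σ => Finset.range (N + 1)) with hS
  -- the two parts
  have hsplit : lam f Q N (h * (X i ^ Q - f i)) =
      (∑ s ∈ S, coeff (expo Q s) (h * X i ^ Q * ∏ j, f j ^ s j)) -
        ∑ s ∈ S, coeff (expo Q s) (h * f i * ∏ j, f j ^ s j) := by
    unfold lam
    rw [← Finset.sum_sub_distrib]
    apply Finset.sum_congr rfl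
    intro s _
    rw [mul_sub, sub_mul, coeff_sub]
  rw [hsplit]
  -- `f_i f^s = f^(s + e_i)`
  have hup : ∀ s : σ → ℕ, f i * ∏ j, f j ^ s j =
      ∏ j, f j ^ (Function.update s i (s i + 1)) j := by
    intro s
    rw [← Finset.mul_prod_erase Finset.univ _ (Finset.mem_univ i),
      ← Finset.mul_prod_erase Finset.univ (fun j => f j ^ (Function.update s i (s i + 1)) j)
        (Finset.mem_univ i), ← mul_assoc, Function.update_self, ← pow_succ']
    congr 1
    apply Finset.prod_congr rfl
    intro j hj
    rw [Function.update_of_ne (Finset.ne_of_mem_erase hj)]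
  -- first sum
  have hfirst : ∀ s : σ → ℕ, coeff (expo Q s) (h * X i ^ Q * ∏ j, f j ^ s j) =
      if 1 ≤ s i then coeff (expo Q (Function.update s i (s i - 1))) (h * ∏ j, f j ^ s j) else 0 := by
    intro s
    have e1 : h * X i ^ Q * ∏ j, f j ^ s j = (h * ∏ j, f j ^ s j) * monomial (Finsupp.single i Q) 1 := by
      rw [← X_pow_eq_monomial]; ring
    rw [e1, coeff_mul_monomial', mul_one]
    have e2 : Finsupp.single i Q ≤ expo Q s ↔ 1 ≤ s i := by
      rw [Finsupp.single_le_iff, expo_apply]
      constructor
      · intro h1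
        by_contra h2
        have h3 : s i = 0 := by omega
        rw [h3] at h1
        simp at h1
        omega
      · intro h1
        have : Q * 2 ≤ Q * (s i + 1) := Nat.mul_le_mul_left _ (by omega)
        omega
    simp only [e2]
    split_ifs with h1
    · congr 1
      ext j
      rw [Finsupp.tsub_apply, expo_apply, expo_apply]
      by_cases hj : j = i
      · subst hj
        rw [Finsupp.single_eq_same, Function.update_self]
        obtain ⟨t, ht⟩ : ∃ t, s j = t + 1 := ⟨s j - 1, by omega⟩
        rw [ht]
        have : Q * (t + 1 + 1) = Q * (t + 1) + Q := by ring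
        rw [this, Nat.add_sub_cancel]
        omega
      · rw [Finsupp.single_eq_of_ne hj, Function.update_of_ne hj, Nat.sub_zero]
    · rfl
  rw [Finset.sum_congr rfl fun s _ => hfirst s, ← Finset.sum_filter]
  -- second sum: only `s i < N` matters
  have hsecond : ∑ s ∈ S, coeff (expo Q s) (h * f i * ∏ j, f j ^ s j) =
      ∑ s ∈ S.filter (fun s => s i < N), coeff (expo Q s) (h * f i * ∏ j, f j ^ s j) := by
    rw [Finset.sum_filter]
    apply Finset.sum_congr rfl
    intro s hs
    split_ifs with h1
    · rfl
    · apply coeff_eq_zero_of_degree_lt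
      rw [degree_expo Q hQ]
      have hsi : N ≤ s i := not_lt.1 h1
      have h2 : s i ≤ ∑ j, s j := Finset.single_le_sum (f := s) (fun _ _ => Nat.zero_le _) (Finset.mem_univ i)
      have h3 : (h * f i * ∏ j, f j ^ s j).totalDegree ≤ h.totalDegree + (Q - 1) + (∑ j, s j) * (Q - 1) := by
        refine (totalDegree_mul _ _).trans ?_
        apply Nat.add_le_add _ (totalDegree_prod_le f Q hf s)
        refine (totalDegree_mul _ _).trans ?_
        have := hf i
        omega
      refine lt_of_le_of_lt h3 ?_
      have h4 : Q * (∑ j, s j) = (∑ j, s j) * (Q - 1) + ∑ j, s j := by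
        obtain ⟨r, rfl⟩ : ∃ r, Q = r + 1 := ⟨Q - 1, by omega⟩
        simp only [Nat.add_sub_cancel]
        ring
      rw [h4]
      have h5 : 0 ≤ Fintype.card σ * (Q - 1) := Nat.zero_le _
      omega
  rw [hsecond, sub_eq_zero]
  refine Finset.sum_nbij' (fun s => Function.update s i (s i - 1))
    (fun s => Function.update s i (s i + 1)) ?_ ?_ ?_ ?_ ?_
  · intro s hs
    simp only [hS, Finset.mem_filter, Fintype.mem_piFinset, Finset.mem_range] at hs ⊢
    refine ⟨fun j => ?_, ?_⟩
    · by_cases hj : j = i
      · subst hj; rw [Function.update_self]; have := hs.1 j; omega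
      · rw [Function.update_of_ne hj]; exact hs.1 j
    · rw [Function.update_self]; have := hs.1 i; have := hs.2; omega
  · intro s hs
    simp only [hS, Finset.mem_filter, Fintype.mem_piFinset, Finset.mem_range] at hs ⊢
    refine ⟨fun j => ?_, ?_⟩
    · by_cases hj : j = i
      · subst hj; rw [Function.update_self]; have := hs.2; omega
      · rw [Function.update_of_ne hj]; exact hs.1 j
    · rw [Function.update_self]; omega
  · intro s hs
    simp only [Finset.mem_filter] at hs
    simp only [Function.update_self, Function.update_idem]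
    rw [Nat.sub_add_cancel hs.2, Function.update_eq_self]
  · intro s hs
    simp only [Function.update_self, Function.update_idem, Nat.add_sub_cancel,
      Function.update_eq_self]
  · intro s hs
    simp only [Finset.mem_filter] at hs
    congr 1
    rw [mul_assoc, hup]
    simp only [Function.update_self, Function.update_idem]
    rw [Nat.sub_add_cancel hs.2, Function.update_eq_self]

/-- Polynomials of degree less than `Q` are not in the ideal. -/
theorem not_mem_of_totalDegree_lt (f : σ → MvPolynomial σ k) (Q : ℕ)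
    (hf : ∀ i, (f i).totalDegree < Q) (g : MvPolynomial σ k) (hg : g ≠ 0)
    (hgQ : g.totalDegree < Q) : g ∉ Ideal.span (Set.range fun i => X i ^ Q - f i) := by
  intro hmem
  have hQ : 0 < Q := lt_of_le_of_lt (Nat.zero_le _) hgQ
  -- a monomial of maximal degree
  obtain ⟨b, hb, hbd⟩ : ∃ b ∈ g.support, b.degree = g.totalDegree := by
    have hne : g.support.Nonempty := MvPolynomial.support_nonempty.2 hg
    obtain ⟨b, hb, h1⟩ := Finset.exists_mem_eq_sup g.support hne (fun s => s.sum fun _ e => e)
    refine ⟨b, hb, ?_⟩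
    rw [totalDegree, h1, Finsupp.degree_apply]
    rfl
  have hbi : ∀ i, b i ≤ Q - 1 := by
    intro i
    have : b i ≤ b.degree := Finsupp.le_degree i b
    omega
  let m : σ →₀ ℕ := Finsupp.equivFunOnFinite.symm fun i => Q - 1 - b i
  have hm : ∀ i, m i = Q - 1 - b i := fun i => rfl
  have hmb : b + m = expo Q (fun _ => 0) := by
    ext i
    rw [Finsupp.add_apply, hm, expo_apply]
    have := hbi i
    simp
    omega
  have hmdeg : b.degree + m.degree = Fintype.card σ * (Q - 1) := by
    have := degree_expo Q hQ (fun _ : σ => 0)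
    rw [← hmb, map_add] at this
    simpa using this
  -- the functional at `g X^m`
  have hval : ∀ N, lam f Q N (g * monomial m 1) = coeff b g := by
    intro N
    unfold lam
    rw [Finset.sum_eq_single (fun _ => 0)]
    · rw [← hmb]
      simp only [pow_zero, Finset.prod_const_one, mul_one]
      rw [coeff_mul_monomial, mul_one]
    · intro s _ hs
      apply coeff_eq_zero_of_degree_lt
      rw [degree_expo Q hQ]
      have h1 : (g * monomial m (1 : k) * ∏ i, f i ^ s i).totalDegree ≤
          g.totalDegree + m.degree + (∑ i, s i) * (Q - 1) := by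
        refine (totalDegree_mul _ _).trans ?_
        apply Nat.add_le_add _ (totalDegree_prod_le f Q hf s)
        refine (totalDegree_mul _ _).trans ?_
        apply Nat.add_le_add_left
        refine (totalDegree_monomial_le _ _).trans ?_
        rw [Finsupp.degree_apply]
        exact le_of_eq rfl
      refine lt_of_le_of_lt h1 ?_
      have hs0 : 0 < ∑ i, s i := by
        rw [Nat.pos_iff_ne_zero]
        intro h2
        apply hs
        funext i
        exact (Finset.sum_eq_zero_iff.1 h2) i (Finset.mem_univ i)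
      have h4 : Q * (∑ j, s j) = (∑ j, s j) * (Q - 1) + ∑ j, s j := by
        obtain ⟨r, rfl⟩ : ∃ r, Q = r + 1 := ⟨Q - 1, by omega⟩
        simp only [Nat.add_sub_cancel]
        ring
      rw [h4]
      omega
    · intro h
      exact absurd (by simp [Fintype.mem_piFinset]) h
  -- membership
  have hmem' : g * monomial m 1 ∈ Ideal.span (Set.range fun i => (X i ^ Q - f i : MvPolynomial σ k)) :=
    Ideal.mul_mem_right _ _ hmem
  obtain ⟨h, hh⟩ := (Ideal.mem_span_range_iff_exists_fun).1 hmem'
  obtain ⟨N, hN⟩ : ∃ N, ∀ i, (h i).totalDegree + Q ≤ N :=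
    ⟨Finset.univ.sup fun i => (h i).totalDegree + Q, fun i =>
      Finset.le_sup (f := fun i => (h i).totalDegree + Q) (Finset.mem_univ i)⟩
  have h0 : lam f Q N (g * monomial m 1) = 0 := by
    rw [← hh, lam_sum]
    exact Finset.sum_eq_zero fun i _ => lam_gen f Q hf (h i) N (hN i) i
  rw [hval] at h0
  exact mem_support_iff.1 hb h0

end Pool.Agent.H864.BS
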