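import Pool.Agent.H864.BSa

set_option autoImplicit false

/-! Bounded nilpotency in the ring of quasi-fixed points. -/

namespace Pool.Agent.H864.BS

open MvPolynomial

/-- Sums of nilpotent elements, with a bound of the exponent. -/
lemma sum_pow_eq_zero {B : Type} [CommRing B] {σ : Type} (s : Finset σ) (w : σ → B) (K : ℕ)
    (h : ∀ i ∈ s, w i ^ K = 0) : (∑ i ∈ s, w i) ^ (s.card * K + 1) = 0 := by
  classical
  induction s using Finset.induction_on with
  | empty => simp
  | insert a s ha ih =>
    rw [Finset.sum_insert ha, Finset.card_insert_of_notMem ha]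
    apply (Commute.all _ _).add_pow_eq_zero_of_add_le_succ_of_pow_eq_zero
      (h a (Finset.mem_insert_self a s)) (ih fun i hi => h i (Finset.mem_insert_of_mem hi))
    have : (s.card + 1) * K = s.card * K + K := by ring
    omega

/-- An evaluation of a polynomial at two points which are congruent modulo an ideal. -/
lemma aeval_sub_mem {k : Type} [Field k] {B : Type} [CommRing B] [Algebra k B] {σ : Type}
    (P : MvPolynomial σ k) (y : σ → B) (c : σ → k) :
    aeval y P - algebraMap k B (eval c P) ∈ Ideal.span (Set.range fun i => y i - algebraMap k B (c i)) := by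
  set I := Ideal.span (Set.range fun i => y i - algebraMap k B (c i)) with hI
  rw [← Ideal.Quotient.eq_zero_iff_mem, map_sub, sub_eq_zero]
  have h1 : ∀ i, Ideal.Quotient.mk I (y i) = algebraMap k (B ⧸ I) (c i) := by
    intro i
    have : Ideal.Quotient.mk I (y i) = Ideal.Quotient.mk I (algebraMap k B (c i)) := by
      rw [Ideal.Quotient.eq]
      exact Ideal.subset_span ⟨i, rfl⟩
    rw [this]
    rfl
  have h2 : Ideal.Quotient.mk I (aeval y P) = aeval (fun i => Ideal.Quotient.mk I (y i)) P := by
    have := MvPolynomial.comp_aeval_apply (Ideal.Quotient.mkₐ k I) (f := y) P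
    exact this
  rw [h2]
  simp only [h1]
  have h3 : aeval (fun i => algebraMap k (B ⧸ I) (c i)) P = algebraMap k (B ⧸ I) (eval c P) := by
    exact aeval_algebraMap_apply (B ⧸ I) c P
  rw [h3]
  rfl

/-- **Bounded nilpotency.** -/
theorem pow_eq_zero_of_forall_maximal {k : Type} [Field k] {B : Type} [CommRing B] [Algebra k B]
    {σ : Type} [Fintype σ] (y : σ → B) (K : ℕ) (C : σ → Finset k)
    (hC : ∀ i, (∏ c ∈ C i, (y i - algebraMap k B c)) ^ K = 0) (P : MvPolynomial σ k)
    (hP : ∀ m : Ideal B, m.IsMaximal → aeval y P ∈ m) :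
    (aeval y P) ^ (Fintype.card σ * K + 1) = 0 := by
  classical
  by_contra hne
  set x := (aeval y P) ^ (Fintype.card σ * K + 1) with hx
  -- the annihilator
  let J : Ideal B := Ideal.span {x}
  let A : Ideal B := J.annihilator
  have hA : ∀ b, b ∈ A ↔ b * x = 0 := by
    intro b
    rw [Submodule.mem_annihilator_span_singleton, smul_eq_mul]
  have hA1 : A ≠ ⊤ := by
    intro h
    have : (1 : B) ∈ A := by rw [h]; trivial
    rw [hA, one_mul] at this
    exact hne this
  obtain ⟨m, hm, hAm⟩ := Ideal.exists_le_maximal A hA1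
  have hprime := hm.isPrime
  -- the coordinates
  have hc : ∀ i, ∃ c ∈ C i, y i - algebraMap k B c ∈ m := by
    intro i
    have h1 : (∏ c ∈ C i, (y i - algebraMap k B c)) ^ K ∈ m := by rw [hC]; exact m.zero_mem
    have h2 := hprime.mem_of_pow_mem _ h1
    exact (hprime.prod_mem_iff).1 h2
  choose c hcC hcm using hc
  have hunit : ∀ e : k, e ≠ 0 → algebraMap k B e ∉ m := by
    intro e he hmem
    apply hm.ne_top
    exact Ideal.eq_top_of_isUnit_mem m hmem ((IsUnit.mk0 e he).map (algebraMap k B))
  set z : σ → B := fun i => y i - algebraMap k B (c i) with hz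
  -- the units
  let U : σ → B := fun i => (∏ e ∈ (C i).erase (c i), (y i - algebraMap k B e)) ^ K
  have hU : ∀ i, U i ∉ m := by
    intro i hmem
    have h2 := hprime.mem_of_pow_mem _ hmem
    obtain ⟨e, he, hem⟩ := (hprime.prod_mem_iff).1 h2
    have h3 : algebraMap k B (e - c i) ∈ m := by
      have := m.sub_mem (hcm i) hem
      rw [map_sub]
      convert this using 1
      ring
    exact hunit _ (sub_ne_zero.2 (Finset.ne_of_mem_erase he)) h3
  have hUz : ∀ i, U i * z i ^ K = 0 := by
    intro i
    have := hC i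
    rw [← Finset.mul_prod_erase (C i) _ (hcC i), mul_pow] at this
    rw [mul_comm]
    exact this
  let u : B := ∏ i, U i
  have hu : u ∉ m := by
    intro h
    obtain ⟨i, -, hi⟩ := (hprime.prod_mem_iff).1 h
    exact hU i hi
  have huz : ∀ i, u * z i ^ K = 0 := by
    intro i
    show (∏ i, U i) * z i ^ K = 0
    rw [← Finset.mul_prod_erase Finset.univ U (Finset.mem_univ i), mul_right_comm, hUz, zero_mul]
  -- `P(c) = 0`
  have hdiff := aeval_sub_mem P y c
  have hPc : eval c P = 0 := by
    by_contra h0
    apply hunit _ h0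
    have h1 : Ideal.span (Set.range fun i => y i - algebraMap k B (c i)) ≤ m := by
      rw [Ideal.span_le]
      rintro _ ⟨i, rfl⟩
      exact hcm i
    have := m.sub_mem (hP m hm) (h1 hdiff)
    simpa using this
  rw [hPc, map_zero, sub_zero] at hdiff
  obtain ⟨a, ha⟩ := (Ideal.mem_span_range_iff_exists_fun).1 hdiff
  -- in the quotient by the annihilator of `u`
  let J' : Ideal B := (Ideal.span {u}).annihilator
  have hJ' : ∀ b, b ∈ J' ↔ b * u = 0 := by
    intro b
    rw [Submodule.mem_annihilator_span_singleton, smul_eq_mul]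
  have h1 : (∑ i, Ideal.Quotient.mk J' (a i * z i)) ^ ((Finset.univ : Finset σ).card * K + 1) = 0 := by
    apply sum_pow_eq_zero
    intro i _
    rw [← map_pow, Ideal.Quotient.eq_zero_iff_mem, hJ', mul_pow, mul_assoc, mul_comm _ u, huz,
      mul_zero]
  rw [← map_sum, ← map_pow, Ideal.Quotient.eq_zero_iff_mem, hJ', ha] at h1
  have h2 : u ∈ A := by
    rw [hA, mul_comm]
    exact h1
  exact hu (hAm h2)

end Pool.Agent.H864.BS
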