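import Pool.Agent.H864.BSb

set_option autoImplicit false

/-! Kronecker substitution, and powers of the product of the linear factors. -/

namespace Pool.Agent.H864.BS

open Polynomial

variable {k : Type} [Field k]

/-- The value of the digits in base `Q`. -/
lemma digits_inj (Q : ℕ) : ∀ (n : ℕ) (d e : Fin n → ℕ), (∀ j, d j < Q) → (∀ j, e j < Q) →
    ∑ j, d j * Q ^ (j : ℕ) = ∑ j, e j * Q ^ (j : ℕ) → d = e := by
  intro n
  induction n with
  | zero =>
    intro d e _ _ _
    funext j
    exact j.elim0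
  | succ n ih =>
    intro d e hd he h
    rw [Fin.sum_univ_succ, Fin.sum_univ_succ] at h
    have hs : ∀ u : Fin (n + 1) → ℕ, ∑ i : Fin n, u i.succ * Q ^ ((i.succ : Fin (n + 1)) : ℕ) =
        Q * ∑ i : Fin n, u i.succ * Q ^ (i : ℕ) := by
      intro u
      rw [Finset.mul_sum]
      apply Finset.sum_congr rfl
      intro i _
      rw [Fin.val_succ, pow_succ]
      ring
    rw [hs, hs] at h
    simp only [Fin.val_zero, pow_zero, mul_one] at h
    have h0 : d 0 = e 0 := by
      have h1 := congrArg (· % Q) h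
      simp only [Nat.add_mul_mod_self_left] at h1
      rwa [Nat.mod_eq_of_lt (hd 0), Nat.mod_eq_of_lt (he 0)] at h1
    have hQ : 0 < Q := lt_of_le_of_lt (Nat.zero_le _) (hd 0)
    have h2 : ∑ i : Fin n, d i.succ * Q ^ (i : ℕ) = ∑ i : Fin n, e i.succ * Q ^ (i : ℕ) := by
      rw [h0] at h
      exact Nat.eq_of_mul_eq_mul_left hQ (Nat.add_left_cancel h)
    have h3 := ih (fun i => d i.succ) (fun i => e i.succ) (fun i => hd _) (fun i => he _) h2
    funext j
    refine Fin.cases h0 (fun i => ?_) j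
    exact congrFun h3 i

/-- The Kronecker substitution. -/
noncomputable def kron (Q M : ℕ) (Ψ : MvPolynomial (Fin M) k) : k[X] :=
  MvPolynomial.aeval (fun j : Fin M => (X : k[X]) ^ (Q ^ (j : ℕ))) Ψ

lemma kron_eq (Q M : ℕ) (Ψ : MvPolynomial (Fin M) k) :
    kron Q M Ψ = ∑ d ∈ Ψ.support, C (Ψ.coeff d) * X ^ (∑ j, d j * Q ^ (j : ℕ)) := by
  rw [kron, MvPolynomial.aeval_def, MvPolynomial.eval₂_eq']
  apply Finset.sum_congr rfl
  intro d _
  congr 1
  rw [← Finset.prod_pow_eq_pow_sum]
  apply Finset.prod_congr rfl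
  intro j _
  rw [← pow_mul, mul_comm]

lemma kron_ne_zero (Q M : ℕ) (Ψ : MvPolynomial (Fin M) k) (hΨ : Ψ ≠ 0) (hdeg : Ψ.totalDegree < Q) :
    kron Q M Ψ ≠ 0 := by
  obtain ⟨e, he⟩ := MvPolynomial.support_nonempty.2 hΨ
  have hlt : ∀ d ∈ Ψ.support, ∀ j, d j < Q := by
    intro d hd j
    refine lt_of_le_of_lt ?_ hdeg
    refine le_trans ?_ (MvPolynomial.le_totalDegree hd)
    have h1 : (d.sum fun _ e => e) = ∑ j, d j := Finsupp.sum_fintype _ _ (fun _ => rfl)
    rw [h1]
    exact Finset.single_le_sum (f := fun j => d j) (fun _ _ => Nat.zero_le _) (Finset.mem_univ j)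
  intro h0
  have h1 : (kron Q M Ψ).coeff (∑ j, e j * Q ^ (j : ℕ)) = Ψ.coeff e := by
    rw [kron_eq, finsetSum_coeff, Finset.sum_eq_single e]
    · rw [coeff_C_mul, coeff_X_pow, if_pos rfl, mul_one]
    · intro d hd hde
      rw [coeff_C_mul, coeff_X_pow, if_neg, mul_zero]
      intro h2
      apply hde
      ext j
      exact congrFun (digits_inj Q M (fun j => d j) (fun j => e j) (hlt d hd) (hlt e he) h2.symm) j
    · intro h
      exact absurd he h
  rw [h0, coeff_zero] at h1
  exact MvPolynomial.mem_support_iff.1 he h1.symm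

lemma natDegree_kron_le (Q M : ℕ) (hQ : 0 < Q) (Ψ : MvPolynomial (Fin (M + 1)) k) :
    (kron Q (M + 1) Ψ).natDegree ≤ Ψ.totalDegree * Q ^ M := by
  rw [kron_eq]
  apply natDegree_sum_le_of_forall_le
  intro d hd
  refine (natDegree_C_mul_X_pow_le _ _).trans ?_
  have h1 : (d.sum fun _ e => e) = ∑ j, d j := Finsupp.sum_fintype _ _ (fun _ => rfl)
  have h2 := MvPolynomial.le_totalDegree hd
  rw [h1] at h2
  calc ∑ j, d j * Q ^ (j : ℕ) ≤ ∑ j, d j * Q ^ M := by
        apply Finset.sum_le_sum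
        intro j _
        apply Nat.mul_le_mul_left
        apply Nat.pow_le_pow_right hQ
        have := j.isLt
        omega
    _ = (∑ j, d j) * Q ^ M := by rw [Finset.sum_mul]
    _ ≤ _ := Nat.mul_le_mul_right _ h2

/-- A polynomial divides a power of the product of its linear factors. -/
lemma dvd_prod_pow [IsAlgClosed k] [DecidableEq k] (G : k[X]) (hG : G ≠ 0) (N : ℕ) (hN : G.natDegree ≤ N) :
    G ∣ (∏ c ∈ G.roots.toFinset, (X - C c)) ^ N := by
  have hs := IsAlgClosed.splits G
  have h1 : G = C G.leadingCoeff * (G.roots.map fun a => X - C a).prod := hs.eq_prod_roots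
  rw [h1]
  have hu : IsUnit (C G.leadingCoeff) := isUnit_C.2 (IsUnit.mk0 _ (leadingCoeff_ne_zero.2 hG))
  rw [← h1]
  have h2 : (G.roots.map fun a => X - C a).prod ∣ (∏ c ∈ G.roots.toFinset, (X - C c)) ^ N := by
    rw [Finset.prod_multiset_map_count, ← Finset.prod_pow]
    apply Finset.prod_dvd_prod_of_dvd
    intro c _
    apply pow_dvd_pow
    refine le_trans ?_ hN
    exact (Multiset.count_le_card _ _).trans (card_roots' G)
  rw [h1]
  exact (hu.mul_left_dvd).2 (by
    have h3 : (C G.leadingCoeff * (G.roots.map fun a => X - C a).prod).roots = G.roots := by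
      rw [← h1]
    rw [h3]
    exact h2)

end Pool.Agent.H864.BS
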