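import Pool.Agent.H864.BSc

set_option autoImplicit false

/-! Quasi-fixed points of polynomial self-maps of affine space in positive characteristic (after
Borisov and Sapir). -/

namespace Pool.Agent.H864.BS

open MvPolynomial

variable {σ : Type}

/-- The polynomials which give the iterates of a polynomial self-map. -/
noncomputable def it {R : Type} [CommRing R] (f : σ → MvPolynomial σ R) : ℕ → σ → MvPolynomial σ R
  | 0 => X
  | n + 1 => fun i => bind₁ f (it f n i)

lemma eval_bind {R : Type} [CommRing R] (f : σ → MvPolynomial σ R) (a : σ → R)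
    (u : MvPolynomial σ R) : eval a (bind₁ f u) = eval (fun i => eval a (f i)) u := by
  have h := eval₂Hom_bind₁ (RingHom.id R) a f u
  exact h

lemma eval_it {R : Type} [CommRing R] (f : σ → MvPolynomial σ R) (a : σ → R) (n : ℕ) (i : σ) :
    eval a (it f n i) = ((fun (x : σ → R) j => eval x (f j))^[n] a) i := by
  induction n generalizing a with
  | zero => simp [it]
  | succ n ih =>
    rw [it, eval_bind, ih, Function.iterate_succ_apply]

lemma it_succ' {R : Type} [CommRing R] (f : σ → MvPolynomial σ R) (n : ℕ) (i : σ) :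
    it f (n + 1) i = bind₁ (it f n) (f i) := by
  induction n generalizing i with
  | zero =>
    rw [it, it, it]
    simp
  | succ n ih =>
    show bind₁ f (it f (n + 1) i) = _
    rw [ih, bind₁_bind₁]
    rfl

lemma map_it {R S : Type} [CommRing R] [CommRing S] (φ : R →+* S) (f : σ → MvPolynomial σ R)
    (n : ℕ) (i : σ) : map φ (it f n i) = it (fun j => map φ (f j)) n i := by
  induction n generalizing i with
  | zero => simp [it]
  | succ n ih =>
    rw [it, it, map_bind₁, ih]

variable {k : Type} [Field k]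

lemma bind_pow (p e : ℕ) [Fact p.Prime] [CharP k p] (u : MvPolynomial σ k) :
    bind₁ (fun i => (X i : MvPolynomial σ k) ^ p ^ e) (map (iterateFrobenius k p e) u) =
      u ^ p ^ e := by
  have h : ((bind₁ (fun i => (X i : MvPolynomial σ k) ^ p ^ e)).toRingHom.comp
      (map (iterateFrobenius k p e))) = iterateFrobenius (MvPolynomial σ k) p e := by
    apply MvPolynomial.ringHom_ext
    · intro c
      simp [iterateFrobenius_def]
    · intro i
      simp [iterateFrobenius_def]
  exact DFunLike.congr_fun h u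

variable [Fintype σ] [DecidableEq σ]

/-- Modulo the equations of the quasi-fixed points the iterates are powers of the variables. -/
lemma mk_it (p e : ℕ) [Fact p.Prime] [CharP k p] (f : σ → MvPolynomial σ k)
    (hf : ∀ i, map (iterateFrobenius k p e) (f i) = f i) (j : ℕ) (i : σ) :
    Ideal.Quotient.mk (Ideal.span (Set.range fun i => X i ^ p ^ e - f i)) (it f j i) =
      Ideal.Quotient.mk _ (X i) ^ (p ^ e) ^ j := by
  set I := Ideal.span (Set.range fun i => (X i : MvPolynomial σ k) ^ p ^ e - f i) with hI
  have hfix : ∀ j i, map (iterateFrobenius k p e) (it f j i) = it f j i := by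
    intro j i
    rw [map_it]
    simp only [hf]
  have hmk : ∀ i, Ideal.Quotient.mk I (f i) = Ideal.Quotient.mk I (X i ^ p ^ e) := by
    intro i
    symm
    rw [Ideal.Quotient.eq]
    exact Ideal.subset_span ⟨i, rfl⟩
  induction j generalizing i with
  | zero => simp [it]
  | succ j ih =>
    rw [it]
    have h1 : Ideal.Quotient.mk I (bind₁ f (it f j i)) =
        Ideal.Quotient.mk I (bind₁ (fun i => (X i : MvPolynomial σ k) ^ p ^ e) (it f j i)) := by
      have e1 : ∀ g : σ → MvPolynomial σ k, ∀ u, Ideal.Quotient.mk I (bind₁ g u) =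
          aeval (fun i => Ideal.Quotient.mk I (g i)) u := by
        intro g u
        have := MvPolynomial.comp_aeval_apply (Ideal.Quotient.mkₐ k I) (f := g) u
        exact this
      rw [e1, e1]
      simp only [hmk]
    rw [h1]
    have h2 := bind_pow p e (it f j i)
    rw [hfix] at h2
    rw [h2, map_pow, ih, ← pow_mul, pow_succ (p ^ e) j]

/-- `card σ + 1` polynomials in `card σ` variables satisfy an algebraic relation. -/
lemma exists_relation (g : ℕ → MvPolynomial σ k) (M : ℕ) (hM : Fintype.card σ ≤ M) :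
    ∃ Ψ : MvPolynomial (Fin (M + 1)) k, Ψ ≠ 0 ∧ aeval (fun j : Fin (M + 1) => g j) Ψ = 0 := by
  by_contra hcon
  push Not at hcon
  have hai : AlgebraicIndependent k (fun j : Fin (M + 1) => g j) := by
    rw [algebraicIndependent_iff]
    intro u hu
    by_contra hne
    exact hcon u hne hu
  have h1 := hai.cardinalMk_le_trdeg
  rw [MvPolynomial.trdeg_of_isDomain] at h1
  simp only [Cardinal.mk_fintype, Fintype.card_fin, Cardinal.lift_natCast] at h1
  have h2 : M + 1 ≤ Fintype.card σ := by exact_mod_cast h1
  omega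

/-- **Quasi-fixed points.** -/
theorem exists_quasi_fixed [IsAlgClosed k] (p : ℕ) [hp : Fact p.Prime] [CharP k p]
    (f : σ → MvPolynomial σ k) (M : ℕ) (hM : Fintype.card σ ≤ M) (P : MvPolynomial σ k)
    (hP : bind₁ (it f M) P ≠ 0) (r : ℕ) (hr : 0 < r)
    (hf : ∀ i, map (iterateFrobenius k p r) (f i) = f i) :
    ∃ m0, ∀ m, m0 ≤ m → ∃ a : σ → k, (∀ i, eval a (f i) = a i ^ p ^ (r * m)) ∧
      eval a (bind₁ (it f M) P) ≠ 0 := by
  classical
  have hrel := fun i : σ => exists_relation (fun j => it f j i) M hM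
  choose Ψ hΨ0 hΨ using hrel
  set K := Finset.univ.sup fun i => (Ψ i).totalDegree with hK
  have hKi : ∀ i, (Ψ i).totalDegree ≤ K := fun i =>
    Finset.le_sup (f := fun i => (Ψ i).totalDegree) (Finset.mem_univ i)
  set g' := (bind₁ (it f M) P) ^ (Fintype.card σ * K + 1) with hg'
  set D := K + (Finset.univ.sup fun i => (f i).totalDegree) + g'.totalDegree with hD
  have hfD : ∀ i, (f i).totalDegree ≤ D := by
    intro i
    have : (f i).totalDegree ≤ Finset.univ.sup fun i => (f i).totalDegree :=
      Finset.le_sup (f := fun i => (f i).totalDegree) (Finset.mem_univ i)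
    omega
  refine ⟨D + 1, fun m hm => ?_⟩
  set e := r * m with he
  have hQD : D < p ^ e := by
    have h1 : m ≤ e := Nat.le_mul_of_pos_left m hr
    have h2 : e < p ^ e := Nat.lt_pow_self hp.out.one_lt
    omega
  have hQ0 : 0 < p ^ e := by omega
  have hfe : ∀ i, map (iterateFrobenius k p e) (f i) = f i := by
    intro i
    rw [he]
    clear_value e
    clear hQD hQ0 he hm
    induction m with
    | zero =>
      have h1 : iterateFrobenius k p (r * 0) = RingHom.id k := by
        rw [Nat.mul_zero]
        exact iterateFrobenius_zero k p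
      rw [h1, MvPolynomial.map_id]
    | succ m ih =>
      have h1 : iterateFrobenius k p (r * (m + 1)) =
          (iterateFrobenius k p (r * m)).comp (iterateFrobenius k p r) := by
        rw [Nat.mul_add, Nat.mul_one]
        exact iterateFrobenius_add k p (r * m) r
      rw [h1, ← MvPolynomial.map_map, hf, ih]
  set I := Ideal.span (Set.range fun i => (X i : MvPolynomial σ k) ^ p ^ e - f i) with hI
  by_contra hcon
  push Not at hcon
  -- the univariate relations
  have huni : ∀ i, Ideal.Quotient.mk I (Polynomial.aeval (X i : MvPolynomial σ k) (kron (p ^ e) (M + 1) (Ψ i))) = 0 := by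
    intro i
    have e1 : Ideal.Quotient.mk I (Polynomial.aeval (X i : MvPolynomial σ k) (kron (p ^ e) (M + 1) (Ψ i))) =
        aeval (fun j : Fin (M + 1) => Ideal.Quotient.mk I (X i) ^ (p ^ e) ^ (j : ℕ)) (Ψ i) := by
      have h1 := MvPolynomial.comp_aeval_apply
        ((Ideal.Quotient.mkₐ k I).comp (Polynomial.aeval (X i : MvPolynomial σ k)))
        (f := fun j : Fin (M + 1) => (Polynomial.X : Polynomial k) ^ ((p ^ e) ^ (j : ℕ))) (Ψ i)
      simp only [AlgHom.comp_apply, map_pow, Polynomial.aeval_X] at h1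
      exact h1
    have e2 : aeval (fun j : Fin (M + 1) => Ideal.Quotient.mk I (X i) ^ (p ^ e) ^ (j : ℕ)) (Ψ i) =
        Ideal.Quotient.mk I (aeval (fun j : Fin (M + 1) => it f j i) (Ψ i)) := by
      have h1 : Ideal.Quotient.mk I (aeval (fun j : Fin (M + 1) => it f j i) (Ψ i)) =
          aeval (fun j : Fin (M + 1) => Ideal.Quotient.mk I (it f j i)) (Ψ i) :=
        MvPolynomial.comp_aeval_apply (fun j : Fin (M + 1) => it f j i) (Ideal.Quotient.mkₐ k I) (Ψ i)
      have h2 : ∀ j : ℕ, Ideal.Quotient.mk I (it f j i) = Ideal.Quotient.mk I (X i) ^ (p ^ e) ^ j :=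
        fun j => mk_it p e f hfe j i
      rw [h1]
      simp only [h2]
    rw [e1, e2, hΨ, map_zero]
  let G : σ → Polynomial k := fun i => kron (p ^ e) (M + 1) (Ψ i)
  have hG0 : ∀ i, G i ≠ 0 := fun i => kron_ne_zero _ _ _ (hΨ0 i) (by
    have := hKi i
    omega)
  have hGdeg : ∀ i, (G i).natDegree ≤ (p ^ e) ^ M * K := by
    intro i
    refine (natDegree_kron_le (p ^ e) M hQ0 (Ψ i)).trans ?_
    rw [mul_comm]
    exact Nat.mul_le_mul_left _ (hKi i)
  -- the Frobenius images of the roots
  have hpow : ∀ c : k, c ^ (p ^ e) ^ M = iterateFrobenius k p (e * M) c := by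
    intro c
    rw [iterateFrobenius_def, pow_mul p e M]
  have hinj : Function.Injective fun c : k => c ^ (p ^ e) ^ M := by
    intro c d hcd
    simp only [hpow] at hcd
    exact (iterateFrobenius k p (e * M)).injective hcd
  have hnil : ∀ i, (∏ c ∈ (G i).roots.toFinset.image (fun c : k => c ^ (p ^ e) ^ M),
      (Ideal.Quotient.mk I (it f M i) - algebraMap k (MvPolynomial σ k ⧸ I) c)) ^ K = 0 := by
    intro i
    rw [Finset.prod_image hinj.injOn]
    have hdvd := dvd_prod_pow (G i) (hG0 i) _ (hGdeg i)
    obtain ⟨H, hH⟩ := hdvd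
    have h1 : Ideal.Quotient.mk I (Polynomial.aeval (X i : MvPolynomial σ k)
        ((∏ c ∈ (G i).roots.toFinset, (Polynomial.X - Polynomial.C c)) ^ ((p ^ e) ^ M * K))) = 0 := by
      rw [hH, map_mul, map_mul, huni, zero_mul]
    rw [pow_mul, map_pow, map_pow, ← Finset.prod_pow, map_prod, map_prod] at h1
    rw [← h1]
    congr 1
    apply Finset.prod_congr rfl
    intro c _
    have h2 : Polynomial.aeval (X i : MvPolynomial σ k)
        ((Polynomial.X - Polynomial.C c : Polynomial k) ^ (p ^ e) ^ M) =
        X i ^ (p ^ e) ^ M - algebraMap k (MvPolynomial σ k) (c ^ (p ^ e) ^ M) := by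
      rw [map_pow, map_sub, Polynomial.aeval_X, Polynomial.aeval_C, ← pow_mul p e M,
        sub_pow_char_pow, map_pow]
    rw [h2, map_sub, mk_it p e f hfe, map_pow (Ideal.Quotient.mk I) (X i)]
    rfl
  have hmax : ∀ m : Ideal (MvPolynomial σ k ⧸ I), m.IsMaximal →
      aeval (fun i => Ideal.Quotient.mk I (it f M i)) P ∈ m := by
    intro m hm
    have hm' : (m.comap (Ideal.Quotient.mk I)).IsMaximal :=
      Ideal.comap_isMaximal_of_surjective _ Ideal.Quotient.mk_surjective
    obtain ⟨a, ha⟩ := (isMaximal_iff_eq_vanishingIdeal_singleton).1 hm'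
    have hmem : ∀ u : MvPolynomial σ k, Ideal.Quotient.mk I u ∈ m ↔ eval a u = 0 := by
      intro u
      rw [← Ideal.mem_comap, ha, mem_vanishingIdeal_singleton_iff]
      rfl
    have hsol : ∀ i, eval a (f i) = a i ^ p ^ e := by
      intro i
      have h1 : Ideal.Quotient.mk I (X i ^ p ^ e - f i) ∈ m := by
        have : Ideal.Quotient.mk I (X i ^ p ^ e - f i) = 0 := by
          rw [Ideal.Quotient.eq_zero_iff_mem]
          exact Ideal.subset_span ⟨i, rfl⟩
        rw [this]
        exact m.zero_mem
      rw [hmem] at h1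
      simp only [map_sub, map_pow, eval_X] at h1
      exact (sub_eq_zero.1 h1).symm
    have h2 := hcon a hsol
    rw [← hmem] at h2
    have h3 := MvPolynomial.comp_aeval_apply (Ideal.Quotient.mkₐ k I) (f := it f M) P
    simp only [Ideal.Quotient.mkₐ_eq_mk] at h3
    rw [← h3]
    exact h2
  have hfin := pow_eq_zero_of_forall_maximal (fun i => Ideal.Quotient.mk I (it f M i)) K _ hnil P hmax
  have h3 := MvPolynomial.comp_aeval_apply (Ideal.Quotient.mkₐ k I) (f := it f M) P
  simp only [Ideal.Quotient.mkₐ_eq_mk] at h3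
  rw [← h3, ← map_pow, Ideal.Quotient.eq_zero_iff_mem] at hfin
  refine not_mem_of_totalDegree_lt f (p ^ e) (fun i => lt_of_le_of_lt (hfD i) hQD) g' ?_ ?_ hfin
  · exact pow_ne_zero _ hP
  · omega

end Pool.Agent.H864.BS
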