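import Pool.Agent.H864.MultEmb

set_option autoImplicit false

/-! Embeddings of finitely generated subrings of the complex numbers in the integers of the
algebraic closure of `ℚ_p`, with residues in the prime field. -/

namespace Pool.Agent.H864.Cas

open NumberField Pool.Agent.H936R2 Pool.Agent.H864.Pad Pool.Agent.H864.Frob Pool.Agent.H864.Kum
  Pool.Agent.TH838.PR

section norms

variable {p : ℕ} [hp : Fact p.Prime]

lemma norm_sum_lt {ι : Type} (s : Finset ι) (f : ι → PadicAlgCl p) (h : ∀ i ∈ s, ‖f i‖ < 1) :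
    ‖∑ i ∈ s, f i‖ < 1 := by
  classical
  induction s using Finset.induction_on with
  | empty => simp
  | insert a s ha ih =>
    rw [Finset.sum_insert ha]
    exact norm_add_lt' (h a (Finset.mem_insert_self a s))
      (ih fun i hi => h i (Finset.mem_insert_of_mem hi))

lemma norm_aeval_sub {t : ℕ} (w : Fin t → PadicAlgCl p) (hw : ∀ j, ‖w j‖ < 1)
    (c : MvPolynomial (Fin t) ℚ) (hc : ∀ e, ¬ p ∣ (MvPolynomial.coeff e c).den) :
    ‖MvPolynomial.aeval w c - algebraMap ℚ (PadicAlgCl p) (MvPolynomial.constantCoeff c)‖ < 1 := by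
  classical
  have h1 : MvPolynomial.aeval w c - algebraMap ℚ (PadicAlgCl p) (MvPolynomial.constantCoeff c) =
      ∑ e ∈ c.support.erase 0, algebraMap ℚ (PadicAlgCl p) (MvPolynomial.coeff e c) *
        ∏ j, w j ^ e j := by
    rw [MvPolynomial.aeval_eq_eval₂Hom, MvPolynomial.coe_eval₂Hom, MvPolynomial.eval₂_eq']
    have h2 : MvPolynomial.constantCoeff c = MvPolynomial.coeff 0 c := rfl
    rw [h2]
    by_cases h0 : (0 : Fin t →₀ ℕ) ∈ c.support
    · rw [← Finset.add_sum_erase _ _ h0]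
      simp
    · rw [Finset.erase_eq_of_notMem h0, MvPolynomial.notMem_support_iff.1 h0, map_zero, sub_zero]
  rw [h1]
  apply norm_sum_lt
  intro e he
  have he0 : e ≠ 0 := (Finset.mem_erase.1 he).1
  obtain ⟨j, hj⟩ : ∃ j, e j ≠ 0 := by
    by_contra hcon
    push Not at hcon
    exact he0 (Finsupp.ext hcon)
  rw [norm_mul, norm_prod]
  have h3 : ‖(algebraMap ℚ (PadicAlgCl p)) (MvPolynomial.coeff e c)‖ ≤ 1 := norm_rat_le_one _ (hc e)
  have h4 : ∏ i, ‖w i ^ e i‖ < 1 := by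
    rw [← Finset.mul_prod_erase _ _ (Finset.mem_univ j), norm_pow]
    have h5 : ‖w j‖ ^ e j < 1 := pow_lt_one₀ (norm_nonneg _) (hw j) hj
    have h6 : ∏ i ∈ Finset.univ.erase j, ‖w i ^ e i‖ ≤ 1 := by
      apply Finset.prod_le_one
      · intro i _
        positivity
      · intro i _
        rw [norm_pow]
        exact pow_le_one₀ (norm_nonneg _) (hw i).le
    calc _ ≤ ‖w j‖ ^ e j * 1 := mul_le_mul_of_nonneg_left h6 (by positivity)
      _ < 1 := by rw [mul_one]; exact h5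
  calc _ ≤ 1 * ∏ i, ‖w i ^ e i‖ := mul_le_mul_of_nonneg_right h3 (by positivity)
    _ < 1 := by rw [one_mul]; exact h4

end norms

/-- **Split embeddings** (Cassels). -/
theorem exists_split_embedding (s : Finset ℂ) (B : ℕ) :
    ∃ (p : ℕ) (_ : Fact p.Prime), B < p ∧ ∃ τ : ℂ →+* PadicAlgCl p,
      ∀ x ∈ s, ‖τ x‖ ≤ 1 ∧ ‖τ x - τ x ^ p‖ < 1 := by
  classical
  let R := Algebra.adjoin ℚ (s : Set ℂ)
  have hfg : Algebra.FiniteType ℚ R :=
    (Subalgebra.fg_iff_finiteType _).1 (Subalgebra.fg_adjoin_finset s)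
  obtain ⟨t, g, hinj, hint⟩ := exists_integral_inj_algHom_of_fg ℚ R
  have hmem : ∀ x ∈ s, x ∈ R := fun x hx => Algebra.subset_adjoin hx
  have h1 : ∀ x : s, ∃ f : Polynomial (MvPolynomial (Fin t) ℚ), f.Monic ∧
      Polynomial.eval₂ g.toRingHom (⟨x, hmem x x.2⟩ : R) f = 0 := fun x => hint _
  choose f hf h0 using h1
  choose N hN using fun x : s => den_bound (f x)
  let y : Fin t → ℂ := fun j => ((g (MvPolynomial.X j) : R) : ℂ)
  have hy1 : (MvPolynomial.aeval y : MvPolynomial (Fin t) ℚ →ₐ[ℚ] ℂ) = R.val.comp g := by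
    apply MvPolynomial.algHom_ext
    intro i
    simp [y]
  have hy : AlgebraicIndependent ℚ y := by
    rw [algebraicIndependent_iff_injective_aeval, hy1, AlgHom.coe_comp]
    exact Subtype.val_injective.comp hinj
  -- the specializations
  let h : s → Polynomial ℚ := fun x => (f x).map MvPolynomial.constantCoeff
  have hh : ∀ x, (h x).Monic := fun x => (hf x).map _
  let t₀ : Set ℂ := ⋃ x : s, (h x).rootSet ℂ
  have ht₀ : t₀.Finite := Set.finite_iUnion fun x => (h x).rootSet_finite ℂ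
  have halg : ∀ z ∈ t₀, IsAlgebraic ℚ z := by
    intro z hz
    obtain ⟨x, hx⟩ := Set.mem_iUnion.1 hz
    exact ⟨h x, (hh x).ne_zero, (Polynomial.mem_rootSet.1 hx).2⟩
  obtain ⟨L, hLfin, hLgal, hL⟩ := exists_galois_field t₀ ht₀ halg
  let T : Finset L := ht₀.toFinset.attach.image fun a : {x // x ∈ ht₀.toFinset} =>
    (⟨(a : ℂ), hL (ht₀.mem_toFinset.1 a.2)⟩ : L)
  obtain ⟨p, hp, hpB, τ₀, -, hτT⟩ := exists_frob_embedding L 1 s T (B + Finset.univ.sup N)
  have hroots : ∀ z ∈ t₀, ‖τ₀ z‖ ≤ 1 ∧ ‖τ₀ z - τ₀ z ^ p‖ < 1 := by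
    intro z hz
    have hzT : (⟨z, hL hz⟩ : L) ∈ T :=
      Finset.mem_image.2 ⟨⟨z, ht₀.mem_toFinset.2 hz⟩, Finset.mem_attach _ _, rfl⟩
    have h2 := hτT _ hzT
    exact h2
  let K₀ : Subfield ℂ := (algebraicClosure ℚ ℂ).toSubfield
  have hyK : AlgebraicIndependent K₀ y := hy.algebraicClosure
  obtain ⟨τ, hτK, hτy⟩ := emb_near_over K₀ τ₀ y hyK (fun _ => 0) fun _ => isAlgebraic_zero
  have hτy' : ∀ j, ‖τ (y j)‖ < 1 := fun j => by
    have := hτy j
    rwa [sub_zero] at this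
  have hroots' : ∀ z ∈ t₀, ‖τ z‖ ≤ 1 ∧ ‖τ z - τ z ^ p‖ < 1 := by
    intro z hz
    have h2 : τ z = τ₀ z := hτK z (mem_algebraicClosure_iff.2 (halg z hz))
    rw [h2]
    exact hroots z hz
  have hden : ∀ (x : s) (i : ℕ) (e : Fin t →₀ ℕ), ¬ p ∣ (MvPolynomial.coeff e ((f x).coeff i)).den := by
    intro x i e hdvd
    have h7 := Nat.le_of_dvd (Rat.den_pos _) hdvd
    have h8 := hN x i e
    have h9 := Finset.le_sup (f := N) (Finset.mem_univ x)
    omega
  refine ⟨p, hp, by omega, τ, fun x hx => ?_⟩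
  let ρ : R →+* PadicAlgCl p := τ.comp R.val.toRingHom
  have h3 : ρ (Polynomial.eval₂ g.toRingHom (⟨x, hmem x hx⟩ : R) (f ⟨x, hx⟩)) = 0 := by
    rw [h0 ⟨x, hx⟩, map_zero]
  rw [Polynomial.hom_eval₂] at h3
  have h4 : ρ (⟨x, hmem x hx⟩ : R) = τ x := rfl
  rw [h4] at h3
  have h5 : ∀ c : MvPolynomial (Fin t) ℚ, (ρ.comp g.toRingHom) c =
      MvPolynomial.aeval (fun j => τ (y j)) c := by
    intro c
    have h6 : (ρ.comp g.toRingHom).toRatAlgHom =
        (MvPolynomial.aeval (fun j => τ (y j)) : MvPolynomial (Fin t) ℚ →ₐ[ℚ] PadicAlgCl p) := by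
      apply MvPolynomial.algHom_ext
      intro j
      rw [MvPolynomial.aeval_X]
      rfl
    exact DFunLike.congr_fun h6 c
  have hle : ‖τ x‖ ≤ 1 := by
    refine norm_le_one_of_monic ((f ⟨x, hx⟩).map (ρ.comp g.toRingHom)) ((hf _).map _) (fun i => ?_)
      (by rw [Polynomial.eval_map]; exact h3)
    rw [Polynomial.coeff_map, h5]
    exact norm_aeval_le _ (fun j => (hτy' j).le) _ (hden ⟨x, hx⟩ i)
  refine ⟨hle, ?_⟩
  -- the specialized polynomial is small at `τ x`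
  have h6 : ‖Polynomial.eval₂ (algebraMap ℚ (PadicAlgCl p)) (τ x) (h ⟨x, hx⟩)‖ < 1 := by
    have h7 : Polynomial.eval₂ (algebraMap ℚ (PadicAlgCl p)) (τ x) (h ⟨x, hx⟩) =
        -∑ i ∈ Finset.range ((f ⟨x, hx⟩).natDegree + 1),
          (MvPolynomial.aeval (fun j => τ (y j)) ((f ⟨x, hx⟩).coeff i) -
            algebraMap ℚ (PadicAlgCl p) (MvPolynomial.constantCoeff ((f ⟨x, hx⟩).coeff i))) * τ x ^ i := by
      have h8 : Polynomial.eval₂ (algebraMap ℚ (PadicAlgCl p)) (τ x) (h ⟨x, hx⟩) =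
          ∑ i ∈ Finset.range ((f ⟨x, hx⟩).natDegree + 1),
            algebraMap ℚ (PadicAlgCl p) (MvPolynomial.constantCoeff ((f ⟨x, hx⟩).coeff i)) * τ x ^ i := by
        show Polynomial.eval₂ _ _ ((f ⟨x, hx⟩).map MvPolynomial.constantCoeff) = _
        rw [Polynomial.eval₂_map, Polynomial.eval₂_eq_sum_range]
        rfl
      have h9 : ∑ i ∈ Finset.range ((f ⟨x, hx⟩).natDegree + 1),
            MvPolynomial.aeval (fun j => τ (y j)) ((f ⟨x, hx⟩).coeff i) * τ x ^ i = 0 := by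
        rw [← h3, Polynomial.eval₂_eq_sum_range]
        apply Finset.sum_congr rfl
        intro i _
        rw [h5]
      rw [h8, ← sub_zero (∑ i ∈ Finset.range ((f ⟨x, hx⟩).natDegree + 1),
            algebraMap ℚ (PadicAlgCl p) (MvPolynomial.constantCoeff ((f ⟨x, hx⟩).coeff i)) * τ x ^ i),
        ← h9, ← Finset.sum_sub_distrib, ← Finset.sum_neg_distrib]
      apply Finset.sum_congr rfl
      intro i _
      ring
    rw [h7, norm_neg]
    apply norm_sum_lt
    intro i _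
    rw [norm_mul, norm_pow]
    calc _ ≤ ‖MvPolynomial.aeval (fun j => τ (y j)) ((f ⟨x, hx⟩).coeff i) -
            algebraMap ℚ (PadicAlgCl p) (MvPolynomial.constantCoeff ((f ⟨x, hx⟩).coeff i))‖ * 1 :=
          mul_le_mul_of_nonneg_left (pow_le_one₀ (norm_nonneg _) hle) (norm_nonneg _)
      _ < 1 := by
        rw [mul_one]
        exact norm_aeval_sub _ hτy' _ (hden ⟨x, hx⟩ i)
  -- factorization
  set hC := (h ⟨x, hx⟩).map (algebraMap ℚ ℂ) with hhC
  have hsplit : hC = (hC.roots.map fun r => Polynomial.X - Polynomial.C r).prod :=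
    (IsAlgClosed.splits hC).eq_prod_roots_of_monic ((hh _).map _)
  have h7 : Polynomial.eval₂ (algebraMap ℚ (PadicAlgCl p)) (τ x) (h ⟨x, hx⟩) =
      (hC.roots.map fun r => τ x - τ r).prod := by
    have h8 : Polynomial.eval₂ (algebraMap ℚ (PadicAlgCl p)) (τ x) (h ⟨x, hx⟩) =
        Polynomial.eval₂ τ (τ x) hC := by
      have h9 : algebraMap ℚ (PadicAlgCl p) = τ.comp (algebraMap ℚ ℂ) := Subsingleton.elim _ _
      rw [h9, hhC]
      exact (Polynomial.eval₂_map (algebraMap ℚ ℂ) τ (τ x)).symm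
    rw [h8]
    conv_lhs => rw [hsplit]
    rw [← Polynomial.coe_eval₂RingHom, map_multiset_prod, Multiset.map_map]
    congr 1
    apply Multiset.map_congr rfl
    intro r _
    simp
  rw [h7] at h6
  obtain ⟨r, hr, hrx⟩ : ∃ r ∈ hC.roots, ‖τ x - τ r‖ < 1 := by
    by_contra hcon
    push Not at hcon
    have h1 : ∀ s : Multiset ℂ, (∀ r ∈ s, 1 ≤ ‖τ x - τ r‖) →
        1 ≤ ‖(s.map fun r => τ x - τ r).prod‖ := by
      intro s
      induction s using Multiset.induction_on with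
      | empty => simp
      | cons r s ih =>
        intro h
        rw [Multiset.map_cons, Multiset.prod_cons, norm_mul]
        exact one_le_mul_of_one_le_of_one_le (h r (Multiset.mem_cons_self r s))
          (ih fun r' hr' => h r' (Multiset.mem_cons_of_mem hr'))
    exact absurd h6 (not_lt.2 (h1 _ hcon))
  have hrt : r ∈ t₀ := by
    refine Set.mem_iUnion.2 ⟨⟨x, hx⟩, ?_⟩
    rw [Polynomial.mem_rootSet]
    refine ⟨(hh _).ne_zero, ?_⟩
    have h2 := (Polynomial.mem_roots ((hh ⟨x, hx⟩).map (algebraMap ℚ ℂ)).ne_zero).1 hr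
    rw [Polynomial.IsRoot, Polynomial.eval_map] at h2
    exact h2
  obtain ⟨hr1, hr2⟩ := hroots' r hrt
  have := charP_resF (p := p)
  let xO : unitBall (PadicAlgCl p) := ⟨τ x, hle⟩
  let rO : unitBall (PadicAlgCl p) := ⟨τ r, hr1⟩
  have e1 : res (PadicAlgCl p) xO = res (PadicAlgCl p) rO := by
    rw [← sub_eq_zero, ← map_sub, res_eq_zero_iff]
    exact hrx
  have e2 : res (PadicAlgCl p) rO = res (PadicAlgCl p) rO ^ p := by
    rw [← map_pow, ← sub_eq_zero, ← map_sub, res_eq_zero_iff]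
    exact hr2
  have e3 : res (PadicAlgCl p) (xO - xO ^ p) = 0 := by
    rw [map_sub, map_pow, e1, ← e2, sub_self]
  rw [res_eq_zero_iff] at e3
  exact e3

end Pool.Agent.H864.Cas
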