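import Mathlib

set_option autoImplicit false

/-! Counting the primitive integral vectors in a residue class. -/

namespace Pool.Agent.H864.Count

open Finset

/-- The integers in `[-B, B]` congruent to `r` modulo `m`. -/
noncomputable def cls (B : ℕ) (m r : ℤ) : Finset ℤ := (Ioc (-(B : ℤ) - 1) B).filter fun x => x ≡ r [ZMOD m]

lemma mem_cls {B : ℕ} {m r x : ℤ} : x ∈ cls B m r ↔ |x| ≤ B ∧ x ≡ r [ZMOD m] := by
  unfold cls
  rw [mem_filter, mem_Ioc, abs_le]
  constructor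
  · rintro ⟨⟨h1, h2⟩, h3⟩
    exact ⟨⟨by omega, h2⟩, h3⟩
  · rintro ⟨⟨h1, h2⟩, h3⟩
    exact ⟨⟨by omega, h2⟩, h3⟩

lemma card_cls (B : ℕ) (m r : ℤ) (hm : 0 < m) :
    (2 * B + 1 : ℝ) / m - 1 ≤ #(cls B m r) ∧ (#(cls B m r) : ℝ) ≤ (2 * B + 1 : ℝ) / m + 1 := by
  have h := Int.Ioc_filter_modEq_card (-(B : ℤ) - 1) B hm r
  have hc : ((#(cls B m r) : ℤ)) = max (⌊((B : ℤ) - r) / (m : ℚ)⌋ - ⌊((-(B : ℤ) - 1 : ℤ) - r) / (m : ℚ)⌋) 0 := h
  set u := ⌊((B : ℤ) - r) / (m : ℚ)⌋ with hu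
  set v := ⌊((-(B : ℤ) - 1 : ℤ) - r) / (m : ℚ)⌋ with hv
  have hmq : (0 : ℚ) < m := by exact_mod_cast hm
  have h1 : (u : ℚ) ≤ ((B : ℤ) - r) / (m : ℚ) := Int.floor_le _
  have h2 : ((B : ℤ) - r) / (m : ℚ) < u + 1 := Int.lt_floor_add_one _
  have h3 : (v : ℚ) ≤ ((-(B : ℤ) - 1 : ℤ) - r) / (m : ℚ) := Int.floor_le _
  have h4 : ((-(B : ℤ) - 1 : ℤ) - r) / (m : ℚ) < v + 1 := Int.lt_floor_add_one _
  have hdiff : ((B : ℤ) - r) / (m : ℚ) - ((-(B : ℤ) - 1 : ℤ) - r) / (m : ℚ) = (2 * B + 1) / m := by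
    rw [← sub_div]
    congr 1
    push_cast
    ring
  have hpos : (0 : ℚ) < (2 * B + 1) / m := by positivity
  have hlow : ((2 * B + 1 : ℚ) / m - 1) ≤ (u - v : ℤ) := by
    push_cast
    linarith
  have hup : ((u - v : ℤ) : ℚ) ≤ (2 * B + 1 : ℚ) / m + 1 := by
    push_cast
    linarith
  have hcq : ((#(cls B m r) : ℤ) : ℚ) = max ((u - v : ℤ) : ℚ) 0 := by
    rw [hc]
    push_cast
    rfl
  have e1 : ((2 * B + 1 : ℚ) / m - 1) ≤ ((#(cls B m r) : ℤ) : ℚ) := by
    rw [hcq]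
    exact hlow.trans (le_max_left _ _)
  have e2 : ((#(cls B m r) : ℤ) : ℚ) ≤ (2 * B + 1 : ℚ) / m + 1 := by
    rw [hcq]
    apply max_le hup
    linarith
  constructor
  · have := (Rat.cast_le (K := ℝ)).2 e1
    push_cast at this
    exact this
  · have := (Rat.cast_le (K := ℝ)).2 e2
    push_cast at this
    exact this

lemma sum_sq (B : ℕ) (hB : 4 ≤ B) : ∑ q ∈ Icc 5 B, (1 : ℝ) / (q : ℝ) ^ 2 ≤ 1 / 4 - 1 / B := by
  induction B, hB using Nat.le_induction with
  | base => norm_num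
  | succ B hB ih =>
    rw [Finset.sum_Icc_succ_top (by omega)]
    have hB0 : (0 : ℝ) < B := by exact_mod_cast (by omega : 0 < B)
    have h1 : (1 : ℝ) / ((B + 1 : ℕ) : ℝ) ^ 2 ≤ 1 / B - 1 / ((B + 1 : ℕ) : ℝ) := by
      push_cast
      rw [div_sub_div _ _ hB0.ne' (by positivity), div_le_div_iff₀ (by positivity) (by positivity)]
      nlinarith
    linarith

lemma ineq1 {X M W t b : ℝ} (hW : 0 ≤ W) (ht : t ≤ 1 / 4) (hb : b ≤ M * X / 2) :
    W * (2 * X ^ 2 * t + 2 * b) ≤ W * (X ^ 2 / 2 + M * X) := by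
  apply mul_le_mul_of_nonneg_left _ hW
  have h1 : 2 * X ^ 2 * t ≤ 2 * X ^ 2 * (1 / 4) := mul_le_mul_of_nonneg_left ht (by positivity)
  linarith

lemma ineq2 (a : ℝ) : (a + 1) * (a + 1) ≤ 2 * a ^ 2 + 2 := by
  nlinarith [sq_nonneg (a - 1)]

lemma ineq3 {X M W : ℝ} (hW : 0 ≤ W) (hM : 0 < M) (hX : 4 * (M + 2) ≤ X) :
    W * (X ^ 2 / 4) ≤ W * (X - 1) ^ 2 - W * (X ^ 2 / 2 + M * X) := by
  rw [← mul_sub]
  apply mul_le_mul_of_nonneg_left _ hW
  nlinarith

/-- **Counting primitive vectors.** -/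
theorem count {n : ℕ} (i j : Fin n) (hij : i ≠ j) (M : ℕ) (hM0 : 0 < M) (h6 : 6 ∣ M)
    (r : Fin n → ℤ) (hr : IsCoprime (r i) M) (B : ℕ) (hB : 4 * (M + 2) * M ≤ 2 * B + 1) :
    ((2 * B + 1 : ℝ) / (2 * M)) ^ n ≤
      #((Fintype.piFinset fun l => cls B M (r l)).filter fun v => IsCoprime (v i) (v j)) := by
  classical
  obtain ⟨X, hX⟩ : ∃ X : ℝ, X = (2 * B + 1 : ℝ) / M := ⟨_, rfl⟩
  have hMR : (0 : ℝ) < M := by exact_mod_cast hM0
  have hXM : 4 * ((M : ℝ) + 2) ≤ X := by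
    rw [hX, le_div_iff₀ hMR]
    exact_mod_cast hB
  have hX0 : 0 < X := by linarith
  have hX2 : 2 ≤ X := by linarith
  have hM6 : 6 ≤ M := Nat.le_of_dvd hM0 h6
  have hB4 : 4 ≤ B := by
    have : 6 * 6 ≤ 4 * (M + 2) * M := by nlinarith
    omega
  let S : Fin n → Finset ℤ := fun l => cls B M (r l)
  have hSlow : ∀ l, X - 1 ≤ #(S l) := fun l => by
    have h1 := (card_cls B M (r l) (by exact_mod_cast hM0)).1
    rw [Int.cast_natCast] at h1
    rw [hX]
    exact h1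
  let Sq : ℕ → Fin n → Finset ℤ := fun q l =>
    if l = i ∨ l = j then (S l).filter fun x => (q : ℤ) ∣ x else S l
  -- the bad vectors
  have hbad : (Fintype.piFinset S).filter (fun v => ¬ IsCoprime (v i) (v j)) ⊆
      ((Icc 5 B).filter fun q => Nat.Coprime q M).biUnion fun q => Fintype.piFinset (Sq q) := by
    intro v hv
    rw [mem_filter, Fintype.mem_piFinset] at hv
    obtain ⟨hvS, hv⟩ := hv
    have hvi := mem_cls.1 (hvS i)
    have hvj := mem_cls.1 (hvS j)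
    have hcop : IsCoprime (v i) M := by
      obtain ⟨k, hk⟩ := (Int.modEq_iff_dvd.1 hvi.2)
      have h1 : v i = r i + M * (-k) := by linarith
      rw [h1]
      exact IsCoprime.add_mul_left_left hr (-k)
    have hvi0 : v i ≠ 0 := by
      intro h0
      rw [h0, isCoprime_zero_left, Int.isUnit_iff] at hcop
      omega
    rw [Int.isCoprime_iff_gcd_eq_one] at hv
    obtain ⟨q, hq, hqd⟩ := Nat.exists_prime_and_dvd hv
    have hqi : (q : ℤ) ∣ v i := (Int.natCast_dvd_natCast.2 hqd).trans (Int.gcd_dvd_left _ _)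
    have hqj : (q : ℤ) ∣ v j := (Int.natCast_dvd_natCast.2 hqd).trans (Int.gcd_dvd_right _ _)
    have hqM : Nat.Coprime q M := by
      have h1 : IsCoprime (q : ℤ) M := IsCoprime.of_isCoprime_of_dvd_left hcop hqi
      exact Nat.isCoprime_iff_coprime.1 h1
    have hqB : q ≤ B := by
      have h1 := Int.le_of_dvd (abs_pos.2 hvi0) ((dvd_abs _ _).2 hqi)
      have h2 := h1.trans hvi.1
      exact_mod_cast h2
    have hq5 : 5 ≤ q := by
      have h2 := hq.two_le
      have hn : ∀ k : ℕ, k ∣ 6 → k ≠ 1 → q ≠ k := by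
        rintro k hk hk1 rfl
        exact hk1 (Nat.Coprime.eq_one_of_dvd hqM (hk.trans h6))
      have h3 := hn 2 (by norm_num) (by norm_num)
      have h4 := hn 3 (by norm_num) (by norm_num)
      have h5 : q ≠ 4 := by
        rintro rfl
        exact absurd hq (by norm_num)
      omega
    rw [mem_biUnion]
    refine ⟨q, mem_filter.2 ⟨mem_Icc.2 ⟨hq5, hqB⟩, hqM⟩, ?_⟩
    rw [Fintype.mem_piFinset]
    intro l
    show v l ∈ if l = i ∨ l = j then _ else _
    split_ifs with hl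
    · rw [mem_filter]
      refine ⟨hvS l, ?_⟩
      rcases hl with rfl | rfl
      · exact hqi
      · exact hqj
    · exact hvS l
  -- cardinalities
  obtain ⟨W, hW⟩ : ∃ W : ℝ, W = ∏ l ∈ (univ.erase i).erase j, (#(S l) : ℝ) := ⟨_, rfl⟩
  have hprod : ∀ T : Fin n → Finset ℤ, (#(Fintype.piFinset T) : ℝ) =
      #(T i) * #(T j) * ∏ l ∈ (univ.erase i).erase j, (#(T l) : ℝ) := by
    intro T
    rw [Fintype.card_piFinset]
    push_cast
    rw [← mul_prod_erase _ _ (mem_univ i),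
      ← mul_prod_erase (univ.erase i) _ (mem_erase.2 ⟨hij.symm, mem_univ j⟩)]
    ring
  have hW0 : 0 ≤ W := by
    rw [hW]
    exact prod_nonneg fun l _ => Nat.cast_nonneg _
  have hSqcard : ∀ q, Nat.Coprime q M → 0 < q → ∀ l, l = i ∨ l = j → (#(Sq q l) : ℝ) ≤ X / q + 1 := by
    intro q hq hq0 l hl
    have h1 : Sq q l = (S l).filter fun x => (q : ℤ) ∣ x := if_pos hl
    rw [h1]
    rcases ((S l).filter fun x => (q : ℤ) ∣ x).eq_empty_or_nonempty with h0 | ⟨x₀, hx₀⟩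
    · rw [h0, card_empty, Nat.cast_zero]
      positivity
    · rw [mem_filter] at hx₀
      have hx₀' := mem_cls.1 hx₀.1
      have h2 : ((S l).filter fun x => (q : ℤ) ∣ x) ⊆ cls B ((M * q : ℕ) : ℤ) x₀ := by
        intro x hx
        rw [mem_filter] at hx
        have hx' := mem_cls.1 hx.1
        rw [mem_cls]
        refine ⟨hx'.1, ?_⟩
        rw [Int.modEq_iff_dvd]
        push_cast
        apply IsCoprime.mul_dvd (Nat.isCoprime_iff_coprime.2 hq.symm)
        · exact Int.modEq_iff_dvd.1 (hx'.2.trans hx₀'.2.symm)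
        · exact dvd_sub hx₀.2 hx.2
      have h3 := (card_cls B ((M * q : ℕ) : ℤ) x₀ (by positivity)).2
      have h4 : (#((S l).filter fun x => (q : ℤ) ∣ x) : ℝ) ≤ #(cls B ((M * q : ℕ) : ℤ) x₀) := by
        exact_mod_cast card_le_card h2
      refine h4.trans (h3.trans (le_of_eq ?_))
      rw [hX]
      push_cast
      rw [div_div]
  have hbadcard : (#((Fintype.piFinset S).filter (fun v => ¬ IsCoprime (v i) (v j))) : ℝ) ≤
      W * (X ^ 2 / 2 + M * X) := by
    have h1 : (#((Fintype.piFinset S).filter (fun v => ¬ IsCoprime (v i) (v j))) : ℝ) ≤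
        ∑ q ∈ (Icc 5 B).filter (fun q => Nat.Coprime q M), (#(Fintype.piFinset (Sq q)) : ℝ) := by
      have := (card_le_card hbad).trans card_biUnion_le
      exact_mod_cast this
    have h2 : ∀ q ∈ (Icc 5 B).filter (fun q => Nat.Coprime q M),
        (#(Fintype.piFinset (Sq q)) : ℝ) ≤ W * (2 * X ^ 2 * (1 / (q : ℝ) ^ 2) + 2) := by
      intro q hq
      rw [mem_filter, mem_Icc] at hq
      have hq0 : 0 < q := by omega
      have hqR : (0 : ℝ) < q := by exact_mod_cast hq0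
      rw [hprod]
      have h3 : ∏ l ∈ (univ.erase i).erase j, (#(Sq q l) : ℝ) = W := by
        rw [hW]
        apply prod_congr rfl
        intro l hl
        rw [mem_erase, mem_erase] at hl
        have : Sq q l = S l := if_neg (by
          rintro (h | h)
          · exact hl.2.1 h
          · exact hl.1 h)
        rw [this]
      rw [h3]
      have h4 := hSqcard q hq.2 hq0 i (Or.inl rfl)
      have h5 := hSqcard q hq.2 hq0 j (Or.inr rfl)
      have h6 : (#(Sq q i) : ℝ) * #(Sq q j) ≤ (X / q + 1) * (X / q + 1) :=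
        mul_le_mul h4 h5 (Nat.cast_nonneg _) (by positivity)
      have h7 : (X / q + 1) * (X / q + 1) ≤ 2 * X ^ 2 * (1 / (q : ℝ) ^ 2) + 2 := by
        have : 2 * X ^ 2 * (1 / (q : ℝ) ^ 2) = 2 * (X / q) ^ 2 := by
          rw [div_pow]
          ring
        rw [this]
        exact ineq2 _
      calc (#(Sq q i) : ℝ) * #(Sq q j) * W ≤ (2 * X ^ 2 * (1 / (q : ℝ) ^ 2) + 2) * W :=
            mul_le_mul_of_nonneg_right (h6.trans h7) hW0
        _ = _ := mul_comm _ _
    have h3 : ∑ q ∈ (Icc 5 B).filter (fun q => Nat.Coprime q M), W * (2 * X ^ 2 * (1 / (q : ℝ) ^ 2) + 2) ≤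
        ∑ q ∈ Icc 5 B, W * (2 * X ^ 2 * (1 / (q : ℝ) ^ 2) + 2) := by
      apply sum_le_sum_of_subset_of_nonneg (filter_subset _ _)
      intro q _ _
      exact mul_nonneg hW0 (by positivity)
    have h4 : ∑ q ∈ Icc 5 B, W * (2 * X ^ 2 * (1 / (q : ℝ) ^ 2) + 2) =
        W * (2 * X ^ 2 * ∑ q ∈ Icc 5 B, (1 / (q : ℝ) ^ 2) + 2 * #(Icc 5 B)) := by
      rw [← mul_sum, sum_add_distrib, ← mul_sum, sum_const, nsmul_eq_mul]
      ring
    have h5 := sum_sq B hB4
    have h6 : (0 : ℝ) ≤ 1 / B := by positivity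
    have h7 : (#(Icc 5 B) : ℝ) ≤ B := by
      rw [Nat.card_Icc]
      exact_mod_cast (by omega : B + 1 - 5 ≤ B)
    have h8 : (B : ℝ) ≤ M * X / 2 := by
      have h9 : (M : ℝ) * X = 2 * B + 1 := by
        rw [hX, mul_comm, div_mul_cancel₀ _ hMR.ne']
      rw [h9]
      linarith
    calc _ ≤ _ := h1
      _ ≤ _ := sum_le_sum h2
      _ ≤ _ := h3
      _ = _ := h4
      _ ≤ W * (X ^ 2 / 2 + M * X) := ineq1 hW0 (by linarith) (h7.trans h8)
  have htot : W * (X - 1) ^ 2 ≤ #(Fintype.piFinset S) := by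
    rw [hprod, ← hW, mul_comm]
    apply mul_le_mul_of_nonneg_right _ hW0
    rw [pow_two]
    exact mul_le_mul (hSlow i) (hSlow j) (by linarith) (Nat.cast_nonneg _)
  have hsplit : (#(Fintype.piFinset S) : ℝ) =
      #((Fintype.piFinset S).filter (fun v => IsCoprime (v i) (v j))) +
      #((Fintype.piFinset S).filter (fun v => ¬ IsCoprime (v i) (v j))) := by
    exact_mod_cast (card_filter_add_card_filter_not (s := Fintype.piFinset S) (fun v => IsCoprime (v i) (v j))).symm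
  have hgood : W * (X ^ 2 / 4) ≤ #((Fintype.piFinset S).filter (fun v => IsCoprime (v i) (v j))) := by
    have h1 : W * (X ^ 2 / 4) ≤ W * (X - 1) ^ 2 - W * (X ^ 2 / 2 + M * X) := ineq3 hW0 hMR hXM
    linarith
  refine le_trans ?_ hgood
  have hXX : (2 * B + 1 : ℝ) / (2 * M) = X / 2 := by
    rw [hX, div_div, mul_comm (2 : ℝ) (M : ℝ)]
  rw [hXX]
  have hcardn : #((univ.erase i).erase j) = n - 2 := by
    rw [card_erase_of_mem (mem_erase.2 ⟨hij.symm, mem_univ j⟩), card_erase_of_mem (mem_univ i), card_univ,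
      Fintype.card_fin]
    omega
  have hn2 : 2 ≤ n := by
    have h1 := i.2
    have h2 := j.2
    by_contra hlt
    apply hij
    apply Fin.ext
    omega
  have hWlow : (X / 2) ^ (n - 2) ≤ W := by
    rw [hW, ← hcardn, ← prod_const]
    apply prod_le_prod
    · intro l _
      positivity
    · intro l _
      have := hSlow l
      linarith
  calc (X / 2) ^ n = (X / 2) ^ (n - 2) * (X ^ 2 / 4) := by
        have : n = n - 2 + 2 := by omega
        conv_lhs => rw [this, pow_add]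
        ring
    _ ≤ W * (X ^ 2 / 4) := mul_le_mul_of_nonneg_right hWlow (by positivity)

end Pool.Agent.H864.Count
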