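import Pool.Agent.H864.GenMain

set_option autoImplicit false

/-! The dynamical Mordell-Lang property for orbits which are étale modulo one place. -/

namespace Pool.Agent.H864.Pad

open Pool.Agent.H936R2 MvPolynomial Pool.Agent.H864.BS

/-- **One étale place is enough.** -/
theorem dml_of_embedding {σ : Type} [Fintype σ] [DecidableEq σ] {p : ℕ} [hp : Fact p.Prime]
    (Φ : σ → MvPolynomial σ ℂ) (α : σ → ℂ) (τ : ℂ →+* PadicAlgCl p)
    (hΦ : ∀ i m, ‖τ ((Φ i).coeff m)‖ ≤ 1) (hα : ∀ i, ‖τ (α i)‖ ≤ 1) (N₀ : ℕ)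
    (hdet : ∀ n, N₀ ≤ n → ‖τ ((jac Φ ((pt Φ)^[n] α)).det)‖ = 1) :
    ∃ L : ℕ, 0 < L ∧ ∀ S : Set (MvPolynomial σ ℂ), ∃ T : Finset (ℕ × ℕ),
      (∀ q ∈ T, q.2 = 0 ∨ q.2 = L) ∧
      {n : ℕ | ∀ g ∈ S, eval ((pt Φ)^[n] α) g = 0} = {n | ∃ q ∈ T, ∃ m, n = q.1 + q.2 * m} := by
  classical
  let R : Subring ℂ := (unitBall (PadicAlgCl p)).comap τ
  have hR : ∀ x : ℂ, x ∈ R ↔ ‖τ x‖ ≤ 1 := fun x => Iff.rfl
  let ρ : R →+* unitBall (PadicAlgCl p) := (τ.comp R.subtype).codRestrict _ fun x => x.2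
  choose fR hfR using fun i => exists_lift R.subtype (Φ i) fun m => ⟨⟨_, hΦ i m⟩, rfl⟩
  let fO : σ → MvPolynomial σ (unitBall (PadicAlgCl p)) := fun i => map ρ (fR i)
  let b₀ : σ → unitBall (PadicAlgCl p) := fun i => ⟨τ (α i), hα i⟩
  have hfO : (fun i => map (unitBall (PadicAlgCl p)).subtype (fO i)) = fun i => map τ (Φ i) := by
    funext i
    show map (unitBall (PadicAlgCl p)).subtype (map ρ (fR i)) = _
    rw [MvPolynomial.map_map]
    have h3 : (unitBall (PadicAlgCl p)).subtype.comp ρ = τ.comp R.subtype := rfl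
    rw [h3, ← MvPolynomial.map_map, hfR]
  have hz : ∀ n, (fun i => (((pt fO)^[n] b₀ i : unitBall (PadicAlgCl p)) : PadicAlgCl p)) =
      fun i => τ ((pt Φ)^[n] α i) := by
    intro n
    have h1 : (fun i => (((pt fO)^[n] b₀ i : unitBall (PadicAlgCl p)) : PadicAlgCl p)) =
        (pt fun i => map (unitBall (PadicAlgCl p)).subtype (fO i))^[n] (fun i => τ (α i)) :=
      (pt_map (unitBall (PadicAlgCl p)).subtype fO b₀ n).symm
    rw [h1, hfO, pt_map]
  have hdet' : ∀ n, N₀ ≤ n → IsUnit (jac fO ((pt fO)^[n] b₀)).det := by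
    intro n hn
    rw [unitBall_isUnit_iff]
    have h1 : (((jac fO ((pt fO)^[n] b₀)).det : unitBall (PadicAlgCl p)) : PadicAlgCl p) =
        τ ((jac Φ ((pt Φ)^[n] α)).det) := by
      have h2 := RingHom.map_det (unitBall (PadicAlgCl p)).subtype (jac fO ((pt fO)^[n] b₀))
      rw [← jac_map, hfO] at h2
      have h3 := RingHom.map_det τ (jac Φ ((pt Φ)^[n] α))
      rw [← jac_map] at h3
      rw [h3, ← hz]
      exact h2
    rw [h1]
    exact hdet n hn
  obtain ⟨n0, L, hL, hret⟩ := return_set p fO b₀ N₀ hdet'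
  refine ⟨L, hL, fun S => ?_⟩
  apply exists_progressions' _ n0 L hL
  intro r' hinf t'
  have hkey : ∀ n, (∀ g ∈ S, eval ((pt Φ)^[n] α) g = 0) ↔
      ∀ P ∈ (map τ : MvPolynomial σ ℂ →+* MvPolynomial σ (PadicAlgCl p)) '' S,
        eval (fun i => (((pt fO)^[n] b₀ i : unitBall (PadicAlgCl p)) : PadicAlgCl p)) P = 0 := by
    intro n
    rw [hz, Set.forall_mem_image]
    constructor
    · intro h g hg
      rw [eval_map', h g hg, map_zero]
    · intro h g hg
      have := h hg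
      rw [eval_map'] at this
      exact (map_eq_zero τ).1 this
  simp only [Set.mem_ofPred_eq, hkey] at hinf ⊢
  exact hret _ r' hinf t'

end Pool.Agent.H864.Pad
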