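import Pool.Agent.H864.GenMain
import Pool.Graph.R_seed8.W401.Cheb.Main

set_option autoImplicit false

/-! Embeddings of the complex numbers in the algebraic closure of `ℚ_p` with a given Frobenius
element. -/

namespace Pool.Agent.H864.Frob

open NumberField Pool.Agent.H936R2 Pool.Agent.H864.Pad Pool.Agent.Y199.DM

section norms

variable {p : ℕ} [hp : Fact p.Prime]

theorem norm_int_le (z : ℤ) : ‖(z : PadicAlgCl p)‖ ≤ 1 := by
  rw [norm_int]
  exact Padic.norm_int_le_one z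

theorem norm_le_one_of_isIntegral {z : PadicAlgCl p} (hz : IsIntegral ℤ z) : ‖z‖ ≤ 1 := by
  obtain ⟨P, hP, h0⟩ := hz
  refine norm_le_one_of_root (P.map (Int.castRingHom _)) (hP.map _) (fun i => ?_) z ?_
  · rw [Polynomial.coeff_map]
    exact norm_int_le _
  · rw [Polynomial.eval_map]
    exact h0

theorem norm_nat_eq_one {D : ℕ} (h0 : 0 < D) (h : D < p) : ‖(D : PadicAlgCl p)‖ = 1 := by
  have h1 : ‖((D : ℤ) : PadicAlgCl p)‖ ≤ 1 := norm_int_le _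
  have h2 : ¬ ‖((D : ℤ) : PadicAlgCl p)‖ < 1 := by
    intro hlt
    have := dvd_of_norm_lt hlt
    have h3 := Int.natCast_dvd_natCast.1 this
    exact absurd (Nat.le_of_dvd h0 h3) (by omega)
  push_cast at h1 h2
  exact le_antisymm h1 (not_lt.1 h2)

theorem norm_fermat (D : ℕ) : ‖(D : PadicAlgCl p) ^ p - D‖ < 1 := by
  have h1 : ((D : PadicAlgCl p) ^ p - D) = (((D : ℤ) ^ p - D : ℤ) : PadicAlgCl p) := by
    push_cast
    ring
  rw [h1]
  apply norm_lt_of_dvd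
  rw [← ZMod.intCast_zmod_eq_zero_iff_dvd]
  push_cast
  rw [ZMod.pow_card, sub_self]

theorem norm_sub_lt {a b : PadicAlgCl p} (ha : ‖a‖ < 1) (hb : ‖b‖ < 1) : ‖a - b‖ < 1 := by
  rw [sub_eq_add_neg]
  refine (IsUltrametricDist.norm_add_le_max _ _).trans_lt (max_lt ha ?_)
  rwa [norm_neg]

theorem norm_add_lt' {a b : PadicAlgCl p} (ha : ‖a‖ < 1) (hb : ‖b‖ < 1) : ‖a + b‖ < 1 :=
  (IsUltrametricDist.norm_add_le_max _ _).trans_lt (max_lt ha hb)

end norms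

theorem exists_den (L : Type) [Field L] [NumberField L] (x : L) :
    ∃ D : ℕ, 0 < D ∧ IsIntegral ℤ ((D : L) * x) := by
  obtain ⟨y, hy0, hy⟩ := exists_integral_multiples ℤ ℚ ({x} : Finset L)
  refine ⟨y.natAbs, Int.natAbs_pos.2 hy0, ?_⟩
  have h1 := hy x (Finset.mem_singleton_self x)
  have h3 : (y.natAbs : L) = ((y.natAbs : ℤ) : L) := by rw [Int.cast_natCast]
  rcases Int.natAbs_eq y with h | h
  · have h2 : (y.natAbs : L) * x = y • x := by
      rw [zsmul_eq_mul, h3, ← h]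
    rw [h2]
    exact h1
  · have h2 : (y.natAbs : L) * x = -(y • x) := by
      have h4 : (y : L) = -((y.natAbs : ℤ) : L) := by
        rw [← Int.cast_neg, ← h]
      rw [zsmul_eq_mul, h3, h4]
      ring
    rw [h2]
    exact h1.neg

/-- **Embeddings with a given Frobenius element.** -/
theorem exists_frob_embedding (L : IntermediateField ℚ ℂ) [FiniteDimensional ℚ L] [IsGalois ℚ L]
    (g : Gal(L/ℚ)) (s : Finset ℂ) (T : Finset L) (B : ℕ) :
    ∃ (p : ℕ) (_ : Fact p.Prime), B < p ∧ ∃ τ : ℂ →+* PadicAlgCl p, (∀ x ∈ s, ‖τ x‖ ≤ 1) ∧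
      ∀ x ∈ T, ‖τ (x : ℂ)‖ ≤ 1 ∧ ‖τ ((g x : L) : ℂ) - τ (x : ℂ) ^ p‖ < 1 := by
  classical
  have hNF : NumberField L := { to_charZero := inferInstance, to_finiteDimensional := inferInstance }
  choose D hD0 hDx using exists_den L
  obtain ⟨m, y, hy, -, N, hN⟩ := exists_noether s
  obtain ⟨p, ⟨hpp, hxp⟩, hlt⟩ := (Pool.Agent.W401.Cheb.infinite_frob L g).exists_gt (B + N + T.sup D)
  haveI hp : Fact p.Prime := ⟨hpp⟩
  have hφex : Nonempty {φ : 𝓞 L →+* AlgebraicClosure (ZMod p) // Pool.Agent.W401.Cheb.HasFrob p φ g} := by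
    unfold Pool.Agent.W401.Cheb.xp at hxp
    rw [dif_pos hpp] at hxp
    exact (Nat.card_ne_zero.1 hxp).1
  obtain ⟨φ, hφ⟩ := hφex
  obtain ⟨τ₀, -, -⟩ := emb_alg_indep p y hy 0 isIntegral_zero 0 (by rw [minpoly.zero]; simp)
  let j : 𝓞 L →+* ℂ := (algebraMap L ℂ).comp (algebraMap (𝓞 L) L)
  have hj : ∀ x : 𝓞 L, ‖τ₀ (j x)‖ ≤ 1 := fun x =>
    norm_le_one_of_isIntegral ((RingOfIntegers.isIntegral x).map (τ₀.comp j).toIntAlgHom)
  let ψ : 𝓞 L →+* unitBall (PadicAlgCl p) := (τ₀.comp j).codRestrict _ hj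
  let P := RingHom.ker φ
  let P₀ := RingHom.ker ((res (PadicAlgCl p)).comp ψ)
  have hPp : (p : 𝓞 L) ∈ P := by
    show φ (p : 𝓞 L) = 0
    rw [map_natCast, CharP.cast_eq_zero]
  have hP₀mem : ∀ x, x ∈ P₀ ↔ ‖τ₀ (j x)‖ < 1 := fun x => by
    show res (PadicAlgCl p) (ψ x) = 0 ↔ _
    rw [res_eq_zero_iff]
    rfl
  have hP₀p : (p : 𝓞 L) ∈ P₀ := by
    rw [hP₀mem, map_natCast, map_natCast]
    exact norm_p_lt_one p
  have hPprime : P.IsPrime := RingHom.ker_isPrime φ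
  have hP₀prime : P₀.IsPrime := RingHom.ker_isPrime _
  have hunder : ∀ Q : Ideal (𝓞 L), Q.IsPrime → (p : 𝓞 L) ∈ Q → Ideal.span {(p : ℤ)} = Q.under ℤ := by
    intro Q hQ hpQ
    have hmax : (Ideal.span {(p : ℤ)}).IsMaximal :=
      PrincipalIdealRing.isMaximal_of_irreducible (Nat.prime_iff_prime_int.1 hpp).irreducible
    apply hmax.eq_of_le
    · have : (Q.under ℤ).IsPrime := Ideal.IsPrime.under ℤ Q
      exact this.ne_top
    · rw [Ideal.span_singleton_le_iff_mem, Ideal.under_def, Ideal.mem_comap]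
      simpa using hpQ
  obtain ⟨h, hh⟩ := Algebra.IsInvariant.exists_smul_of_under_eq ℤ (𝓞 L) Gal(L/ℚ) P₀ P
    ((hunder P₀ hP₀prime hP₀p).symm.trans (hunder P hPprime hPp))
  obtain ⟨θ, hθ⟩ := Field.exists_primitive_element ℚ L
  have hθint : IsIntegral ℚ ((θ : L) : ℂ) := (Algebra.IsIntegral.isIntegral (R := ℚ) θ).map L.val
  obtain ⟨τ, hτy, hτθ⟩ := emb_alg_indep p y hy ((θ : L) : ℂ) hθint (τ₀ ((h⁻¹ θ : L) : ℂ)) (by
    have h1 : minpoly ℚ ((θ : L) : ℂ) = minpoly ℚ θ := by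
      exact minpoly.algebraMap_eq (algebraMap L ℂ).injective θ
    rw [h1]
    have h2 : Polynomial.aeval (h⁻¹ θ) (minpoly ℚ θ) = 0 := by
      rw [Polynomial.aeval_algHom_apply (h⁻¹ : Gal(L/ℚ)) θ, minpoly.aeval, map_zero]
    have h3 := congrArg (τ₀.comp (algebraMap L ℂ)).toRatAlgHom h2
    rw [← Polynomial.aeval_algHom_apply, map_zero] at h3
    exact h3)
  -- the two embeddings of `L`
  have heq : ∀ x : L, τ (x : ℂ) = τ₀ ((h⁻¹ x : L) : ℂ) := by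
    have h1 : (τ.comp (algebraMap L ℂ)).toRatAlgHom =
        ((τ₀.comp (algebraMap L ℂ)).toRatAlgHom).comp ((h⁻¹ : Gal(L/ℚ)) : L →ₐ[ℚ] L) := by
      have htop : Algebra.adjoin ℚ {θ} = ⊤ := by
        have h2 := IntermediateField.adjoin_simple_toSubalgebra_of_isAlgebraic
          (Algebra.IsIntegral.isIntegral (R := ℚ) θ).isAlgebraic
        rw [← h2, hθ]
        rfl
      apply AlgHom.ext_of_adjoin_eq_top htop
      intro x hx
      rw [Set.mem_singleton_iff] at hx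
      rw [hx]
      exact hτθ
    intro x
    exact congrArg (fun f : L →ₐ[ℚ] PadicAlgCl p => f x) h1
  refine ⟨p, hp, by omega, τ, fun x hx => hN p (by omega) τ hτy x hx, fun x hx => ?_⟩
  have hDp : D x < p := by
    have := Finset.le_sup (f := D) hx
    omega
  have hDn : ‖(D x : PadicAlgCl p)‖ = 1 := norm_nat_eq_one (hD0 x) hDp
  let Xx : 𝓞 L := ⟨(D x : L) * x, hDx x⟩
  have hX : ((Xx : 𝓞 L) : L) = (D x : L) * x := rfl
  have hmem : g • Xx - Xx ^ p ∈ P := by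
    show φ (g • Xx - Xx ^ p) = 0
    rw [map_sub, map_pow, hφ, sub_self]
  have hmem2 : h⁻¹ • (g • Xx - Xx ^ p) ∈ P₀ := by
    rw [hh] at hmem
    exact Ideal.mem_pointwise_smul_iff_inv_smul_mem.1 hmem
  have hXτ : ∀ z : 𝓞 L, τ₀ (j (h⁻¹ • z)) = τ (((z : 𝓞 L) : L) : ℂ) := by
    intro z
    rw [heq]
    rfl
  rw [hP₀mem, hXτ] at hmem2
  have e1 : (((g • Xx - Xx ^ p : 𝓞 L) : L) : ℂ) = (D x : ℂ) * ((g x : L) : ℂ) - ((D x : ℂ) * (x : ℂ)) ^ p := by
    have e2 : ((g • Xx - Xx ^ p : 𝓞 L) : L) = g ((D x : L) * x) - ((D x : L) * x) ^ p := rfl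
    rw [e2, map_mul, map_natCast]
    push_cast
    rfl
  rw [e1, map_sub, map_mul, map_pow, map_mul, map_natCast] at hmem2
  have hx1 : ‖τ (x : ℂ)‖ ≤ 1 := by
    have h1 : ‖τ₀ (j (h⁻¹ • Xx))‖ ≤ 1 := hj _
    rw [hXτ, hX] at h1
    push_cast at h1
    rw [map_mul, map_natCast, norm_mul, hDn, one_mul] at h1
    exact h1
  refine ⟨hx1, ?_⟩
  have e3 : (D x : PadicAlgCl p) * (τ ((g x : L) : ℂ) - τ (x : ℂ) ^ p) =
      ((D x : PadicAlgCl p) * τ ((g x : L) : ℂ) - ((D x : PadicAlgCl p) * τ (x : ℂ)) ^ p) +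
        ((D x : PadicAlgCl p) ^ p - D x) * τ (x : ℂ) ^ p := by
    ring
  have e4 : ‖(D x : PadicAlgCl p) * (τ ((g x : L) : ℂ) - τ (x : ℂ) ^ p)‖ < 1 := by
    rw [e3]
    apply norm_add_lt' hmem2
    rw [norm_mul, norm_pow]
    calc _ ≤ ‖(D x : PadicAlgCl p) ^ p - D x‖ * 1 :=
          mul_le_mul_of_nonneg_left (pow_le_one₀ (norm_nonneg _) hx1) (norm_nonneg _)
      _ < 1 := by rw [mul_one]; exact norm_fermat _
  rwa [norm_mul, hDn, one_mul] at e4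

end Pool.Agent.H864.Frob
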