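import Pool.Agent.H864.Pad

set_option autoImplicit false

/-! Embeddings near given points over a field of definition, and the transfer of return sets. -/

namespace Pool.Agent.H864.Pad

open Pool.Agent.H936R2 MvPolynomial

/-- Affine changes of algebraically independent elements. -/
theorem indep_affine {F ι M : Type} [Field F] [Field M] [Algebra F M] {x : ι → M}
    (hx : AlgebraicIndependent F x) (a : F) (ha : a ≠ 0) (w : ι → M)
    (hw : ∀ i, IsAlgebraic F (w i)) :
    AlgebraicIndependent F (fun i => w i + algebraMap F M a * x i) := by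
  let A := algebraicClosure F M
  have h1 : AlgebraicIndependent A x := hx.algebraicClosure
  let w' : ι → A := fun i => ⟨w i, mem_algebraicClosure_iff.2 (hw i)⟩
  let a' : A := algebraMap F A a
  have ha' : a' ≠ 0 := by
    intro h
    apply ha
    apply (algebraMap F A).injective
    rw [map_zero]
    exact h
  have h2 : AlgebraicIndependent A (fun i => w i + algebraMap F M a * x i) := by
    rw [algebraicIndependent_iff_injective_aeval] at h1 ⊢
    have h3 : (MvPolynomial.aeval (fun i => w i + algebraMap F M a * x i) : MvPolynomial ι A →ₐ[A] M) =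
        (MvPolynomial.aeval x).comp
          (MvPolynomial.aeval (fun i => C (w' i) + C a' * X i)) := by
      apply MvPolynomial.algHom_ext
      intro i
      simp only [MvPolynomial.aeval_X, AlgHom.comp_apply, map_add, map_mul, MvPolynomial.aeval_C]
      rfl
    rw [h3, AlgHom.coe_comp]
    refine h1.comp ?_
    apply Function.LeftInverse.injective
      (g := (MvPolynomial.aeval (fun i => C a'⁻¹ * (X i - C (w' i))) :
        MvPolynomial ι A →ₐ[A] MvPolynomial ι A))
    intro f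
    have h4 : ((MvPolynomial.aeval (fun i => C a'⁻¹ * (X i - C (w' i)))).comp
        (MvPolynomial.aeval (fun i => C (w' i) + C a' * X i)) :
          MvPolynomial ι A →ₐ[A] MvPolynomial ι A) = AlgHom.id A _ := by
      apply MvPolynomial.algHom_ext
      intro i
      simp only [AlgHom.comp_apply, MvPolynomial.aeval_X, map_add, map_mul, MvPolynomial.aeval_C,
        AlgHom.id_apply, MvPolynomial.algebraMap_eq]
      rw [← mul_assoc, ← C_mul, mul_inv_cancel₀ ha', C_1]
      ring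
    exact DFunLike.congr_fun h4 f
  exact h2.restrictScalars (algebraMap F A).injective

variable {p : ℕ} [hp : Fact p.Prime]

/-- An embedding of `ℂ` can be changed outside a field `K₀` such that given numbers which are
algebraically independent over `K₀` are mapped near to given algebraic elements. -/
theorem emb_near_over (K₀ : Subfield ℂ) (τ₀ : ℂ →+* PadicAlgCl p) {σ : Type} [Fintype σ]
    (α : σ → ℂ) (hα : AlgebraicIndependent K₀ α) (ω : σ → PadicAlgCl p)
    (hω : ∀ j, IsAlgebraic ℚ (ω j)) :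
    ∃ τ : ℂ →+* PadicAlgCl p, (∀ x ∈ K₀, τ x = τ₀ x) ∧ ∀ j, ‖τ (α j) - ω j‖ < 1 := by
  classical
  have hp1 : ‖((p : ℕ) : PadicAlgCl p)‖ < 1 := norm_p_lt_one p
  obtain ⟨N, hN⟩ : ∃ N : ℕ, ∀ j, ‖((p : ℕ) : PadicAlgCl p) ^ N * τ₀ (α j)‖ < 1 := by
    have hB : ∃ B : ℝ, 1 ≤ B ∧ ∀ j, ‖τ₀ (α j)‖ ≤ B := by
      refine ⟨1 + ∑ j, ‖τ₀ (α j)‖, ?_, fun j => ?_⟩
      · have : 0 ≤ ∑ j, ‖τ₀ (α j)‖ := Finset.sum_nonneg fun _ _ => norm_nonneg _
        linarith
      · have := Finset.single_le_sum (f := fun j => ‖τ₀ (α j)‖) (fun _ _ => norm_nonneg _)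
          (Finset.mem_univ j)
        linarith
    obtain ⟨B, hB1, hB⟩ := hB
    obtain ⟨N, hN⟩ := exists_pow_lt_of_lt_one (show (0 : ℝ) < 1 / B by positivity) hp1
    refine ⟨N, fun j => ?_⟩
    rw [norm_mul, norm_pow]
    calc ‖((p : ℕ) : PadicAlgCl p)‖ ^ N * ‖τ₀ (α j)‖ ≤
          ‖((p : ℕ) : PadicAlgCl p)‖ ^ N * B :=
          mul_le_mul_of_nonneg_left (hB j) (by positivity)
      _ < (1 / B) * B := mul_lt_mul_of_pos_right hN (by positivity)
      _ = 1 := by field_simp
  letI : Algebra K₀ (PadicAlgCl p) := (τ₀.comp K₀.subtype).toAlgebra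
  have halgmap : ∀ x : K₀, algebraMap K₀ (PadicAlgCl p) x = τ₀ x := fun x => rfl
  let σ₀ : ℂ →ₐ[K₀] PadicAlgCl p := { τ₀ with commutes' := fun x => rfl }
  obtain ⟨s, hs0, hs⟩ := exists_isTranscendenceBasis_superset (R := K₀) (s := Set.range α)
    hα.to_subtype_range
  have hw0 : AlgebraicIndependent K₀ (fun b : s => σ₀ (b : ℂ)) :=
    hs.1.map' (f := σ₀) τ₀.injective
  let w' : s → PadicAlgCl p := fun b => if h : ∃ j, α j = b then ω h.choose else 0
  have hw' : ∀ b, IsAlgebraic K₀ (w' b) := by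
    intro b
    by_cases h : ∃ j, α j = b
    · simp only [w', dif_pos h]
      obtain ⟨q, hq0, hq⟩ := hω h.choose
      refine ⟨q.map (algebraMap ℚ K₀), (Polynomial.map_ne_zero_iff (algebraMap ℚ K₀).injective).2 hq0, ?_⟩
      rw [Polynomial.aeval_def, Polynomial.eval₂_map]
      rw [Polynomial.aeval_def] at hq
      rw [show (algebraMap K₀ (PadicAlgCl p)).comp (algebraMap ℚ K₀) =
        algebraMap ℚ (PadicAlgCl p) from Subsingleton.elim _ _]
      exact hq
    · simp only [w', dif_neg h]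
      exact isAlgebraic_zero
  have hw : AlgebraicIndependent K₀
      (fun b : s => w' b + algebraMap K₀ (PadicAlgCl p) ((p : K₀) ^ N) * σ₀ (b : ℂ)) :=
    indep_affine hw0 _ (pow_ne_zero _ (by exact_mod_cast hp.out.ne_zero)) w' hw'
  let A := Algebra.adjoin K₀ (Set.range ((↑) : s → ℂ))
  let ψ : A →ₐ[K₀] PadicAlgCl p := (MvPolynomial.aeval
    (fun b : s => w' b + algebraMap K₀ (PadicAlgCl p) ((p : K₀) ^ N) * σ₀ (b : ℂ))).comp
    (hs.1.aevalEquiv.symm : A →ₐ[K₀] MvPolynomial s K₀)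
  have hψ : Function.Injective ψ := by
    rw [algebraicIndependent_iff_injective_aeval] at hw
    exact hw.comp hs.1.aevalEquiv.symm.injective
  let _ : Algebra A (PadicAlgCl p) := ψ.toRingHom.toAlgebra
  have hf : FaithfulSMul A (PadicAlgCl p) :=
    (faithfulSMul_iff_algebraMap_injective A (PadicAlgCl p)).2 hψ
  have halg : Algebra.IsAlgebraic A ℂ := hs.isAlgebraic
  let τ : ℂ →ₐ[A] PadicAlgCl p := IsAlgClosed.lift
  refine ⟨τ.toRingHom, fun x hx => ?_, fun j => ?_⟩
  · have e1 := τ.commutes (algebraMap K₀ A ⟨x, hx⟩)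
    have e2 : algebraMap A ℂ (algebraMap K₀ A ⟨x, hx⟩) = x := rfl
    rw [e2] at e1
    have e3 : algebraMap A (PadicAlgCl p) (algebraMap K₀ A ⟨x, hx⟩) = τ₀ x := ψ.commutes ⟨x, hx⟩
    rw [e3] at e1
    exact e1
  have hmem : α j ∈ s := hs0 ⟨j, rfl⟩
  have e0 : ((hs.1.aevalEquiv (MvPolynomial.X (⟨α j, hmem⟩ : s)) : A) : ℂ) = α j := by
    simp
  have e1 : algebraMap A ℂ (hs.1.aevalEquiv (MvPolynomial.X (⟨α j, hmem⟩ : s))) = α j := e0
  have e2 : τ (α j) = ψ (hs.1.aevalEquiv (MvPolynomial.X (⟨α j, hmem⟩ : s))) :=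
    (congrArg τ e1).symm.trans (τ.commutes _)
  have e3 : ψ (hs.1.aevalEquiv (MvPolynomial.X (⟨α j, hmem⟩ : s))) =
      w' ⟨α j, hmem⟩ + algebraMap K₀ (PadicAlgCl p) ((p : K₀) ^ N) * σ₀ (α j) := by
    change (MvPolynomial.aeval
      (fun b : s => w' b + algebraMap K₀ (PadicAlgCl p) ((p : K₀) ^ N) * σ₀ (b : ℂ)))
        (hs.1.aevalEquiv.symm (hs.1.aevalEquiv (MvPolynomial.X (⟨α j, hmem⟩ : s)))) = _
    rw [AlgEquiv.symm_apply_apply, MvPolynomial.aeval_X]
  have e5 : w' ⟨α j, hmem⟩ = ω j := by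
    have h : ∃ j', α j' = ((⟨α j, hmem⟩ : s) : ℂ) := ⟨j, rfl⟩
    simp only [w', dif_pos h]
    exact congrArg ω (hα.injective h.choose_spec)
  change ‖τ (α j) - ω j‖ < 1
  rw [e2, e3, e5]
  have e4 : algebraMap K₀ (PadicAlgCl p) ((p : K₀) ^ N) = ((p : ℕ) : PadicAlgCl p) ^ N := by
    rw [map_pow, map_natCast]
  rw [e4, add_sub_cancel_left]
  exact hN j

section transfer

variable {σ : Type}

/-- **Transfer of the equations.** -/
theorem transfer {E : Type} [Field E] (ε : E →+* ℂ) (δ : E →+* PadicAlgCl p)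
    (S : Set (MvPolynomial σ ℂ)) :
    ∃ S' : Set (MvPolynomial σ (PadicAlgCl p)), ∀ z : σ → E,
      (∀ g ∈ S, eval (fun i => ε (z i)) g = 0) ↔ ∀ P ∈ S', eval (fun i => δ (z i)) P = 0 := by
  classical
  letI : Algebra E ℂ := ε.toAlgebra
  let cm : (ℂ →ₗ[E] E) → MvPolynomial σ ℂ → MvPolynomial σ E := fun lam f =>
    ∑ κ ∈ f.support, monomial κ (lam (f.coeff κ))
  have hcm : ∀ (lam : ℂ →ₗ[E] E) (f : MvPolynomial σ ℂ) (x : σ → E),
      eval x (cm lam f) = lam (eval (fun i => ε (x i)) f) := by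
    intro lam f x
    simp only [cm]
    rw [map_sum, eval_eq, map_sum]
    apply Finset.sum_congr rfl
    intro κ _
    rw [eval_monomial]
    have h1 : f.coeff κ * ∏ i ∈ κ.support, ε (x i) ^ κ i =
        (∏ i ∈ κ.support, x i ^ κ i) • f.coeff κ := by
      rw [Algebra.smul_def, map_prod, mul_comm]
      simp only [map_pow]
      rfl
    rw [h1, map_smul, smul_eq_mul, mul_comm]
    rfl
  refine ⟨{P | ∃ f ∈ S, ∃ lam : ℂ →ₗ[E] E, P = map δ (cm lam f)}, fun z => ?_⟩
  have hval : ∀ (lam : ℂ →ₗ[E] E) (f : MvPolynomial σ ℂ),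
      (eval (fun i => δ (z i)) (map δ (cm lam f)) = 0 ↔ lam (eval (fun i => ε (z i)) f) = 0) := by
    intro lam f
    have e1 : eval (fun i => δ (z i)) (map δ (cm lam f)) = δ (eval z (cm lam f)) := by
      rw [eval_map]
      have h := eval₂_comp_left δ (RingHom.id _) z (cm lam f)
      rw [RingHom.comp_id] at h
      exact h.symm
    rw [e1, map_eq_zero, hcm]
  constructor
  · rintro h P ⟨f, hf, lam, rfl⟩
    rw [hval, h f hf, map_zero]
  · intro h f hf
    rw [← Module.forall_dual_apply_eq_zero_iff E]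
    intro lam
    rw [← hval]
    exact h _ ⟨f, hf, lam, rfl⟩

end transfer

/-- Combinatorial packaging. -/
lemma exists_progressions' (Z : Set ℕ) (n0 k : ℕ) (hk : 0 < k)
    (h : ∀ r, {t : ℕ | n0 + r + k * t ∈ Z}.Infinite → ∀ t, n0 + r + k * t ∈ Z) :
    ∃ T : Finset (ℕ × ℕ), (∀ q ∈ T, q.2 = 0 ∨ q.2 = k) ∧
      Z = {n : ℕ | ∃ q ∈ T, ∃ m : ℕ, n = q.1 + q.2 * m} := by
  classical
  let G : Finset ℕ := (Finset.range k).filter fun r => {t : ℕ | n0 + r + k * t ∈ Z}.Infinite
  have hfin : {n ∈ Z | n < n0 ∨ ∃ r < k, r ∉ G ∧ ∃ t, n = n0 + r + k * t}.Finite := by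
    have h1 : {n ∈ Z | n < n0 ∨ ∃ r < k, r ∉ G ∧ ∃ t, n = n0 + r + k * t} ⊆
        {n | n < n0} ∪ ⋃ r ∈ (Finset.range k).filter (fun r => r ∉ G),
          (fun t => n0 + r + k * t) '' {t : ℕ | n0 + r + k * t ∈ Z} := by
      rintro n ⟨hn, hlt | ⟨r, hr, hrG, t, rfl⟩⟩
      · left; exact hlt
      · right
        rw [Set.mem_iUnion₂]
        refine ⟨r, ?_, t, hn, rfl⟩
        simp [hr, hrG]
    refine Set.Finite.subset ((Set.finite_lt_nat n0).union ?_) h1
    apply Set.Finite.biUnion (Finset.finite_toSet _)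
    intro r hr
    have hr' : r < k ∧ r ∉ G := by simpa using hr
    have : ¬ {t : ℕ | n0 + r + k * t ∈ Z}.Infinite := by
      intro hinf
      apply hr'.2
      simp only [G, Finset.mem_filter, Finset.mem_range]
      exact ⟨hr'.1, hinf⟩
    rw [Set.not_infinite] at this
    exact this.image _
  refine ⟨hfin.toFinset.image (fun n => (n, 0)) ∪ G.image (fun r => (n0 + r, k)), ?_, ?_⟩
  · intro q hq
    rcases Finset.mem_union.1 hq with hq | hq
    · obtain ⟨n, -, rfl⟩ := Finset.mem_image.1 hq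
      left; rfl
    · obtain ⟨n, -, rfl⟩ := Finset.mem_image.1 hq
      right; rfl
  ext n
  simp only [Set.mem_ofPred_eq, Finset.mem_union, Finset.mem_image, Set.Finite.mem_toFinset]
  constructor
  · intro hn
    by_cases hc : n < n0 ∨ ∃ r < k, r ∉ G ∧ ∃ t, n = n0 + r + k * t
    · exact ⟨(n, 0), Or.inl ⟨n, ⟨hn, hc⟩, rfl⟩, 0, by simp⟩
    · push Not at hc
      obtain ⟨h0, h1⟩ := hc
      have hr : (n - n0) % k < k := Nat.mod_lt _ hk
      have hn' : n = n0 + (n - n0) % k + k * ((n - n0) / k) := by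
        have := Nat.mod_add_div (n - n0) k
        omega
      have hG : (n - n0) % k ∈ G := by
        by_contra hG
        exact h1 _ hr hG _ hn'
      exact ⟨(n0 + (n - n0) % k, k), Or.inr ⟨_, hG, rfl⟩, (n - n0) / k, hn'⟩
  · rintro ⟨q, (⟨m, ⟨hm, -⟩, rfl⟩ | ⟨r, hr, rfl⟩), t, rfl⟩
    · simpa using hm
    · simp only
      have hr' : {t : ℕ | n0 + r + k * t ∈ Z}.Infinite := by
        simp only [G, Finset.mem_filter] at hr
        exact hr.2
      exact h r hr' t

end Pool.Agent.H864.Pad
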