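import Pool.Agent.H864.Gen

set_option autoImplicit false

/-! The dynamical Mordell-Lang property at generic points of affine space. -/

namespace Pool.Agent.H864.Pad

open Pool.Agent.H936R2 MvPolynomial Pool.Agent.H864.BS

lemma exists_lift {σ R K : Type} [CommRing R] [CommRing K] (j : R →+* K) (u : MvPolynomial σ K)
    (hu : ∀ m, ∃ r, j r = u.coeff m) : ∃ v : MvPolynomial σ R, map j v = u := by
  classical
  choose c hc using hu
  refine ⟨∑ m ∈ u.support, monomial m (c m), ?_⟩
  rw [map_sum]
  conv_rhs => rw [u.as_sum]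
  apply Finset.sum_congr rfl
  intro m _
  rw [map_monomial, hc]

section jacobian

variable {σ : Type} [Fintype σ] [DecidableEq σ] {R R' : Type} [CommRing R] [CommRing R']

lemma eval_det_jacP (f : σ → MvPolynomial σ R) (x : σ → R) :
    eval x (jacP f).det = (jac f x).det := by
  rw [RingHom.map_det]
  rfl

lemma map_det_jacP (φ : R →+* R') (f : σ → MvPolynomial σ R) :
    map φ (jacP f).det = (jacP fun i => map φ (f i)).det := by
  rw [RingHom.map_det]
  congr 1
  ext i j : 2
  simp only [RingHom.mapMatrix_apply, Matrix.map_apply, jacP, Matrix.of_apply]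
  rw [pderiv_map]

omit [Fintype σ] [DecidableEq σ] in
lemma eval_map' (φ : R →+* R') (x : σ → R) (u : MvPolynomial σ R) :
    eval (fun i => φ (x i)) (map φ u) = φ (eval x u) := by
  rw [eval_map]
  have h := eval₂_comp_left φ (RingHom.id _) x u
  rw [RingHom.comp_id] at h
  exact h.symm

omit [Fintype σ] [DecidableEq σ] in
lemma eval_it' (f : σ → MvPolynomial σ R) (x : σ → R) (n : ℕ) (i : σ) :
    eval x (it f n i) = (pt f)^[n] x i := eval_it f x n i

end jacobian

/-- An orbit of quasi-fixed points. -/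
lemma quasi_orbit {σ k : Type} [Field k] (p : ℕ) [Fact p.Prime] [CharP k p]
    (f : σ → MvPolynomial σ k) (e : ℕ) (hf : ∀ i, map (iterateFrobenius k p e) (f i) = f i)
    (a : σ → k) (ha : ∀ i, eval a (f i) = a i ^ p ^ e) (n : ℕ) :
    (pt f)^[n] a = fun i => iterateFrobenius k p (e * n) (a i) := by
  induction n with
  | zero => funext i; simp [iterateFrobenius_def]
  | succ n ih =>
    rw [Function.iterate_succ_apply', ih]
    funext i
    have h1 : iterateFrobenius k p (e * n) = (iterateFrobenius k p (e * n)) := rfl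
    have hfix : map (iterateFrobenius k p (e * n)) (f i) = f i := by
      clear ih
      induction n with
      | zero =>
        have h1 : iterateFrobenius k p (e * 0) = RingHom.id k := by
          rw [Nat.mul_zero]
          exact iterateFrobenius_zero k p
        rw [h1, MvPolynomial.map_id]
      | succ n ih =>
        have h1 : iterateFrobenius k p (e * (n + 1)) =
            (iterateFrobenius k p (e * n)).comp (iterateFrobenius k p e) := by
          rw [Nat.mul_add, Nat.mul_one]
          exact iterateFrobenius_add k p (e * n) e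
        rw [h1, ← MvPolynomial.map_map, hf, ih rfl]
    have h2 : pt f (fun i => iterateFrobenius k p (e * n) (a i)) i =
        iterateFrobenius k p (e * n) (eval a (f i)) := by
      show eval _ (f i) = _
      conv_lhs => rw [← hfix]
      rw [eval_map']
    rw [h2, ha]
    rw [Nat.mul_add, Nat.mul_one, iterateFrobenius_add, RingHom.comp_apply, iterateFrobenius_def p e]

/-- **The dynamical Mordell-Lang property at generic points.** -/
theorem generic_dml {σ : Type} [Fintype σ] [DecidableEq σ] (Φ : σ → MvPolynomial σ ℂ)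
    (K : Subfield ℂ) (hΦ : ∀ i m, (Φ i).coeff m ∈ K) :
    ∃ L : ℕ, 0 < L ∧ ∀ α : σ → ℂ, AlgebraicIndependent K α → ∀ S : Set (MvPolynomial σ ℂ),
      ∃ T : Finset (ℕ × ℕ), (∀ q ∈ T, q.2 = 0 ∨ q.2 = L) ∧
        {n : ℕ | ∀ g ∈ S, eval ((pt Φ)^[n] α) g = 0} = {n | ∃ q ∈ T, ∃ m, n = q.1 + q.2 * m} := by
  classical
  by_cases hex : ∃ α : σ → ℂ, AlgebraicIndependent K α
  swap
  · exact ⟨1, one_pos, fun α hα => absurd ⟨α, hα⟩ hex⟩
  obtain ⟨α₀, hα₀⟩ := hex
  have hfex : ∀ i, ∃ f : MvPolynomial σ K, map K.subtype f = Φ i := fun i =>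
    exists_lift K.subtype (Φ i) fun m => ⟨⟨_, hΦ i m⟩, rfl⟩
  choose f hf using hfex
  obtain ⟨M, h, hM, hh, hG⟩ := exists_perturbation f
  set G := bind₁ (it f M) (jacP (fun i => f i + h i)).det with hGdef
  obtain ⟨m₁, hm₁⟩ := MvPolynomial.support_nonempty.2 hG
  rw [MvPolynomial.mem_support_iff] at hm₁
  set c : K := G.coeff m₁ with hc
  -- the finite set of the data
  let s : Finset ℂ := (Finset.univ.biUnion fun i => (f i).support.image fun m => (((f i).coeff m : K) : ℂ)) ∪
    (Finset.univ.biUnion fun i => (h i).support.image fun m => (((h i).coeff m : K) : ℂ)) ∪ {((c⁻¹ : K) : ℂ)}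
  obtain ⟨n₁, y, hy, -, B, hB⟩ := Pool.Agent.Y199.DM.exists_noether s
  obtain ⟨p, hpB, hpp⟩ := Nat.exists_infinite_primes (B + 1)
  have hp : Fact p.Prime := ⟨hpp⟩
  obtain ⟨τ₀, hτ₀y, -⟩ := Pool.Agent.Y199.DM.emb_alg_indep p y hy 0 isIntegral_zero 0 (by
    rw [minpoly.zero]; simp)
  have hτ₀ : ∀ x ∈ s, ‖τ₀ x‖ ≤ 1 := hB p (by omega) τ₀ hτ₀y
  -- the ring of definition
  let R : Subring K := (unitBall (PadicAlgCl p)).comap (τ₀.comp K.subtype)
  have hR : ∀ x : K, x ∈ R ↔ ‖τ₀ x‖ ≤ 1 := fun x => Iff.rfl
  let ρ : R →+* unitBall (PadicAlgCl p) :=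
    ((τ₀.comp K.subtype).comp R.subtype).codRestrict _ fun x => x.2
  have hρ : ∀ x : R, ((ρ x : unitBall (PadicAlgCl p)) : PadicAlgCl p) = τ₀ ((x : K) : ℂ) := fun x => rfl
  have hfR : ∀ i m, (f i).coeff m ∈ R := by
    intro i m
    by_cases hm : m ∈ (f i).support
    · rw [hR]
      apply hτ₀
      apply Finset.mem_union_left
      apply Finset.mem_union_left
      exact Finset.mem_biUnion.2 ⟨i, Finset.mem_univ i, Finset.mem_image.2 ⟨m, hm, rfl⟩⟩
    · rw [MvPolynomial.notMem_support_iff.1 hm]
      exact R.zero_mem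
  have hhR : ∀ i m, (h i).coeff m ∈ R := by
    intro i m
    by_cases hm : m ∈ (h i).support
    · rw [hR]
      apply hτ₀
      apply Finset.mem_union_left
      apply Finset.mem_union_right
      exact Finset.mem_biUnion.2 ⟨i, Finset.mem_univ i, Finset.mem_image.2 ⟨m, hm, rfl⟩⟩
    · rw [MvPolynomial.notMem_support_iff.1 hm]
      exact R.zero_mem
  have hcR : c⁻¹ ∈ R := by
    rw [hR]
    apply hτ₀
    apply Finset.mem_union_right
    exact Finset.mem_singleton_self _
  have hRinj : Function.Injective (map R.subtype : MvPolynomial σ R →+* MvPolynomial σ K) :=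
    map_injective _ Subtype.val_injective
  choose fR hfR' using fun i => exists_lift R.subtype (f i) fun m => ⟨⟨_, hfR i m⟩, rfl⟩
  choose hR' hhR' using fun i => exists_lift R.subtype (h i) fun m => ⟨⟨_, hhR i m⟩, rfl⟩
  have hitR : ∀ n i, map R.subtype (it fR n i) = it f n i := by
    intro n i
    rw [map_it]
    simp only [hfR']
  have hhR0 : ∀ i, bind₁ (it fR M) (hR' i) = 0 := by
    intro i
    apply hRinj
    rw [map_bind₁, map_zero, hhR']
    simp only [hitR]
    exact hh i
  set PR := (jacP (fun i => fR i + hR' i)).det with hPR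
  have hPRmap : map R.subtype PR = (jacP (fun i => f i + h i)).det := by
    rw [hPR, map_det_jacP]
    simp only [map_add, hfR', hhR']
  set GR := bind₁ (it fR M) PR with hGR
  have hGRmap : map R.subtype GR = G := by
    rw [hGR, map_bind₁, hPRmap]
    simp only [hitR]
    rfl
  have hcoef : ((GR.coeff m₁ : R) : K) = c := by
    rw [hc, ← hGRmap, coeff_map]
    rfl
  have hunit : IsUnit (GR.coeff m₁) := by
    refine IsUnit.of_mul_eq_one ⟨c⁻¹, hcR⟩ ?_
    apply Subtype.ext
    show ((GR.coeff m₁ : R) : K) * c⁻¹ = 1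
    rw [hcoef]
    exact mul_inv_cancel₀ hm₁
  -- the reduction
  have := charP_resF (p := p)
  have := isAlgClosed_resF (p := p)
  set ρ' : R →+* ResF (PadicAlgCl p) := (res (PadicAlgCl p)).comp ρ with hρ'
  set fb : σ → MvPolynomial σ (ResF (PadicAlgCl p)) := fun i => map ρ' (fR i) with hfb
  set hb : σ → MvPolynomial σ (ResF (PadicAlgCl p)) := fun i => map ρ' (hR' i) with hhb
  set Pb := (jacP (fun i => fb i + hb i)).det with hPb
  have hPbmap : map ρ' PR = Pb := by
    rw [hPR, map_det_jacP, hPb]
    simp only [map_add, hfb, hhb]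
  have hitb : ∀ n i, map ρ' (it fR n i) = it fb n i := by
    intro n i
    rw [map_it]
  have hGb : bind₁ (it fb M) Pb ≠ 0 := by
    intro h0
    have h1 : map ρ' GR = 0 := by
      rw [hGR, map_bind₁, hPbmap]
      simp only [hitb]
      exact h0
    have h2 : ρ' (GR.coeff m₁) = 0 := by
      rw [← coeff_map, h1, coeff_zero]
    exact (hunit.map ρ').ne_zero h2
  -- a power of Frobenius which fixes everything
  let t : Finset (ResF (PadicAlgCl p)) := (Finset.univ.biUnion fun i => (fb i).support.image fun m => (fb i).coeff m) ∪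
    Pb.support.image fun m => Pb.coeff m
  obtain ⟨r, hr, htr⟩ := exists_frob_fixed_finset t
  have hfixf : ∀ i, map (iterateFrobenius (ResF (PadicAlgCl p)) p r) (fb i) = fb i := by
    intro i
    ext m
    rw [coeff_map, iterateFrobenius_def]
    by_cases hm : m ∈ (fb i).support
    · apply htr
      apply Finset.mem_union_left
      exact Finset.mem_biUnion.2 ⟨i, Finset.mem_univ i, Finset.mem_image.2 ⟨m, hm, rfl⟩⟩
    · rw [MvPolynomial.notMem_support_iff.1 hm, zero_pow (pow_ne_zero _ hpp.ne_zero)]
  have hfixP : map (iterateFrobenius (ResF (PadicAlgCl p)) p r) Pb = Pb := by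
    ext m
    rw [coeff_map, iterateFrobenius_def]
    by_cases hm : m ∈ Pb.support
    · apply htr
      apply Finset.mem_union_right
      exact Finset.mem_image.2 ⟨m, hm, rfl⟩
    · rw [MvPolynomial.notMem_support_iff.1 hm, zero_pow (pow_ne_zero _ hpp.ne_zero)]
  have hpowfix : ∀ (u : MvPolynomial σ (ResF (PadicAlgCl p))),
      map (iterateFrobenius (ResF (PadicAlgCl p)) p r) u = u → ∀ j,
      map (iterateFrobenius (ResF (PadicAlgCl p)) p (r * j)) u = u := by
    intro u hu j
    induction j with
    | zero =>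
      have h1 : iterateFrobenius (ResF (PadicAlgCl p)) p (r * 0) = RingHom.id _ := by
        rw [Nat.mul_zero]
        exact iterateFrobenius_zero _ p
      rw [h1, MvPolynomial.map_id]
    | succ j ih =>
      have h1 : iterateFrobenius (ResF (PadicAlgCl p)) p (r * (j + 1)) =
          (iterateFrobenius (ResF (PadicAlgCl p)) p (r * j)).comp
            (iterateFrobenius (ResF (PadicAlgCl p)) p r) := by
        rw [Nat.mul_add, Nat.mul_one]
        exact iterateFrobenius_add _ p (r * j) r
      rw [h1, ← MvPolynomial.map_map, hu, ih]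
  obtain ⟨m0, hm0⟩ := exists_quasi_fixed p fb M hM Pb hGb r hr hfixf
  obtain ⟨a, ha, haP⟩ := hm0 m0 le_rfl
  set e := r * m0 with he
  have horb : ∀ n, (pt fb)^[n] a = fun i => iterateFrobenius (ResF (PadicAlgCl p)) p (e * n) (a i) :=
    quasi_orbit p fb e (fun i => hpowfix _ (hfixf i) m0) a ha
  -- the determinant does not vanish along the orbit
  have hPa : eval a Pb ≠ 0 := by
    intro h0
    apply haP
    rw [eval_bind]
    have h1 : (fun i => eval a (it fb M i)) = fun i => iterateFrobenius (ResF (PadicAlgCl p)) p (e * M) (a i) := by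
      funext i
      rw [eval_it', horb]
    rw [h1]
    have h2 : map (iterateFrobenius (ResF (PadicAlgCl p)) p (e * M)) Pb = Pb := by
      rw [he, mul_assoc]
      exact hpowfix _ hfixP _
    conv_lhs => rw [← h2]
    rw [eval_map', h0, map_zero]
  have hPorb : ∀ n, eval ((pt fb)^[n] a) Pb ≠ 0 := by
    intro n
    rw [horb]
    have h2 : map (iterateFrobenius (ResF (PadicAlgCl p)) p (e * n)) Pb = Pb := by
      rw [he, mul_assoc]
      exact hpowfix _ hfixP _
    rw [← h2, eval_map']
    intro h0
    exact hPa ((iterateFrobenius (ResF (PadicAlgCl p)) p (e * n)).injective (by rw [h0, map_zero]))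
  -- the p-adic point
  choose ω hω hωalg using fun i => exists_algebraic_lift (a i)
  obtain ⟨τ, hτK, hτω⟩ := emb_near_over K τ₀ α₀ hα₀ (fun i => (ω i : PadicAlgCl p)) hωalg
  have hτint : ∀ i, ‖τ (α₀ i)‖ ≤ 1 := by
    intro i
    have h1 : τ (α₀ i) = (τ (α₀ i) - ω i) + ω i := by ring
    rw [h1]
    exact (IsUltrametricDist.norm_add_le_max _ _).trans (max_le (hτω i).le (unitBall_norm_le _))
  let b₀ : σ → unitBall (PadicAlgCl p) := fun i => ⟨τ (α₀ i), hτint i⟩
  have hb₀ : ∀ i, res (PadicAlgCl p) (b₀ i) = a i := by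
    intro i
    rw [← hω, ← sub_eq_zero, ← map_sub, res_eq_zero_iff]
    exact hτω i
  -- the maps over the unit ball
  let fO : σ → MvPolynomial σ (unitBall (PadicAlgCl p)) := fun i => map ρ (fR i)
  let hO : σ → MvPolynomial σ (unitBall (PadicAlgCl p)) := fun i => map ρ (hR' i)
  let gO : σ → MvPolynomial σ (unitBall (PadicAlgCl p)) := fun i => fO i + hO i
  have hresf : (fun i => map (res (PadicAlgCl p)) (fO i)) = fb := by
    funext i
    show map (res (PadicAlgCl p)) (map ρ (fR i)) = _
    rw [MvPolynomial.map_map]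
  have hresg : (fun i => map (res (PadicAlgCl p)) (gO i)) = fun i => fb i + hb i := by
    funext i
    show map (res (PadicAlgCl p)) (map ρ (fR i) + map ρ (hR' i)) = _
    rw [map_add, MvPolynomial.map_map, MvPolynomial.map_map]
  have hO0 : ∀ (i : σ) (x : σ → unitBall (PadicAlgCl p)), eval ((pt fO)^[M] x) (hO i) = 0 := by
    intro i x
    have h1 : bind₁ (it fO M) (hO i) = 0 := by
      have h2 := congrArg (map ρ) (hhR0 i)
      rw [map_bind₁, map_zero] at h2
      have h3 : (fun j => map ρ (it fR M j)) = it fO M := by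
        funext j
        rw [map_it]
      rw [h3] at h2
      exact h2
    have h2 := congrArg (eval x) h1
    rw [eval_bind, map_zero] at h2
    have h3 : (fun j => eval x (it fO M j)) = (pt fO)^[M] x := by
      funext j
      rw [eval_it']
    rw [h3] at h2
    exact h2
  have hiter : ∀ n, (pt gO)^[n] ((pt fO)^[M] b₀) = (pt fO)^[M + n] b₀ := by
    intro n
    induction n with
    | zero => rfl
    | succ n ih =>
      rw [Function.iterate_succ_apply', ih, ← Nat.add_assoc, Function.iterate_succ_apply']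
      funext i
      show eval _ (fO i + hO i) = eval _ (fO i)
      rw [map_add]
      have h1 : (pt fO)^[M + n] b₀ = (pt fO)^[M] ((pt fO)^[n] b₀) := by
        rw [← Function.iterate_add_apply]
      rw [h1, hO0, add_zero]
  have hdet : ∀ n, 0 ≤ n → IsUnit (jac gO ((pt gO)^[n] ((pt fO)^[M] b₀))).det := by
    intro n _
    apply isUnit_of_res_ne_zero
    rw [hiter, ← eval_det_jacP, ← eval_map' (res (PadicAlgCl p)), map_det_jacP, hresg]
    have h1 : (fun i => res (PadicAlgCl p) ((pt fO)^[M + n] b₀ i)) = (pt fb)^[M + n] a := by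
      rw [← pt_map, hresf]
      congr 1
      funext i
      exact hb₀ i
    rw [h1]
    exact hPorb _
  obtain ⟨n0, L, hL, hret⟩ := return_set p gO ((pt fO)^[M] b₀) 0 hdet
  refine ⟨L, hL, fun α hα S => ?_⟩
  -- the field of the generic point
  let E := FractionRing (MvPolynomial σ K)
  have hεinj : ∀ β : σ → ℂ, AlgebraicIndependent K β →
      Function.Injective (aeval β : MvPolynomial σ K →ₐ[K] ℂ).toRingHom := fun β hβ =>
    algebraicIndependent_iff_injective_aeval.1 hβ
  let ε : E →+* ℂ := IsFractionRing.lift (hεinj α hα)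
  let ε₀ : E →+* ℂ := IsFractionRing.lift (hεinj α₀ hα₀)
  have hε : ∀ u : MvPolynomial σ K, ε (algebraMap _ E u) = aeval α u := fun u =>
    IsFractionRing.lift_algebraMap (hεinj α hα) u
  have hε₀ : ∀ u : MvPolynomial σ K, ε₀ (algebraMap _ E u) = aeval α₀ u := fun u =>
    IsFractionRing.lift_algebraMap (hεinj α₀ hα₀) u
  let z : ℕ → σ → E := fun n i => algebraMap (MvPolynomial σ K) E (it f n i)
  have haev : ∀ (β : σ → ℂ) (n : ℕ) (i : σ), aeval β (it f n i) = (pt Φ)^[n] β i := by
    intro β n i
    rw [← eval_it']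
    have h1 : it Φ n i = map K.subtype (it f n i) := by
      rw [map_it]
      simp only [hf]
    rw [h1, eval_map]
    rfl
  have hzε : ∀ n, (fun i => ε (z n i)) = (pt Φ)^[n] α := by
    intro n
    funext i
    rw [hε, haev]
  have hzδ : ∀ n, (fun i => (τ.comp ε₀) (z n i)) = fun i => (((pt fO)^[n] b₀ i : unitBall (PadicAlgCl p)) : PadicAlgCl p) := by
    intro n
    have h1 : (fun i => (((pt fO)^[n] b₀ i : unitBall (PadicAlgCl p)) : PadicAlgCl p)) =
        (pt fun i => map (unitBall (PadicAlgCl p)).subtype (fO i))^[n] (fun i => τ (α₀ i)) :=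
      (pt_map (unitBall (PadicAlgCl p)).subtype fO b₀ n).symm
    have h2 : (fun i => map (unitBall (PadicAlgCl p)).subtype (fO i)) = fun i => map τ (Φ i) := by
      funext i
      show map (unitBall (PadicAlgCl p)).subtype (map ρ (fR i)) = _
      rw [MvPolynomial.map_map, ← hf, ← hfR', MvPolynomial.map_map, MvPolynomial.map_map]
      have h3 : (unitBall (PadicAlgCl p)).subtype.comp ρ = (τ.comp K.subtype).comp R.subtype := by
        apply RingHom.ext
        intro x
        show τ₀ ((x : K) : ℂ) = τ ((x : K) : ℂ)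
        rw [hτK _ (x : K).2]
      rw [h3]
    rw [h1, h2, pt_map]
    funext i
    show τ (ε₀ (z n i)) = _
    rw [hε₀, haev]
  obtain ⟨S', hS'⟩ := transfer ε (τ.comp ε₀) S
  apply exists_progressions' _ (n0 + M) L hL
  intro r' hinf t'
  have hkey : ∀ n, (∀ g ∈ S, eval ((pt Φ)^[n] α) g = 0) ↔
      ∀ P ∈ S', eval (fun i => (((pt fO)^[n] b₀ i : unitBall (PadicAlgCl p)) : PadicAlgCl p)) P = 0 := by
    intro n
    rw [← hzε, ← hzδ]
    exact hS' (z n)
  have hshift : ∀ t, n0 + M + r' + L * t = M + (n0 + r' + L * t) := fun t => by ring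
  simp only [Set.mem_ofPred_eq, hkey, hshift, ← hiter] at hinf ⊢
  exact hret S' r' hinf t'

end Pool.Agent.H864.Pad
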