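import Mathlib

set_option autoImplicit false

/-! Homogenization with a prescribed degree. -/

namespace Pool.Agent.H864.Hom

open MvPolynomial

section

variable {ι : Type} [Fintype ι] {R S : Type} [CommRing R] [CommRing S]

/-- The homogenization of degree `D` of a polynomial; the new variable is `none`. -/
noncomputable def homg (D : ℕ) (u : MvPolynomial ι R) : MvPolynomial (Option ι) R :=
  ∑ m ∈ u.support, C (u.coeff m) * (X none ^ (D - m.degree) * ∏ i, X (some i) ^ m i)

lemma aeval_homg {A : Type} [CommRing A] [Algebra R A] (D : ℕ) (u : MvPolynomial ι R)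
    (hD : u.totalDegree ≤ D) (c : A) (t : ι → A) :
    aeval (fun o : Option ι => o.elim c fun i => c * t i) (homg D u) = c ^ D * aeval t u := by
  rw [homg, map_sum, aeval_def t u, eval₂_eq', Finset.mul_sum]
  apply Finset.sum_congr rfl
  intro m hm
  simp only [map_mul, map_pow, map_prod, aeval_C, aeval_X, Option.elim_none, Option.elim_some]
  have h1 : m.degree ≤ D := by
    refine le_trans ?_ hD
    have := le_totalDegree hm
    rw [Finsupp.degree_apply]
    exact this
  have h2 : ∏ i, (c * t i) ^ m i = c ^ m.degree * ∏ i, t i ^ m i := by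
    rw [Finset.prod_congr rfl fun i _ => mul_pow c (t i) (m i), Finset.prod_mul_distrib,
      Finset.prod_pow_eq_pow_sum, Finsupp.degree_eq_sum]
  have h3 : c ^ D = c ^ (D - m.degree) * c ^ m.degree := by
    rw [← pow_add, Nat.sub_add_cancel h1]
  rw [h2, h3]
  ring

lemma eval_homg (D : ℕ) (u : MvPolynomial ι R) (hD : u.totalDegree ≤ D) (c : R) (t : ι → R) :
    eval (fun o : Option ι => o.elim c fun i => c * t i) (homg D u) = c ^ D * eval t u :=
  aeval_homg D u hD c t

lemma homg_isHomogeneous (D : ℕ) (u : MvPolynomial ι R) (hD : u.totalDegree ≤ D) :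
    (homg D u).IsHomogeneous D := by
  apply IsHomogeneous.sum
  intro m hm
  have h1 : m.degree ≤ D := by
    refine le_trans ?_ hD
    have := le_totalDegree hm
    rw [Finsupp.degree_apply]
    exact this
  have h2 : (∏ i, (X (some i) : MvPolynomial (Option ι) R) ^ m i).IsHomogeneous (∑ i, m i) := by
    apply IsHomogeneous.prod
    intro i _
    have := (isHomogeneous_X R (some i)).pow (m i)
    rwa [one_mul] at this
  have h3 : ((X none : MvPolynomial (Option ι) R) ^ (D - m.degree)).IsHomogeneous (D - m.degree) := by
    have := (isHomogeneous_X R (none : Option ι)).pow (D - m.degree)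
    rwa [one_mul] at this
  have h4 := (isHomogeneous_C (Option ι) (u.coeff m)).mul (h3.mul h2)
  have h5 : 0 + ((D - m.degree) + ∑ i, m i) = D := by
    rw [← Finsupp.degree_eq_sum]
    omega
  rwa [h5] at h4

lemma map_homg (φ : R →+* S) (D : ℕ) (u : MvPolynomial ι R) :
    map φ (homg D u) = homg D (map φ u) := by
  classical
  rw [homg, homg, map_sum]
  have h1 : (map φ u).support ⊆ u.support := support_map_subset φ u
  symm
  rw [Finset.sum_subset h1]
  · apply Finset.sum_congr rfl
    intro m _
    simp only [map_mul, map_pow, map_prod, map_C, map_X, coeff_map]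
  · intro m _ hm
    rw [notMem_support_iff.1 hm]
    simp

end

/-- Substitution of forms of degree `e` in a form of degree `D`. -/
lemma bind_isHomogeneous {σ τ R : Type} [CommRing R] (η : σ → MvPolynomial τ R) (e D : ℕ)
    (hη : ∀ i, (η i).IsHomogeneous e) (u : MvPolynomial σ R) (hu : u.IsHomogeneous D) :
    (bind₁ η u).IsHomogeneous (e * D) := by
  rw [bind₁, aeval_def, eval₂_eq]
  apply IsHomogeneous.sum
  intro m hm
  have h1 : (∏ i ∈ m.support, η i ^ m i).IsHomogeneous (∑ i ∈ m.support, e * m i) := by
    apply IsHomogeneous.prod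
    intro i _
    exact (hη i).pow (m i)
  have h2 : ∑ i ∈ m.support, e * m i = e * D := by
    rw [← Finset.mul_sum]
    congr 1
    have := hu (mem_support_iff.1 hm)
    rw [← this, Finsupp.weight_apply]
    simp [Finsupp.sum]
  have h3 := (isHomogeneous_C τ (u.coeff m)).mul h1
  rw [h2, zero_add] at h3
  exact h3

end Pool.Agent.H864.Hom
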