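import Mathlib

set_option autoImplicit false

/-! Kummer theory: elements of the Galois group which fix some radicals and move others. -/

namespace Pool.Agent.H864.Kum

open Pointwise

/-- Homomorphisms to a group of prime order which are trivial on the common kernel of others. -/
theorem hom_mem_span {G A : Type} [Group G] [CommGroup A] (ℓ : ℕ) [hl : Fact ℓ.Prime]
    (hA : Nat.card A = ℓ) : ∀ {r : ℕ} (ψ : Fin r → (G →* A)) (χ : G →* A)
    (_ : ∀ g, (∀ j, ψ j g = 1) → χ g = 1), ∃ v : Fin r → ℤ, ∀ g, χ g = ∏ j, ψ j g ^ v j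
  | 0, ψ, χ, h => ⟨fun _ => 0, fun g => by
      rw [h g (fun j => j.elim0)]
      simp⟩
  | r + 1, ψ, χ, h => by
    have key : ∃ w : ℤ, ∀ g, (∀ j : Fin r, ψ j.castSucc g = 1) → χ g = ψ (Fin.last r) g ^ w := by
      by_cases h0 : ∀ g, (∀ j : Fin r, ψ j.castSucc g = 1) → ψ (Fin.last r) g = 1
      · refine ⟨0, fun g hg => ?_⟩
        rw [zpow_zero]
        apply h g
        intro j
        refine Fin.lastCases ?_ (fun i => ?_) j
        · exact h0 g hg
        · exact hg i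
      · push Not at h0
        obtain ⟨g₀, hg₀, hne⟩ := h0
        have hgen : ∀ a : A, a ∈ Subgroup.zpowers (ψ (Fin.last r) g₀) := fun a =>
          mem_zpowers_of_prime_card hA hne
        obtain ⟨w, hw⟩ := Subgroup.mem_zpowers_iff.1 (hgen (χ g₀))
        refine ⟨w, fun g hg => ?_⟩
        obtain ⟨k, hk⟩ := Subgroup.mem_zpowers_iff.1 (hgen (ψ (Fin.last r) g))
        have h1 : χ (g * (g₀ ^ k)⁻¹) = 1 := by
          apply h
          intro j
          refine Fin.lastCases ?_ (fun i => ?_) j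
          · rw [map_mul, map_inv, map_zpow, hk, mul_inv_cancel]
          · rw [map_mul, map_inv, map_zpow, hg i, hg₀ i, one_zpow, inv_one, mul_one]
        rw [map_mul, map_inv, map_zpow, mul_inv_eq_one] at h1
        rw [h1, ← hw, ← hk, ← zpow_mul, ← zpow_mul, mul_comm]
    obtain ⟨w, hw⟩ := key
    obtain ⟨v, hv⟩ := hom_mem_span ℓ hA (fun j : Fin r => ψ j.castSucc)
      (χ * ((ψ (Fin.last r)) ^ w)⁻¹) (fun g hg => by
        rw [MonoidHom.mul_apply, MonoidHom.inv_apply, MonoidHom.zpow_apply, hw g hg, mul_inv_cancel])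
    refine ⟨Fin.snoc v w, fun g => ?_⟩
    rw [Fin.prod_univ_castSucc]
    simp only [Fin.snoc_castSucc, Fin.snoc_last]
    rw [← hv g, MonoidHom.mul_apply, MonoidHom.inv_apply, MonoidHom.zpow_apply, inv_mul_cancel_right]

/-- An element of the common kernel on which other homomorphisms are not trivial. -/
theorem exists_moving {G A : Type} [Group G] [CommGroup A] (ℓ : ℕ) [hl : Fact ℓ.Prime]
    (hA : Nat.card A = ℓ) {r e : ℕ} (ψ : Fin r → (G →* A)) (χ : Fin e → (G →* A)) (he : e < ℓ)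
    (h : ∀ i, ¬ ∃ v : Fin r → ℤ, ∀ g, χ i g = ∏ j, ψ j g ^ v j) :
    ∃ g, (∀ j, ψ j g = 1) ∧ ∀ i, χ i g ≠ 1 := by
  classical
  let K : Subgroup G := ⨅ j, (ψ j).ker
  have hK : ∀ g, g ∈ K ↔ ∀ j, ψ j g = 1 := by
    intro g
    rw [Subgroup.mem_iInf]
    rfl
  have h1 : ∀ i, ∃ g ∈ K, χ i g ≠ 1 := by
    intro i
    by_contra hcon
    push Not at hcon
    exact h i (hom_mem_span ℓ hA ψ (χ i) fun g hg => hcon g ((hK g).2 hg))
  let M : Fin e → Subgroup K := fun i => ((χ i).comp K.subtype).ker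
  have hAfin : Finite A := Nat.finite_of_card_ne_zero (by rw [hA]; exact hl.out.ne_zero)
  have hM : ∀ i, (M i).index = ℓ := by
    intro i
    obtain ⟨g, hgK, hg⟩ := h1 i
    rw [Subgroup.index_ker]
    have h2 : Nat.card ((χ i).comp K.subtype).range ∣ ℓ := by
      rw [← hA]
      exact Subgroup.card_subgroup_dvd_card _
    rcases (Nat.dvd_prime hl.out).1 h2 with h3 | h3
    · exfalso
      rw [Subgroup.card_eq_one] at h3
      have h4 : χ i g ∈ ((χ i).comp K.subtype).range := ⟨⟨g, hgK⟩, rfl⟩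
      rw [h3, Subgroup.mem_bot] at h4
      exact hg h4
    · exact h3
  by_contra hcon
  push Not at hcon
  have hcov : ⋃ i ∈ (Finset.univ : Finset (Fin e)), (1 : K) • ((M i : Subgroup K) : Set K) = Set.univ := by
    rw [Set.eq_univ_iff_forall]
    intro g
    obtain ⟨i, hi⟩ := hcon g ((hK g).1 g.2)
    rw [Set.mem_iUnion₂]
    refine ⟨i, Finset.mem_univ i, ?_⟩
    rw [one_smul]
    exact hi
  obtain ⟨i, -, -, hi⟩ := Subgroup.exists_index_le_card_of_leftCoset_cover hcov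
  rw [hM i, Finset.card_univ, Fintype.card_fin] at hi
  omega

/-- `ℓ`-th powers and extensions of degree prime to `ℓ`. -/
theorem exists_root_of_coprime {F E : Type} [Field F] [Field E] [Algebra F E] [FiniteDimensional F E]
    (ℓ : ℕ) (hd : (Module.finrank F E).Coprime ℓ) (a : F) (ha : a ≠ 0) (x : E)
    (hx : x ^ ℓ = algebraMap F E a) : ∃ c : F, c ^ ℓ = a := by
  have h1 : (Algebra.norm F x) ^ ℓ = a ^ Module.finrank F E := by
    rw [← map_pow, hx, Algebra.norm_algebraMap]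
  have h2 : IsCoprime ((Module.finrank F E : ℕ) : ℤ) (ℓ : ℤ) := Nat.isCoprime_iff_coprime.2 hd
  obtain ⟨u, w, huw⟩ := h2
  refine ⟨(Algebra.norm F x) ^ u * a ^ w, ?_⟩
  have h3 : ((Algebra.norm F x) ^ u) ^ ℓ = (a ^ (Module.finrank F E)) ^ u := by
    rw [← h1, ← zpow_natCast, ← zpow_mul, ← zpow_natCast, ← zpow_mul, mul_comm]
  rw [mul_pow, h3, ← zpow_natCast, ← zpow_mul, ← zpow_natCast, ← zpow_mul, ← zpow_add₀ ha]
  have h4 : ((Module.finrank F E : ℕ) : ℤ) * u + w * (ℓ : ℤ) = 1 := by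
    rw [← huw]
    ring
  rw [h4, zpow_one]

theorem finrank_adjoin_lt {F L : Type} [Field F] [Field L] [Algebra F L] (ℓ : ℕ)
    [hl : Fact ℓ.Prime] (ζ : L) (hζ : IsPrimitiveRoot ζ ℓ) :
    0 < Module.finrank F (IntermediateField.adjoin F {ζ}) ∧
      Module.finrank F (IntermediateField.adjoin F {ζ}) < ℓ := by
  have hint : IsIntegral F ζ := by
    refine ⟨Polynomial.X ^ ℓ - 1, Polynomial.monic_X_pow_sub_C 1 hl.out.ne_zero, ?_⟩
    simp [hζ.pow_eq_one]
  rw [IntermediateField.adjoin.finrank hint]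
  refine ⟨minpoly.natDegree_pos hint, ?_⟩
  have h1 : minpoly F ζ ∣ ∑ i ∈ Finset.range ℓ, Polynomial.X ^ i := by
    apply minpoly.dvd
    rw [map_sum]
    simp only [map_pow, Polynomial.aeval_X]
    exact hζ.geom_sum_eq_zero hl.out.one_lt
  have h2 : (∑ i ∈ Finset.range ℓ, (Polynomial.X : Polynomial F) ^ i).natDegree ≤ ℓ - 1 := by
    apply Polynomial.natDegree_sum_le_of_forall_le
    intro i hi
    rw [Finset.mem_range] at hi
    rw [Polynomial.natDegree_X_pow]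
    omega
  have h3 : (∑ i ∈ Finset.range ℓ, (Polynomial.X : Polynomial F) ^ i) ≠ 0 := by
    intro h0
    have h4 := congrArg (fun q : Polynomial F => q.coeff 0) h0
    simp only [Polynomial.finsetSum_coeff, Polynomial.coeff_X_pow, Polynomial.coeff_zero] at h4
    rw [Finset.sum_ite_eq (Finset.range ℓ) 0] at h4
    rw [if_pos (Finset.mem_range.2 hl.out.pos)] at h4
    exact one_ne_zero h4
  have h5 := Polynomial.natDegree_le_of_dvd h1 h3
  have := hl.out.pos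
  omega

section kummer

variable {E L : Type} [Field E] [Field L] [Algebra E L]

/-- The Kummer character of a radical. -/
def kum (ℓ : ℕ) (hμ : ∀ z ∈ rootsOfUnity ℓ L, ∀ g : L ≃ₐ[E] L, g (z : L) = z) (x : Lˣ)
    (hx : ∀ g : L ≃ₐ[E] L, g ((x : L) ^ ℓ) = (x : L) ^ ℓ) : (L ≃ₐ[E] L) →* rootsOfUnity ℓ L where
  toFun g := ⟨Units.map (g : L →* L) x * x⁻¹, by
    rw [mem_rootsOfUnity, mul_pow, inv_pow, mul_inv_eq_one]
    apply Units.ext
    push_cast
    rw [Units.coe_map]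
    show g (x : L) ^ ℓ = _
    rw [← map_pow, hx]⟩
  map_one' := by
    apply Subtype.ext
    show Units.map _ x * x⁻¹ = 1
    rw [mul_inv_eq_one]
    apply Units.ext
    rfl
  map_mul' := by
    intro g h
    apply Subtype.ext
    show Units.map _ x * x⁻¹ = (Units.map _ x * x⁻¹) * (Units.map _ x * x⁻¹)
    apply Units.ext
    push_cast
    simp only [Units.coe_map]
    show g (h (x : L)) * _ = (g (x : L) * _) * (h (x : L) * _)
    have hmem : (Units.map (h : L →* L) x * x⁻¹) ∈ rootsOfUnity ℓ L := by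
      rw [mem_rootsOfUnity, mul_pow, inv_pow, mul_inv_eq_one]
      apply Units.ext
      push_cast
      rw [Units.coe_map]
      show h (x : L) ^ ℓ = _
      rw [← map_pow, hx]
    have h1 := hμ _ hmem g
    push_cast at h1
    rw [Units.coe_map] at h1
    have h1' : g (h (x : L) * ((x : L))⁻¹) = h (x : L) * ((x : L))⁻¹ := by
      exact_mod_cast h1
    have hx0 : (x : L) ≠ 0 := x.ne_zero
    have hgx0 : g (x : L) ≠ 0 := by
      rw [Ne, map_eq_zero]
      exact hx0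
    rw [map_mul, map_inv₀] at h1'
    have h2 : g (h (x : L)) = (h (x : L) * (x : L)⁻¹) * g (x : L) := by
      rw [← h1']
      field_simp
    rw [h2]
    ring

lemma kum_apply (ℓ : ℕ) (hμ : ∀ z ∈ rootsOfUnity ℓ L, ∀ g : L ≃ₐ[E] L, g (z : L) = z) (x : Lˣ)
    (hx : ∀ g : L ≃ₐ[E] L, g ((x : L) ^ ℓ) = (x : L) ^ ℓ) (g : L ≃ₐ[E] L) :
    (((kum ℓ hμ x hx g : rootsOfUnity ℓ L) : Lˣ) : L) = g (x : L) * (x : L)⁻¹ := by
  show (((Units.map (g : L →* L) x * x⁻¹ : Lˣ)) : L) = _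
  push_cast
  rfl

lemma kum_eq_one (ℓ : ℕ) (hμ : ∀ z ∈ rootsOfUnity ℓ L, ∀ g : L ≃ₐ[E] L, g (z : L) = z) (x : Lˣ)
    (hx : ∀ g : L ≃ₐ[E] L, g ((x : L) ^ ℓ) = (x : L) ^ ℓ) (g : L ≃ₐ[E] L) :
    kum ℓ hμ x hx g = 1 ↔ g (x : L) = x := by
  rw [← Subtype.coe_inj, ← Units.val_inj, kum_apply]
  have hx0 : (x : L) ≠ 0 := x.ne_zero
  show g (x : L) * (x : L)⁻¹ = 1 ↔ _
  rw [mul_inv_eq_one₀ hx0]

end kummer

/-- **Elements of the Galois group which fix some radicals and move others.** -/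
theorem exists_galois (L : Type) [Field L] [NumberField L] [IsGalois ℚ L]
    (F₀ : IntermediateField ℚ L) (ℓ : ℕ) [hl : Fact ℓ.Prime] (ζ : L) (hζ : IsPrimitiveRoot ζ ℓ)
    {r e : ℕ} (ρ : Fin r → L) (β : Fin e → L) (hρ0 : ∀ j, ρ j ≠ 0) (hβ0 : ∀ i, β i ≠ 0)
    (hρ : ∀ j, ρ j ^ ℓ ∈ F₀) (hβ : ∀ i, β i ^ ℓ ∈ F₀) (he : e < ℓ)
    (hind : ∀ i, ∀ v : Fin r → ℤ, ∀ c ∈ F₀, c ^ ℓ ≠ β i ^ ℓ * ∏ j, (ρ j ^ ℓ) ^ v j) :
    ∃ σ : Gal(L/ℚ), σ ζ = ζ ∧ (∀ j, σ (ρ j) = ρ j) ∧ (∀ x ∈ F₀, σ x = x) ∧ ∀ i, σ (β i) ≠ β i := by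
  classical
  let E₀ : IntermediateField F₀ L := IntermediateField.adjoin F₀ {ζ}
  have hζE : ζ ∈ E₀ := IntermediateField.mem_adjoin_simple_self F₀ ζ
  have hfix : ∀ g : L ≃ₐ[E₀] L, ∀ x ∈ E₀, g x = x := fun g x hx => g.commutes ⟨x, hx⟩
  have hfixF : ∀ g : L ≃ₐ[E₀] L, ∀ x ∈ F₀, g x = x := fun g x hx =>
    hfix g x (E₀.algebraMap_mem (⟨x, hx⟩ : F₀))
  have hμ : ∀ z ∈ rootsOfUnity ℓ L, ∀ g : L ≃ₐ[E₀] L, g (z : L) = z := by
    intro z hz g
    rw [mem_rootsOfUnity] at hz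
    have hz' : (z : L) ^ ℓ = 1 := by
      rw [← Units.val_pow_eq_pow_val, hz, Units.val_one]
    obtain ⟨k, -, hk⟩ := hζ.eq_pow_of_pow_eq_one hz'
    rw [← hk, map_pow, hfix g ζ hζE]
  have hA : Nat.card (rootsOfUnity ℓ L) = ℓ := by
    exact hζ.card_rootsOfUnity
  have hfin : FiniteDimensional F₀ E₀ := inferInstance
  let ρu : Fin r → Lˣ := fun j => Units.mk0 (ρ j) (hρ0 j)
  let βu : Fin e → Lˣ := fun i => Units.mk0 (β i) (hβ0 i)
  let ψ : Fin r → ((L ≃ₐ[E₀] L) →* rootsOfUnity ℓ L) := fun j =>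
    kum ℓ hμ (ρu j) fun g => hfixF g _ (hρ j)
  let χ : Fin e → ((L ≃ₐ[E₀] L) →* rootsOfUnity ℓ L) := fun i =>
    kum ℓ hμ (βu i) fun g => hfixF g _ (hβ i)
  obtain ⟨g, hgψ, hgχ⟩ := exists_moving ℓ hA ψ χ he (by
    rintro i ⟨v, hv⟩
    -- the radical is in `E₀`
    set x : L := β i * ∏ j, ρ j ^ (-v j) with hx
    have hxfix : ∀ g : L ≃ₐ[E₀] L, g x = x := by
      intro g
      have h1 : (((χ i g : rootsOfUnity ℓ L) : Lˣ) : L) =
          (((∏ j, ψ j g ^ v j : rootsOfUnity ℓ L) : Lˣ) : L) :=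
        congrArg (fun z : rootsOfUnity ℓ L => ((z : Lˣ) : L)) (hv g)
      have h2 : (((χ i g : rootsOfUnity ℓ L) : Lˣ) : L) = g (β i) * (β i)⁻¹ := kum_apply _ _ _ _ _
      have h3 : (((∏ j, ψ j g ^ v j : rootsOfUnity ℓ L) : Lˣ) : L) = ∏ j, (g (ρ j) * (ρ j)⁻¹) ^ v j := by
        rw [Subgroup.val_finset_prod, Units.coe_prod]
        apply Finset.prod_congr rfl
        intro j _
        rw [Subgroup.coe_zpow, Units.val_zpow_eq_zpow_val]
        congr 1
      rw [h2, h3] at h1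
      rw [hx, map_mul, map_prod]
      have h4 : g (β i) = (∏ j, (g (ρ j) * (ρ j)⁻¹) ^ v j) * β i := by
        rw [← h1, inv_mul_cancel_right₀ (hβ0 i)]
      rw [h4, mul_comm _ (β i), mul_assoc, ← Finset.prod_mul_distrib]
      congr 1
      apply Finset.prod_congr rfl
      intro j _
      have hg0 : g (ρ j) ≠ 0 := by
        rw [Ne, map_eq_zero]
        exact hρ0 j
      rw [map_zpow₀, mul_zpow, inv_zpow, mul_comm (g (ρ j) ^ v j), mul_assoc, ← zpow_add₀ hg0,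
        add_neg_cancel, zpow_zero, mul_one, zpow_neg]
    have hgal : IsGalois E₀ L := inferInstance
    obtain ⟨y, hy⟩ := (IsGalois.mem_range_algebraMap_iff_fixed (F := E₀) x).2 hxfix
    have hxl : x ^ ℓ = β i ^ ℓ * ∏ j, (ρ j ^ ℓ) ^ (-v j) := by
      rw [hx, mul_pow, ← Finset.prod_pow]
      congr 1
      apply Finset.prod_congr rfl
      intro j _
      rw [← zpow_natCast, ← zpow_mul, ← zpow_natCast, ← zpow_mul, mul_comm]
    have ha : β i ^ ℓ * ∏ j, (ρ j ^ ℓ) ^ (-v j) ∈ F₀ :=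
      F₀.mul_mem (hβ i) (F₀.prod_mem fun j _ => F₀.toSubfield.zpow_mem (hρ j) _)
    have ha0 : (⟨_, ha⟩ : F₀) ≠ 0 := by
      intro h0
      have h1 := congrArg (fun z : F₀ => (z : L)) h0
      simp only [ZeroMemClass.coe_zero] at h1
      rw [← hxl] at h1
      have h2 : x ≠ 0 := by
        rw [hx]
        exact mul_ne_zero (hβ0 i) (Finset.prod_ne_zero_iff.2 fun j _ => zpow_ne_zero _ (hρ0 j))
      exact pow_ne_zero _ h2 h1
    have hcop : (Module.finrank F₀ E₀).Coprime ℓ := by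
      obtain ⟨h1, h2⟩ := finrank_adjoin_lt (F := F₀) ℓ ζ hζ
      exact (Nat.coprime_of_lt_prime h1.ne' h2 hl.out).symm
    obtain ⟨c, hc⟩ := exists_root_of_coprime (E := E₀) ℓ hcop ⟨_, ha⟩ ha0 y (by
      apply (algebraMap E₀ L).injective
      rw [map_pow, hy, hxl]
      rfl)
    apply hind i (fun j => -v j) (c : L) c.2
    have h1 := congrArg (fun z : F₀ => (z : L)) hc
    exact h1)
  refine ⟨g.restrictScalars ℚ, hfix g ζ hζE, fun j => ?_, fun x hx => hfixF g x hx, fun i => ?_⟩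
  · exact (kum_eq_one _ _ _ _ _).1 (hgψ j)
  · intro h
    exact hgχ i ((kum_eq_one _ _ _ _ _).2 h)

end Pool.Agent.H864.Kum
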