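import Pool.Agent.H864.Frob

set_option autoImplicit false

/-! Elements of a number field which are `ℓ`-th powers modulo a finitely generated group for
infinitely many `ℓ`. -/

namespace Pool.Agent.H864.Kum

open NumberField

theorem exists_common_den (L : Type) [Field L] [NumberField L] (t : Finset L) :
    ∃ D : ℕ, 0 < D ∧ ∀ x ∈ t, IsIntegral ℤ ((D : L) * x) := by
  classical
  induction t using Finset.induction_on with
  | empty => exact ⟨1, one_pos, by simp⟩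
  | insert a t _ ih =>
    obtain ⟨D, hD, h⟩ := ih
    obtain ⟨D', hD', h'⟩ := Pool.Agent.H864.Frob.exists_den L a
    refine ⟨D * D', Nat.mul_pos hD hD', fun x hx => ?_⟩
    push_cast
    rcases Finset.mem_insert.1 hx with rfl | hx
    · rw [mul_assoc]
      exact IsIntegral.mul (isIntegral_algebraMap (x := (D : ℤ)) |> fun h => by simpa using h) h'
    · rw [mul_comm (D : L), mul_assoc]
      exact IsIntegral.mul (isIntegral_algebraMap (x := (D' : ℤ)) |> fun h => by simpa using h)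
        (h x hx)

/-- If `b` is an `ℓ`-th power modulo a finitely generated group for infinitely many `ℓ` then a power
of `b` belongs to this group. -/
theorem finite_bad (F : Type) [Field F] [NumberField F] {r : ℕ} (γ : Fin r → F)
    (hγ : ∀ j, γ j ≠ 0) (b : F) (hb : b ≠ 0)
    (hind : ∀ k : ℕ, 0 < k → ∀ v : Fin r → ℤ, b ^ k ≠ ∏ j, γ j ^ v j) :
    {ℓ : ℕ | 0 < ℓ ∧ ∃ (c : F) (v : Fin r → ℤ), c ^ ℓ = b * ∏ j, γ j ^ v j}.Finite := by
  classical
  by_contra hinf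
  rw [← Set.Infinite] at hinf
  -- reduced exponents
  have hred : ∀ ℓ ∈ {ℓ : ℕ | 0 < ℓ ∧ ∃ (c : F) (v : Fin r → ℤ), c ^ ℓ = b * ∏ j, γ j ^ v j},
      ∃ (c : F) (w : Fin r → ℕ), (∀ j, w j < ℓ) ∧ c ^ ℓ = b * ∏ j, γ j ^ w j := by
    rintro ℓ ⟨hℓ, c, v, hc⟩
    have hℓ' : (0 : ℤ) < ℓ := by exact_mod_cast hℓ
    refine ⟨c * ∏ j, γ j ^ (-(v j / ℓ)), fun j => (v j % ℓ).toNat, fun j => ?_, ?_⟩
    · have h1 := Int.emod_lt_of_pos (v j) hℓ'
      have h2 := Int.emod_nonneg (v j) hℓ'.ne'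
      show (v j % ℓ).toNat < ℓ
      omega
    · rw [mul_pow, hc, ← Finset.prod_pow, mul_assoc, ← Finset.prod_mul_distrib]
      congr 1
      apply Finset.prod_congr rfl
      intro j _
      have h2 := Int.emod_nonneg (v j) hℓ'.ne'
      rw [← zpow_natCast (γ j ^ (-(v j / ℓ))), ← zpow_mul, ← zpow_add₀ (hγ j), ← zpow_natCast,
        Int.toNat_of_nonneg h2]
      congr 1
      have h3 := Int.emod_add_mul_ediv (v j) ℓ
      linear_combination -h3
  -- denominators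
  obtain ⟨D, hD, hDint⟩ := exists_common_den F (insert b (Finset.univ.image γ))
  have hDb : IsIntegral ℤ ((D : F) * b) := hDint b (Finset.mem_insert_self _ _)
  have hDγ : ∀ j, IsIntegral ℤ ((D : F) * γ j) := fun j =>
    hDint _ (Finset.mem_insert_of_mem (Finset.mem_image_of_mem _ (Finset.mem_univ j)))
  -- the archimedean bound
  obtain ⟨B, hB1, hBb, hBγ⟩ : ∃ B : ℝ, 1 ≤ B ∧ (∀ φ : F →+* ℂ, ‖φ b‖ ≤ B) ∧
      ∀ (φ : F →+* ℂ) j, ‖φ (γ j)‖ ≤ B := by
    refine ⟨1 + ∑ φ : F →+* ℂ, (‖φ b‖ + ∑ j, ‖φ (γ j)‖), ?_, fun φ => ?_, fun φ j => ?_⟩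
    · have : 0 ≤ ∑ φ : F →+* ℂ, (‖φ b‖ + ∑ j, ‖φ (γ j)‖) := Finset.sum_nonneg fun φ _ =>
        add_nonneg (norm_nonneg _) (Finset.sum_nonneg fun j _ => norm_nonneg _)
      linarith
    · have h1 := Finset.single_le_sum (f := fun φ : F →+* ℂ => ‖φ b‖ + ∑ j, ‖φ (γ j)‖)
        (fun φ _ => add_nonneg (norm_nonneg _) (Finset.sum_nonneg fun j _ => norm_nonneg _))
        (Finset.mem_univ φ)
      have h2 : 0 ≤ ∑ j, ‖φ (γ j)‖ := Finset.sum_nonneg fun j _ => norm_nonneg _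
      linarith
    · have h1 := Finset.single_le_sum (f := fun φ : F →+* ℂ => ‖φ b‖ + ∑ j, ‖φ (γ j)‖)
        (fun φ _ => add_nonneg (norm_nonneg _) (Finset.sum_nonneg fun j _ => norm_nonneg _))
        (Finset.mem_univ φ)
      have h2 := Finset.single_le_sum (f := fun j => ‖φ (γ j)‖) (fun j _ => norm_nonneg _)
        (Finset.mem_univ j)
      have h3 : 0 ≤ ‖φ b‖ := norm_nonneg _
      linarith
  choose! c w hw hc using hred
  have hfin := NumberField.Embeddings.finite_of_norm_le F ℂ ((D : ℝ) ^ (r + 1) * B ^ (r + 1))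
  have hmaps : Set.MapsTo (fun ℓ => (D : F) ^ (r + 1) * c ℓ)
      {ℓ : ℕ | 0 < ℓ ∧ ∃ (c : F) (v : Fin r → ℤ), c ^ ℓ = b * ∏ j, γ j ^ v j}
      {x : F | IsIntegral ℤ x ∧ ∀ φ : F →+* ℂ, ‖φ x‖ ≤ (D : ℝ) ^ (r + 1) * B ^ (r + 1)} := by
    intro ℓ hℓ
    have hℓ0 : 0 < ℓ := hℓ.1
    have hwsum : 1 + ∑ j, w ℓ j ≤ (r + 1) * ℓ := by
      have h1 : ∑ j, w ℓ j ≤ ∑ _j : Fin r, ℓ := Finset.sum_le_sum fun j _ => (hw ℓ hℓ j).le
      rw [Finset.sum_const, Finset.card_univ, Fintype.card_fin, smul_eq_mul] at h1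
      nlinarith
    refine ⟨?_, fun φ => ?_⟩
    · have h1 : ((D : F) ^ (r + 1) * c ℓ) ^ ℓ =
          (D : F) ^ ((r + 1) * ℓ - (1 + ∑ j, w ℓ j)) * (((D : F) * b) * ∏ j, ((D : F) * γ j) ^ w ℓ j) := by
        have h2 : ∏ j, ((D : F) * γ j) ^ w ℓ j = (D : F) ^ (∑ j, w ℓ j) * ∏ j, γ j ^ w ℓ j := by
          rw [← Finset.prod_pow_eq_pow_sum, ← Finset.prod_mul_distrib]
          apply Finset.prod_congr rfl
          intro j _
          rw [mul_pow]
        have h3 : (D : F) ^ ((r + 1) * ℓ) =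
            (D : F) ^ ((r + 1) * ℓ - (1 + ∑ j, w ℓ j)) * ((D : F) * (D : F) ^ (∑ j, w ℓ j)) := by
          rw [← pow_succ', ← pow_add]
          congr 1
          omega
        rw [mul_pow, hc ℓ hℓ, ← pow_mul, h2, h3]
        ring
      apply IsIntegral.of_pow hℓ0
      rw [h1]
      apply IsIntegral.mul
      · apply IsIntegral.pow
        have := isIntegral_algebraMap (R := ℤ) (A := F) (x := (D : ℤ))
        simpa using this
      · apply IsIntegral.mul hDb
        exact IsIntegral.prod _ fun j _ => (hDγ j).pow _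
    · rw [map_mul, map_pow, map_natCast, norm_mul, norm_pow]
      have h0 : ‖((D : ℕ) : ℂ)‖ = D := by simp
      rw [h0]
      apply mul_le_mul_of_nonneg_left _ (by positivity)
      have h1 : ‖φ (c ℓ)‖ ^ ℓ ≤ (B ^ (r + 1)) ^ ℓ := by
        rw [← norm_pow, ← map_pow, hc ℓ hℓ, map_mul, map_prod, norm_mul, norm_prod]
        have h2 : ∏ j, ‖φ (γ j ^ w ℓ j)‖ ≤ ∏ _j : Fin r, B ^ ℓ := by
          apply Finset.prod_le_prod (fun j _ => norm_nonneg _)
          intro j _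
          rw [map_pow, norm_pow]
          calc _ ≤ B ^ w ℓ j := pow_le_pow_left₀ (norm_nonneg _) (hBγ φ j) _
            _ ≤ B ^ ℓ := pow_le_pow_right₀ hB1 (hw ℓ hℓ j).le
        rw [Finset.prod_const, Finset.card_univ, Fintype.card_fin] at h2
        calc _ ≤ B ^ ℓ * (B ^ ℓ) ^ r := by
              apply mul_le_mul _ h2 (Finset.prod_nonneg fun j _ => norm_nonneg _) (by positivity)
              calc _ ≤ B := hBb φ
                _ = B ^ 1 := (pow_one B).symm
                _ ≤ B ^ ℓ := pow_le_pow_right₀ hB1 hℓ0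
          _ = (B ^ (r + 1)) ^ ℓ := by
              rw [← pow_mul, ← pow_mul, ← pow_add]
              congr 1
              ring
      exact le_of_pow_le_pow_left₀ hℓ0.ne' (by positivity) h1
  obtain ⟨ℓ₁, h1, ℓ₂, h2, hne, heq⟩ := hinf.exists_ne_map_eq_of_mapsTo hmaps hfin
  have hD0 : (D : F) ^ (r + 1) ≠ 0 := pow_ne_zero _ (by exact_mod_cast hD.ne')
  have hcc : c ℓ₁ = c ℓ₂ := mul_left_cancel₀ hD0 heq
  -- the contradiction
  have hfinal : ∀ m n : ℕ, m < n → m ∈ {ℓ : ℕ | 0 < ℓ ∧ ∃ (c : F) (v : Fin r → ℤ), c ^ ℓ = b * ∏ j, γ j ^ v j} →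
      n ∈ {ℓ : ℕ | 0 < ℓ ∧ ∃ (c : F) (v : Fin r → ℤ), c ^ ℓ = b * ∏ j, γ j ^ v j} → c m = c n → False := by
    intro m n hmn hm hn hcmn
    have e1 := hc m hm
    have e2 := hc n hn
    rw [← hcmn] at e2
    have hPne : ∀ u : Fin r → ℕ, ∏ j, γ j ^ u j ≠ 0 := fun u =>
      Finset.prod_ne_zero_iff.2 fun j _ => pow_ne_zero _ (hγ j)
    have e3 : c m ^ (n - m) * ∏ j, γ j ^ w m j = ∏ j, γ j ^ w n j := by
      have h3 : c m ^ n = c m ^ (n - m) * c m ^ m := by
        rw [← pow_add]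
        congr 1
        omega
      rw [h3, e1] at e2
      have h4 : b * (c m ^ (n - m) * ∏ j, γ j ^ w m j) = b * ∏ j, γ j ^ w n j := by
        rw [← e2]
        ring
      exact mul_left_cancel₀ hb h4
    apply hind (n - m) (by omega) (fun j => ((w n j : ℤ) - w m j) * m - w m j * ((n - m : ℕ) : ℤ))
    have e4 : c m ^ (n - m) = ∏ j, γ j ^ ((w n j : ℤ) - w m j) := by
      rw [← eq_div_iff (hPne _), ← Finset.prod_div_distrib] at e3
      rw [e3]
      apply Finset.prod_congr rfl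
      intro j _
      rw [zpow_sub₀ (hγ j), zpow_natCast, zpow_natCast]
    have e5 : b = c m ^ m * ∏ j, γ j ^ (-(w m j : ℤ)) := by
      rw [e1, mul_assoc, ← Finset.prod_mul_distrib]
      have : ∏ j, γ j ^ w m j * γ j ^ (-(w m j : ℤ)) = 1 := by
        apply Finset.prod_eq_one
        intro j _
        rw [← zpow_natCast, ← zpow_add₀ (hγ j), add_neg_cancel, zpow_zero]
      rw [this, mul_one]
    calc b ^ (n - m) = (c m ^ m * ∏ j, γ j ^ (-(w m j : ℤ))) ^ (n - m) := by rw [← e5]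
      _ = (c m ^ (n - m)) ^ m * ∏ j, (γ j ^ (-(w m j : ℤ))) ^ (n - m) := by
          rw [mul_pow, Finset.prod_pow, ← pow_mul, ← pow_mul, mul_comm m]
      _ = ∏ j, γ j ^ (((w n j : ℤ) - w m j) * m - w m j * ((n - m : ℕ) : ℤ)) := by
          rw [e4, ← Finset.prod_pow, ← Finset.prod_mul_distrib]
          apply Finset.prod_congr rfl
          intro j _
          rw [← zpow_natCast, ← zpow_mul, ← zpow_natCast, ← zpow_mul, ← zpow_add₀ (hγ j)]
          congr 1
          ring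
  rcases lt_or_gt_of_ne hne with h | h
  · exact hfinal _ _ h h1 h2 hcc
  · exact hfinal _ _ h h2 h1 hcc.symm

end Pool.Agent.H864.Kum
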