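import Pool.Agent.H864.Kummer
import Pool.Agent.H864.Northcott

set_option autoImplicit false

/-! Embeddings of the complex numbers in the algebraic closure of `ℚ_p` such that given algebraic
numbers do not meet a finitely generated group modulo the maximal ideal. -/

namespace Pool.Agent.H864.Kum

open NumberField Pool.Agent.H936R2 Pool.Agent.H864.Pad Pool.Agent.H864.Frob

section residues

variable {p : ℕ} [hp : Fact p.Prime]

/-- A unit of the unit ball. -/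
noncomputable def ubUnit (x : PadicAlgCl p) (hx : ‖x‖ = 1) : (unitBall (PadicAlgCl p))ˣ where
  val := ⟨x, hx.le⟩
  inv := ⟨x⁻¹, by
    show ‖x⁻¹‖ ≤ 1
    rw [norm_inv, hx, inv_one]⟩
  val_inv := by
    apply Subtype.ext
    show x * x⁻¹ = 1
    apply mul_inv_cancel₀
    intro h
    rw [h, norm_zero] at hx
    exact zero_ne_one hx
  inv_val := by
    apply Subtype.ext
    show x⁻¹ * x = 1
    apply inv_mul_cancel₀
    intro h
    rw [h, norm_zero] at hx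
    exact zero_ne_one hx

/-- The residue class of an element of norm one. -/
noncomputable def ru (x : PadicAlgCl p) (hx : ‖x‖ = 1) : (ResF (PadicAlgCl p))ˣ :=
  Units.map (res (PadicAlgCl p)).toMonoidHom (ubUnit x hx)

lemma ru_eq_iff (x y : PadicAlgCl p) (hx : ‖x‖ = 1) (hy : ‖y‖ = 1) :
    ru x hx = ru y hy ↔ ‖x - y‖ < 1 := by
  rw [← Units.val_inj]
  show res (PadicAlgCl p) ⟨x, hx.le⟩ = res (PadicAlgCl p) ⟨y, hy.le⟩ ↔ _
  rw [← sub_eq_zero, ← map_sub, res_eq_zero_iff]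
  rfl

lemma ru_mul (x y : PadicAlgCl p) (hx : ‖x‖ = 1) (hy : ‖y‖ = 1) (hxy : ‖x * y‖ = 1) :
    ru (x * y) hxy = ru x hx * ru y hy := by
  unfold ru
  rw [← map_mul]
  congr 1
  apply Units.ext
  apply Subtype.ext
  rfl

lemma norm_pow_one {x : PadicAlgCl p} (hx : ‖x‖ = 1) (n : ℕ) : ‖x ^ n‖ = 1 := by
  rw [norm_pow, hx, one_pow]

lemma ru_pow (x : PadicAlgCl p) (hx : ‖x‖ = 1) (n : ℕ) :
    ru (x ^ n) (norm_pow_one hx n) = ru x hx ^ n := by
  unfold ru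
  rw [← map_pow]
  congr 1
  apply Units.ext
  apply Subtype.ext
  rw [Units.val_pow_eq_pow_val, SubmonoidClass.coe_pow]
  rfl

lemma ru_zprod {r : ℕ} (x : Fin r → PadicAlgCl p) (hx : ∀ j, ‖x j‖ = 1) (v : Fin r → ℤ)
    (h : ‖∏ j, x j ^ v j‖ = 1) : ru (∏ j, x j ^ v j) h = ∏ j, ru (x j) (hx j) ^ v j := by
  unfold ru
  simp only [← map_zpow]
  rw [← map_prod]
  congr 1
  apply Units.ext
  apply Subtype.ext
  have h1 : (((∏ j, ubUnit (x j) (hx j) ^ v j : (unitBall (PadicAlgCl p))ˣ) :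
      unitBall (PadicAlgCl p)) : PadicAlgCl p) =
      ((Units.map (unitBall (PadicAlgCl p)).subtype.toMonoidHom
        (∏ j, ubUnit (x j) (hx j) ^ v j) : (PadicAlgCl p)ˣ) : PadicAlgCl p) := rfl
  rw [h1, map_prod, Units.coe_prod]
  simp only [map_zpow, Units.val_zpow_eq_zpow_val]
  rfl

lemma norm_zprod {r : ℕ} (x : Fin r → PadicAlgCl p) (hx : ∀ j, ‖x j‖ = 1) (v : Fin r → ℤ) :
    ‖∏ j, x j ^ v j‖ = 1 := by
  rw [norm_prod]
  apply Finset.prod_eq_one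
  intro j _
  rw [norm_zpow, hx, one_zpow]

end residues

/-- An element is a unit if it and its inverse are integral. -/
lemma norm_eq_one_of_inv {p : ℕ} [hp : Fact p.Prime] (τ : ℂ →+* PadicAlgCl p) {x : ℂ} (hx : x ≠ 0)
    (h1 : ‖τ x‖ ≤ 1) (h2 : ‖τ x⁻¹‖ ≤ 1) : ‖τ x‖ = 1 := by
  rw [map_inv₀, norm_inv] at h2
  have h3 : 0 < ‖τ x‖ := norm_pos_iff.2 (by rwa [Ne, map_eq_zero])
  have h4 : 1 ≤ ‖τ x‖ := by
    by_contra hlt
    rw [not_le] at hlt
    exact absurd h2 (not_le.2 ((one_lt_inv₀ h3).2 hlt))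
  exact le_antisymm h1 h4

/-- A Galois number field which contains given algebraic numbers. -/
theorem exists_galois_field (t : Set ℂ) (ht : t.Finite) (halg : ∀ x ∈ t, IsAlgebraic ℚ x) :
    ∃ L : IntermediateField ℚ ℂ, FiniteDimensional ℚ L ∧ IsGalois ℚ L ∧ t ⊆ L := by
  let K := IntermediateField.adjoin ℚ t
  have hK : FiniteDimensional ℚ K := by
    have := ht.to_subtype
    exact IntermediateField.finiteDimensional_adjoin fun x hx => (halg x hx).isIntegral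
  have h1 : Algebra.IsAlgebraic ℚ K := Algebra.IsAlgebraic.of_finite ℚ K
  have h2 : IsNormalClosure ℚ K (IntermediateField.normalClosure ℚ K ℂ) :=
    Algebra.IsAlgebraic.isNormalClosure_normalClosure fun x => IsAlgClosed.splits _
  have h3 : Normal ℚ (IntermediateField.normalClosure ℚ K ℂ) := h2.normal
  refine ⟨IntermediateField.normalClosure ℚ K ℂ, inferInstance, { }, ?_⟩
  · intro x hx
    exact IntermediateField.le_normalClosure K (IntermediateField.subset_adjoin ℚ t hx)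

/-- **Embeddings which separate algebraic numbers from a group.** -/
theorem exists_mult_embedding {r e : ℕ} (γ : Fin r → ℂ) (b : Fin e → ℂ) (hγ : ∀ j, γ j ≠ 0)
    (hb : ∀ i, b i ≠ 0) (hγa : ∀ j, IsAlgebraic ℚ (γ j)) (hba : ∀ i, IsAlgebraic ℚ (b i))
    (hind : ∀ i, ∀ k : ℕ, 0 < k → ∀ v : Fin r → ℤ, b i ^ k ≠ ∏ j, γ j ^ v j)
    (s : Finset ℂ) (B : ℕ) :
    ∃ (p : ℕ) (_ : Fact p.Prime), B < p ∧ ∃ τ : ℂ →+* PadicAlgCl p, (∀ x ∈ s, ‖τ x‖ ≤ 1) ∧
      (∀ j, ‖τ (γ j)‖ = 1) ∧ (∀ i, ‖τ (b i)‖ = 1) ∧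
      ∀ i, ∀ v : Fin r → ℤ, ‖τ (b i - ∏ j, γ j ^ v j)‖ = 1 := by
  classical
  -- the field generated by the data
  let F := IntermediateField.adjoin ℚ (Set.range γ ∪ Set.range b)
  have hFfin : FiniteDimensional ℚ F := by
    have : Finite (Set.range γ ∪ Set.range b : Set ℂ) :=
      ((Set.finite_range γ).union (Set.finite_range b)).to_subtype
    apply IntermediateField.finiteDimensional_adjoin
    rintro x (⟨j, rfl⟩ | ⟨i, rfl⟩)
    · exact (hγa j).isIntegral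
    · exact (hba i).isIntegral
  have hNF : NumberField F := { to_charZero := inferInstance, to_finiteDimensional := hFfin }
  have hγF : ∀ j, γ j ∈ F := fun j => IntermediateField.subset_adjoin ℚ _ (Or.inl ⟨j, rfl⟩)
  have hbF : ∀ i, b i ∈ F := fun i => IntermediateField.subset_adjoin ℚ _ (Or.inr ⟨i, rfl⟩)
  have hbad : ∀ i, {ℓ : ℕ | 0 < ℓ ∧ ∃ (c : F) (v : Fin r → ℤ),
      c ^ ℓ = (⟨b i, hbF i⟩ : F) * ∏ j, (⟨γ j, hγF j⟩ : F) ^ v j}.Finite := by
    intro i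
    apply finite_bad F (fun j => (⟨γ j, hγF j⟩ : F))
    · intro j h
      exact hγ j (congrArg (fun z : F => (z : ℂ)) h)
    · intro h
      exact hb i (congrArg (fun z : F => (z : ℂ)) h)
    · intro k hk v h
      apply hind i k hk v
      have h1 := congrArg (algebraMap F ℂ) h
      rw [map_pow, map_prod] at h1
      simp only [map_zpow₀] at h1
      exact h1
  have hbadU : (⋃ i, {ℓ : ℕ | 0 < ℓ ∧ ∃ (c : F) (v : Fin r → ℤ),
      c ^ ℓ = (⟨b i, hbF i⟩ : F) * ∏ j, (⟨γ j, hγF j⟩ : F) ^ v j}).Finite :=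
    Set.finite_iUnion hbad
  obtain ⟨B₀, hB₀⟩ := hbadU.bddAbove
  obtain ⟨ℓ, hℓlt, hℓp⟩ := Nat.exists_infinite_primes (B₀ + e + 1)
  haveI hl : Fact ℓ.Prime := ⟨hℓp⟩
  have hgood : ∀ i (c : F) (v : Fin r → ℤ),
      c ^ ℓ ≠ (⟨b i, hbF i⟩ : F) * ∏ j, (⟨γ j, hγF j⟩ : F) ^ v j := by
    intro i c v h
    have := hB₀ (Set.mem_iUnion.2 ⟨i, hℓp.pos, c, v, h⟩)
    omega
  -- the radicals
  have hζ := Complex.isPrimitiveRoot_exp ℓ hℓp.ne_zero
  set ζ := Complex.exp (2 * Real.pi * Complex.I / ℓ) with hζdef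
  choose ρ hρ using fun j => IsAlgClosed.exists_pow_nat_eq (γ j) hℓp.pos
  choose β hβ using fun i => IsAlgClosed.exists_pow_nat_eq (b i) hℓp.pos
  have hρ0 : ∀ j, ρ j ≠ 0 := by
    intro j h
    apply hγ j
    rw [← hρ j, h, zero_pow hℓp.ne_zero]
  have hβ0 : ∀ i, β i ≠ 0 := by
    intro i h
    apply hb i
    rw [← hβ i, h, zero_pow hℓp.ne_zero]
  obtain ⟨L, hLfin, hLgal, hL⟩ := exists_galois_field ({ζ} ∪ Set.range ρ ∪ Set.range β)
    (((Set.finite_singleton ζ).union (Set.finite_range ρ)).union (Set.finite_range β)) (by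
      rintro x ((hx | ⟨j, rfl⟩) | ⟨i, rfl⟩)
      · rw [Set.mem_singleton_iff] at hx
        rw [hx]
        have h1 : IsIntegral ℚ ζ := by
          refine ⟨Polynomial.X ^ ℓ - 1, Polynomial.monic_X_pow_sub_C 1 hl.out.ne_zero, ?_⟩
          simp [hζ.pow_eq_one]
        exact h1.isAlgebraic
      · apply IsAlgebraic.of_pow hℓp.pos
        rw [hρ]
        exact hγa j
      · apply IsAlgebraic.of_pow hℓp.pos
        rw [hβ]
        exact hba i)
  have hNL : NumberField L := { to_charZero := inferInstance, to_finiteDimensional := hLfin }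
  have hζL : ζ ∈ L := hL (Or.inl (Or.inl rfl))
  have hρL : ∀ j, ρ j ∈ L := fun j => hL (Or.inl (Or.inr ⟨j, rfl⟩))
  have hβL : ∀ i, β i ∈ L := fun i => hL (Or.inr ⟨i, rfl⟩)
  let ζ' : L := ⟨ζ, hζL⟩
  let ρ' : Fin r → L := fun j => ⟨ρ j, hρL j⟩
  let β' : Fin e → L := fun i => ⟨β i, hβL i⟩
  have hζ' : IsPrimitiveRoot ζ' ℓ := by
    apply IsPrimitiveRoot.of_map_of_injective (f := algebraMap L ℂ) _ (algebraMap L ℂ).injective
    exact hζ
  let F₀ : IntermediateField ℚ L := F.comap L.val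
  have hF₀ : ∀ x : L, x ∈ F₀ ↔ (x : ℂ) ∈ F := fun x => Iff.rfl
  obtain ⟨σ, hσζ, hσρ, -, hσβ⟩ := exists_galois L F₀ ℓ ζ' hζ' ρ' β'
    (fun j h => hρ0 j (congrArg (fun z : L => (z : ℂ)) h))
    (fun i h => hβ0 i (congrArg (fun z : L => (z : ℂ)) h))
    (fun j => by
      rw [hF₀]
      push_cast
      show ρ j ^ ℓ ∈ F
      rw [hρ]
      exact hγF j)
    (fun i => by
      rw [hF₀]
      push_cast
      show β i ^ ℓ ∈ F
      rw [hβ]
      exact hbF i) (by omega) (by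
      intro i v c hc h
      apply hgood i ⟨(c : ℂ), hc⟩ v
      apply Subtype.ext
      have h1 := congrArg (algebraMap L ℂ) h
      rw [map_mul, map_pow, map_pow, map_prod] at h1
      simp only [map_zpow₀, map_pow] at h1
      have h2 : ∀ j, (algebraMap L ℂ (ρ' j)) ^ ℓ = γ j := fun j => hρ j
      have h3 : (algebraMap L ℂ (β' i)) ^ ℓ = b i := hβ i
      rw [h3] at h1
      simp only [h2] at h1
      have h4 : (((⟨b i, hbF i⟩ : F) * ∏ j, (⟨γ j, hγF j⟩ : F) ^ v j : F) : ℂ) =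
          b i * ∏ j, γ j ^ v j := by
        have h5 := map_prod (algebraMap F ℂ) (fun j => (⟨γ j, hγF j⟩ : F) ^ v j) Finset.univ
        simp only [map_zpow₀] at h5
        show b i * (algebraMap F ℂ) (∏ j, (⟨γ j, hγF j⟩ : F) ^ v j) = _
        rw [h5]
        rfl
      rw [h4]
      exact h1)
  -- the embedding
  let s' : Finset ℂ := s ∪ Finset.univ.image (fun j => (ρ j)⁻¹) ∪ Finset.univ.image (fun i => (β i)⁻¹) ∪
    Finset.univ.image (fun i => (((σ (β' i) : L) : ℂ) - β i)⁻¹) ∪ {(ζ - 1)⁻¹, ζ⁻¹}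
  let T : Finset L := {ζ'} ∪ Finset.univ.image ρ' ∪ Finset.univ.image β'
  obtain ⟨p, hp, hpB, τ, hτs, hτT⟩ := exists_frob_embedding L σ s' T (B + ℓ)
  have hs1 : ∀ x ∈ s, ‖τ x‖ ≤ 1 := fun x hx => hτs x (by simp only [s', Finset.mem_union]; tauto)
  have hρi : ∀ j, ‖τ (ρ j)⁻¹‖ ≤ 1 := fun j => hτs _ (by
    simp only [s', Finset.mem_union]
    exact Or.inl (Or.inl (Or.inl (Or.inr (Finset.mem_image_of_mem _ (Finset.mem_univ j))))))
  have hβi : ∀ i, ‖τ (β i)⁻¹‖ ≤ 1 := fun i => hτs _ (by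
    simp only [s', Finset.mem_union]
    exact Or.inl (Or.inl (Or.inr (Finset.mem_image_of_mem _ (Finset.mem_univ i)))))
  have hδi : ∀ i, ‖τ (((σ (β' i) : L) : ℂ) - β i)⁻¹‖ ≤ 1 := fun i => hτs _ (by
    simp only [s', Finset.mem_union]
    exact Or.inl (Or.inr (Finset.mem_image_of_mem (fun i => (((σ (β' i) : L) : ℂ) - β i)⁻¹) (Finset.mem_univ i))))
  have hζi : ‖τ (ζ - 1)⁻¹‖ ≤ 1 := hτs _ (by simp [s'])
  have hζi' : ‖τ ζ⁻¹‖ ≤ 1 := hτs _ (by simp [s'])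
  have hTζ : ζ' ∈ T := by simp [T]
  have hTρ : ∀ j, ρ' j ∈ T := fun j => by simp [T]
  have hTβ : ∀ i, β' i ∈ T := fun i => by simp [T]
  have hζ0 : ζ ≠ 0 := hζ.ne_zero hℓp.ne_zero
  have hζ1 : ζ ≠ 1 := hζ.ne_one hℓp.one_lt
  have nζ : ‖τ ζ‖ = 1 := norm_eq_one_of_inv τ hζ0 (hτT ζ' hTζ).1 hζi'
  have nρ : ∀ j, ‖τ (ρ j)‖ = 1 := fun j => norm_eq_one_of_inv τ (hρ0 j) (hτT _ (hTρ j)).1 (hρi j)
  have nβ : ∀ i, ‖τ (β i)‖ = 1 := fun i => norm_eq_one_of_inv τ (hβ0 i) (hτT _ (hTβ i)).1 (hβi i)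
  have nγ : ∀ j, ‖τ (γ j)‖ = 1 := by
    intro j
    rw [← hρ j, map_pow, norm_pow, nρ, one_pow]
  have nb : ∀ i, ‖τ (b i)‖ = 1 := by
    intro i
    rw [← hβ i, map_pow, norm_pow, nβ, one_pow]
  have nζ1 : ¬ ‖τ (ζ - 1)‖ < 1 := by
    intro hlt
    rw [map_inv₀, norm_inv] at hζi
    have h3 : 0 < ‖τ (ζ - 1)‖ := norm_pos_iff.2 (by
      rw [Ne, map_eq_zero, sub_eq_zero]
      exact hζ1)
    exact absurd hζi (not_le.2 ((one_lt_inv₀ h3).2 hlt))
  have nδ : ∀ i, ¬ ‖τ (((σ (β' i) : L) : ℂ) - β i)‖ < 1 := by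
    intro i hlt
    have h0 := hδi i
    rw [map_inv₀, norm_inv] at h0
    have h3 : 0 < ‖τ (((σ (β' i) : L) : ℂ) - β i)‖ := norm_pos_iff.2 (by
      rw [Ne, map_eq_zero, sub_eq_zero]
      intro h
      exact hσβ i (Subtype.ext h))
    exact absurd h0 (not_le.2 ((one_lt_inv₀ h3).2 hlt))
  -- the residue classes
  have hp0 := hp.out.pos
  set zb := ru (τ ζ) nζ with hzb
  have fermat : ∀ (x : ℂ) (hx : ‖τ x‖ = 1) (hfrob : ‖τ x - τ x ^ p‖ < 1), ru (τ x) hx ^ (p - 1) = 1 := by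
    intro x hx hfrob
    have h1 : ru (τ x) hx ^ p = ru (τ x) hx := by
      rw [← ru_pow, eq_comm, ru_eq_iff]
      exact hfrob
    have h2 : ru (τ x) hx ^ (p - 1) * ru (τ x) hx = 1 * ru (τ x) hx := by
      rw [← pow_succ, one_mul, Nat.sub_add_cancel hp0]
      exact h1
    exact mul_right_cancel h2
  have z1 : zb ^ (p - 1) = 1 := by
    apply fermat
    have := (hτT ζ' hTζ).2
    rw [hσζ] at this
    exact this
  have zl : zb ^ ℓ = 1 := by
    rw [hzb, ← ru_pow]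
    have h1 : ru (1 : PadicAlgCl p) norm_one = 1 := by
      apply Units.ext
      show res (PadicAlgCl p) ⟨1, _⟩ = 1
      exact map_one (res (PadicAlgCl p))
    rw [← h1, ru_eq_iff, ← map_pow, hζ.pow_eq_one, map_one, sub_self, norm_zero]
    exact one_pos
  have zne : zb ≠ 1 := by
    have h1 : ru (1 : PadicAlgCl p) norm_one = 1 := by
      apply Units.ext
      show res (PadicAlgCl p) ⟨1, _⟩ = 1
      exact map_one (res (PadicAlgCl p))
    rw [hzb, ← h1, Ne, ru_eq_iff, ← map_one τ, ← map_sub]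
    exact nζ1
  have hdvd : ℓ ∣ p - 1 := by
    rw [← orderOf_eq_prime zl zne]
    exact orderOf_dvd_of_pow_eq_one z1
  obtain ⟨q, hq⟩ := hdvd
  have rγ : ∀ j, ru (τ (γ j)) (nγ j) ^ q = 1 := by
    intro j
    have h1 : ru (τ (γ j)) (nγ j) = ru (τ (ρ j)) (nρ j) ^ ℓ := by
      rw [← ru_pow]
      congr 1
      rw [← map_pow, hρ]
    rw [h1, ← pow_mul, ← hq]
    apply fermat
    have := (hτT _ (hTρ j)).2
    rw [hσρ] at this
    exact this
  have rb : ∀ i, ru (τ (b i)) (nb i) ^ q ≠ 1 := by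
    intro i
    have h1 : ru (τ (b i)) (nb i) = ru (τ (β i)) (nβ i) ^ ℓ := by
      rw [← ru_pow]
      congr 1
      rw [← map_pow, hβ]
    rw [h1, ← pow_mul, ← hq]
    intro h2
    have h3 : ru (τ (β i)) (nβ i) ^ p = ru (τ (β i)) (nβ i) := by
      have h4 : ru (τ (β i)) (nβ i) ^ p = ru (τ (β i)) (nβ i) ^ (p - 1) * ru (τ (β i)) (nβ i) := by
        rw [← pow_succ, Nat.sub_add_cancel hp0]
      rw [h4, h2, one_mul]
    rw [← ru_pow, ru_eq_iff] at h3
    apply nδ i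
    have h5 := (hτT _ (hTβ i)).2
    have h6 : τ (((σ (β' i) : L) : ℂ) - β i) =
        (τ ((σ (β' i) : L) : ℂ) - τ (β i) ^ p) + (τ (β i) ^ p - τ (β i)) := by
      rw [map_sub]
      ring
    rw [h6]
    exact norm_add_lt' h5 h3
  refine ⟨p, hp, by omega, τ, hs1, nγ, nb, fun i v => ?_⟩
  have e1 : τ (∏ j, γ j ^ v j) = ∏ j, τ (γ j) ^ v j := by
    rw [map_prod]
    simp only [map_zpow₀]
  have e2 : ‖∏ j, τ (γ j) ^ v j‖ = 1 := norm_zprod _ nγ v
  have hle : ‖τ (b i - ∏ j, γ j ^ v j)‖ ≤ 1 := by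
    rw [map_sub, e1, sub_eq_add_neg]
    refine (IsUltrametricDist.norm_add_le_max _ _).trans (max_le (nb i).le ?_)
    rw [norm_neg]
    exact e2.le
  apply le_antisymm hle
  by_contra hlt
  rw [not_le, map_sub, e1] at hlt
  rw [← ru_eq_iff _ _ (nb i) e2] at hlt
  apply rb i
  rw [hlt, ru_zprod (fun j => τ (γ j)) nγ v e2, ← Finset.prod_pow]
  apply Finset.prod_eq_one
  intro j _
  rw [← zpow_natCast, ← zpow_mul, mul_comm, zpow_mul, zpow_natCast, rγ, one_zpow]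

end Pool.Agent.H864.Kum
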