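import Mathlib

set_option autoImplicit false

/-! Homogeneous polynomials without a common zero: the polynomial ring is finite over the
subring which is generated by them. -/

namespace Pool.Agent.H864.PN

open MvPolynomial

/-- A Nullstellensatz certificate. -/
theorem exists_cert {σ K : Type} [Fintype σ] [Field K] [IsAlgClosed K] (F : σ → MvPolynomial σ K)
    (h : ∀ z : σ → K, (∀ i, eval z (F i) = 0) → z = 0) :
    ∃ m : ℕ, ∀ i, (X i : MvPolynomial σ K) ^ m ∈ Ideal.span (Set.range F) := by
  classical
  have h1 : ∀ i, ∃ m : ℕ, (X i : MvPolynomial σ K) ^ m ∈ Ideal.span (Set.range F) := by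
    intro i
    have h2 : (X i : MvPolynomial σ K) ∈ (Ideal.span (Set.range F)).radical := by
      rw [← vanishingIdeal_zeroLocus_eq_radical (K := K), mem_vanishingIdeal_iff]
      intro z hz
      rw [mem_zeroLocus_iff] at hz
      have h3 : z = 0 := by
        apply h
        intro j
        exact hz (F j) (Ideal.subset_span ⟨j, rfl⟩)
      rw [h3, aeval_X]
      rfl
    exact h2
  choose m hm using h1
  refine ⟨Finset.univ.sup m, fun i => ?_⟩
  have h2 : m i ≤ Finset.univ.sup m := Finset.le_sup (Finset.mem_univ i)
  rw [← Nat.sub_add_cancel h2, pow_add]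
  exact Ideal.mul_mem_left _ _ (hm i)

section finite

variable {σ R : Type} [Fintype σ] [CommRing R]

omit [Fintype σ] in
lemma homogeneousComponent_mul_of {B H : MvPolynomial σ R} {D N : ℕ} (hH : H.IsHomogeneous D)
    (hN : D ≤ N) :
    homogeneousComponent N (B * H) = homogeneousComponent (N - D) B * H := by
  conv_lhs => rw [← sum_homogeneousComponent B]
  rw [Finset.sum_mul, map_sum]
  have h1 : ∀ k, homogeneousComponent N (homogeneousComponent k B * H) =
      if k = N - D then homogeneousComponent k B * H else 0 := by
    intro k
    have h2 : homogeneousComponent k B * H ∈ homogeneousSubmodule σ R (k + D) :=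
      (homogeneousComponent_isHomogeneous k B).mul hH
    rw [homogeneousComponent_of_mem h2]
    by_cases hk : k = N - D
    · rw [if_pos hk, if_pos (by omega)]
    · rw [if_neg hk, if_neg (by omega)]
  rw [Finset.sum_congr rfl fun k _ => h1 k, Finset.sum_ite_eq']
  split_ifs with h3
  · rfl
  · rw [homogeneousComponent_eq_zero, zero_mul]
    rw [Finset.mem_range] at h3
    omega

/-- **Finiteness.** -/
theorem finite_of_cert (H E : σ → MvPolynomial σ R) (D e : ℕ) (hD : e < D)
    (hH : ∀ i, (H i).IsHomogeneous D) (hE : ∀ i, (E i).IsHomogeneous e) (m : ℕ)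
    (hm : ∀ i, (X i : MvPolynomial σ R) ^ m ∈ Ideal.span (Set.range H)) :
    Module.Finite (Algebra.adjoin R (Set.range fun i => H i - E i)) (MvPolynomial σ R) := by
  classical
  set S := Algebra.adjoin R (Set.range fun i => H i - E i) with hS
  set M := Fintype.card σ * m + D with hM
  set W : Submodule S (MvPolynomial σ R) :=
    Submodule.span S ((fun μ : σ →₀ ℕ => monomial μ (1 : R)) '' {μ | μ.degree < M}) with hW
  have hsmul : ∀ (r : R) (u : MvPolynomial σ R), u ∈ W → C r * u ∈ W := by
    intro r u hu
    have h1 : C r * u = (algebraMap R S r) • u := by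
      rw [Algebra.smul_def]
      rfl
    rw [h1]
    exact W.smul_mem _ hu
  -- membership of high degree forms in the ideal
  have hmem : ∀ N, M ≤ N → ∀ u : MvPolynomial σ R, u.IsHomogeneous N →
      u ∈ Ideal.span (Set.range H) := by
    intro N hN u hu
    rw [u.as_sum]
    apply Ideal.sum_mem
    intro μ hμ
    have hdeg : μ.degree = N := by
      have h1 := hu (mem_support_iff.1 hμ)
      rw [Finsupp.degree_eq_weight_one]
      exact h1
    have hex : ∃ i, m ≤ μ i := by
      by_contra hcon
      push Not at hcon
      have h2 : μ.degree ≤ Fintype.card σ * m := by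
        rw [Finsupp.degree_eq_sum]
        calc ∑ i, μ i ≤ ∑ _i : σ, m := Finset.sum_le_sum fun i _ => (hcon i).le
          _ = Fintype.card σ * m := by rw [Finset.sum_const, Finset.card_univ, smul_eq_mul]
      omega
    obtain ⟨i, hi⟩ := hex
    have h3 : monomial μ (coeff μ u) = monomial (μ - Finsupp.single i m) (coeff μ u) * X i ^ m := by
      rw [X_pow_eq_monomial, monomial_mul, mul_one]
      congr 1
      rw [tsub_add_cancel_of_le]
      rwa [Finsupp.single_le_iff]
    rw [h3]
    exact Ideal.mul_mem_left _ _ (hm i)
  have hmain : ∀ N, ∀ u : MvPolynomial σ R, u.IsHomogeneous N → u ∈ W := by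
    intro N
    induction N using Nat.strong_induction_on with
    | _ N ih =>
      intro u hu
      by_cases hN : N < M
      · rw [u.as_sum]
        apply Submodule.sum_mem
        intro μ hμ
        have hdeg : μ.degree = N := by
          have h1 := hu (mem_support_iff.1 hμ)
          rw [Finsupp.degree_eq_weight_one]
          exact h1
        have h3 : monomial μ (coeff μ u) = C (coeff μ u) * monomial μ 1 := by
          rw [C_mul_monomial, mul_one]
        rw [h3]
        apply hsmul
        apply Submodule.subset_span
        exact ⟨μ, by show μ.degree < M; omega, rfl⟩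
      · push Not at hN
        have h1 := hmem N hN u hu
        rw [Ideal.mem_span_range_iff_exists_fun] at h1
        obtain ⟨B, hB⟩ := h1
        have h2 : u = ∑ j, homogeneousComponent (N - D) (B j) * H j := by
          have h3 := congrArg (homogeneousComponent N) hB
          rw [homogeneousComponent_of_mem (hu : u ∈ homogeneousSubmodule σ R N), if_pos rfl,
            map_sum] at h3
          rw [← h3]
          apply Finset.sum_congr rfl
          intro j _
          exact homogeneousComponent_mul_of (hH j) (by omega)
        rw [h2]
        apply Submodule.sum_mem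
        intro j _
        have h4 : homogeneousComponent (N - D) (B j) * H j =
            (⟨H j - E j, Algebra.subset_adjoin ⟨j, rfl⟩⟩ : S) • homogeneousComponent (N - D) (B j) +
              homogeneousComponent (N - D) (B j) * E j := by
          rw [Algebra.smul_def]
          show _ = (H j - E j) * _ + _
          ring
        rw [h4]
        apply Submodule.add_mem
        · apply Submodule.smul_mem
          exact ih (N - D) (by omega) _ (homogeneousComponent_isHomogeneous _ _)
        · exact ih (N - D + e) (by omega) _ ((homogeneousComponent_isHomogeneous _ _).mul (hE j))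
  have htop : W = ⊤ := by
    rw [eq_top_iff]
    intro u _
    rw [← sum_homogeneousComponent u]
    apply Submodule.sum_mem
    intro k _
    exact hmain k _ (homogeneousComponent_isHomogeneous k u)
  rw [Module.finite_def]
  refine ⟨((Finsupp.finite_of_degree_lt M).image fun μ : σ →₀ ℕ => monomial μ (1 : R)).toFinset, ?_⟩
  rw [Set.Finite.coe_toFinset]
  exact htop

/-- Algebraic independence from finiteness. -/
theorem indep_of_finite [IsDomain R] (G : σ → MvPolynomial σ R)
    (h : Module.Finite (Algebra.adjoin R (Set.range G)) (MvPolynomial σ R)) :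
    AlgebraicIndependent R G := by
  have h1 : Algebra.IsIntegral (Algebra.adjoin R (Set.range G)) (MvPolynomial σ R) :=
    Algebra.IsIntegral.of_finite _ _
  have h2 : Algebra.IsAlgebraic (Algebra.adjoin R (Set.range G)) (MvPolynomial σ R) := inferInstance
  refine (Algebra.IsAlgebraic.isTranscendenceBasis_of_le_trdeg_of_finite R G ?_).1
  rw [MvPolynomial.trdeg_of_isDomain]
  simp

end finite

section normal

/-- Polynomial rings over integrally closed domains. -/
theorem isIntegrallyClosed_mv (R σ : Type) [CommRing R] [IsDomain R] [IsIntegrallyClosed R]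
    [Finite σ] : IsIntegrallyClosed (MvPolynomial σ R) := by
  revert R
  refine Finite.induction_empty_option (P := fun σ : Type => ∀ (R : Type) [CommRing R] [IsDomain R]
    [IsIntegrallyClosed R], IsIntegrallyClosed (MvPolynomial σ R)) ?_ ?_ ?_ σ
  · intro α β e ih R _ _ _
    have := ih R
    exact IsIntegrallyClosed.of_equiv (renameEquiv R e).toRingEquiv
  · intro R _ _ _
    exact IsIntegrallyClosed.of_equiv (isEmptyAlgEquiv R PEmpty).symm.toRingEquiv
  · intro α _ ih R _ _ _
    have := ih R
    exact IsIntegrallyClosed.of_equiv (optionEquivLeft R α).symm.toRingEquiv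

end normal

end Pool.Agent.H864.PN
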