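import Pool.Agent.H864.PNa

set_option autoImplicit false

/-! Lifting of the zeros of finite systems of polynomials over valuation rings, by the going-down
theorem. -/

namespace Pool.Agent.H864.PN

open MvPolynomial

theorem lift_zero {V K k σ : Type} [Fintype σ] [CommRing V] [IsDomain V] [IsIntegrallyClosed V]
    [Field K] [IsAlgClosed K] [Algebra V K] [IsFractionRing V K] [Field k]
    (G : σ → MvPolynomial σ V)
    (hfin : Module.Finite (Algebra.adjoin V (Set.range G)) (MvPolynomial σ V))
    (φ : MvPolynomial σ V →+* k) (hφ : ∀ i, φ (G i) = 0) :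
    ∃ ξ : σ → V, (∀ i, eval ξ (G i) = 0) ∧ ∀ u, φ u = φ (C (eval ξ u)) := by
  classical
  have hind : AlgebraicIndependent V G := indep_of_finite G hfin
  let S := Algebra.adjoin V (Set.range G)
  let e : MvPolynomial σ V ≃ₐ[V] S := hind.aevalEquiv
  have he : ∀ p, ((e p : S) : MvPolynomial σ V) = aeval G p := fun p => hind.algebraMap_aevalEquiv p
  have hnV : IsIntegrallyClosed (MvPolynomial σ V) := isIntegrallyClosed_mv V σ
  have hnS : IsIntegrallyClosed S := IsIntegrallyClosed.of_equiv e.toRingEquiv
  have hint : Algebra.IsIntegral S (MvPolynomial σ V) := Algebra.IsIntegral.of_finite _ _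
  -- the prime ideal of the zeros of `G`
  let π : S →+* V := (constantCoeff : MvPolynomial σ V →+* V).comp e.symm.toRingEquiv.toRingHom
  have hπ : ∀ p, π (e p) = constantCoeff p := fun p => by
    show constantCoeff (e.symm (e p)) = _
    rw [AlgEquiv.symm_apply_apply]
  have hφS : ∀ s : S, φ (s : MvPolynomial σ V) = φ (C (π s)) := by
    intro s
    obtain ⟨p, rfl⟩ := e.surjective s
    rw [hπ, he]
    have h1 : φ (aeval G p) = eval₂ (φ.comp C) (fun i => φ (G i)) p := by
      exact eval₂_comp_left φ (algebraMap V (MvPolynomial σ V)) G p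
    rw [h1]
    have h2 : (fun i => φ (G i)) = fun _ => 0 := funext hφ
    rw [h2]
    have h3 := eval₂_zero'_apply (φ.comp C) p
    exact h3
  let p0 : Ideal S := RingHom.ker π
  have hp0 : p0.IsPrime := RingHom.ker_isPrime π
  let Q : Ideal (MvPolynomial σ V) := RingHom.ker φ
  have hQ : Q.IsPrime := RingHom.ker_isPrime φ
  have hle : p0 ≤ Q.under S := by
    intro s hs
    show φ (s : MvPolynomial σ V) = 0
    have h1 : π s = 0 := hs
    rw [hφS, h1, C_0, map_zero]
  obtain ⟨P, hPQ, hP, hPo⟩ := Ideal.exists_ideal_le_liesOver_of_le (p := p0) (q := Q.under S) Q hle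
  have hPmem : ∀ s : S, (s : MvPolynomial σ V) ∈ P ↔ π s = 0 := by
    intro s
    have h1 : s ∈ p0 ↔ s ∈ P.under S := by rw [hPo.over]
    exact h1.symm
  have hG : ∀ i, G i ∈ P := by
    intro i
    have h1 := (hPmem (e (X i))).2 (by rw [hπ, constantCoeff_X])
    rwa [he, aeval_X] at h1
  have hC : ∀ v : V, C v ∈ P → v = 0 := by
    intro v hv
    have h1 : ((e (C v) : S) : MvPolynomial σ V) = C v := by
      rw [he, aeval_C]
      rfl
    rw [← h1, hPmem, hπ, constantCoeff_C] at hv
    exact hv
  -- the quotient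
  let B := MvPolynomial σ V ⧸ P
  let mk : MvPolynomial σ V →+* B := Ideal.Quotient.mk P
  have hmkS : ∀ s : S, mk (s : MvPolynomial σ V) = mk (C (π s)) := by
    intro s
    rw [Ideal.Quotient.eq]
    have h1 : (s : MvPolynomial σ V) - C (π s) = ((s - algebraMap V S (π s) : S) : MvPolynomial σ V) := rfl
    rw [h1, hPmem, map_sub, sub_eq_zero]
    have h2 : algebraMap V S (π s) = e (C (π s)) := by
      apply Subtype.ext
      rw [he, aeval_C]
      rfl
    rw [h2, hπ, constantCoeff_C]
  have hBint : Algebra.IsIntegral V B := by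
    refine ⟨fun b => ?_⟩
    obtain ⟨a, rfl⟩ := Ideal.Quotient.mk_surjective b
    obtain ⟨q, hq, hqa⟩ := hint.isIntegral a
    refine ⟨q.map π, hq.map π, ?_⟩
    rw [Polynomial.eval₂_map]
    have h1 : (algebraMap V B).comp π = mk.comp (algebraMap S (MvPolynomial σ V)) := by
      apply RingHom.ext
      intro s
      exact (hmkS s).symm
    rw [h1, ← Polynomial.hom_eval₂, hqa, map_zero]
  have hBdom : IsDomain B := Ideal.Quotient.isDomain P
  have hinjB : Function.Injective (algebraMap V B) := by
    rw [injective_iff_map_eq_zero]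
    intro v hv
    exact hC v (Ideal.Quotient.eq_zero_iff_mem.1 hv)
  have htf : Module.IsTorsionFree V B := by
    rw [Module.isTorsionFree_iff_faithfulSMul]
    exact (faithfulSMul_iff_algebraMap_injective V B).2 hinjB
  have htK : Module.IsTorsionFree V K := by
    rw [Module.isTorsionFree_iff_faithfulSMul]
    exact (faithfulSMul_iff_algebraMap_injective V K).2 (IsFractionRing.injective V K)
  let ψ : B →ₐ[V] K := IsAlgClosed.lift
  have hψ : Function.Injective ψ := by
    rw [injective_iff_map_eq_zero]
    intro b hb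
    by_contra hb0
    obtain ⟨r, hr, c, hc⟩ := (Algebra.IsAlgebraic.isAlgebraic (R := V) b).exists_nonzero_dvd
      (mem_nonZeroDivisors_of_ne_zero hb0)
    apply hr
    apply IsFractionRing.injective V K
    rw [← ψ.commutes, hc, map_mul, hb, zero_mul, map_zero]
  have hex : ∀ i, ∃ v : V, algebraMap V K v = ψ (mk (X i)) := by
    intro i
    rw [← IsIntegrallyClosed.isIntegral_iff]
    exact (hBint.isIntegral (mk (X i))).map ψ
  choose ξ hξ using hex
  have hX : ∀ i, mk (X i) = mk (C (ξ i)) := by
    intro i
    apply hψ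
    rw [← hξ]
    exact (ψ.commutes (ξ i)).symm
  have hmk : ∀ u, mk u = mk (C (eval ξ u)) := by
    intro u
    induction u using MvPolynomial.induction_on with
    | C a => rw [eval_C]
    | add p q hp hq => rw [map_add, hp, hq, map_add, C_add, map_add]
    | mul_X p i hp => rw [map_mul, hp, hX, map_mul, eval_X, C_mul, map_mul]
  refine ⟨ξ, fun i => ?_, fun u => ?_⟩
  · apply hC
    rw [← Ideal.Quotient.eq_zero_iff_mem]
    have h1 := hmk (G i)
    rw [show mk (G i) = 0 from Ideal.Quotient.eq_zero_iff_mem.2 (hG i)] at h1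
    exact h1.symm
  · have h1 : u - C (eval ξ u) ∈ P := by
      rw [← Ideal.Quotient.eq]
      exact hmk u
    have h2 : φ (u - C (eval ξ u)) = 0 := hPQ h1
    rw [map_sub, sub_eq_zero] at h2
    exact h2

end Pool.Agent.H864.PN
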