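import Pool.Agent.H864.PNb
import Pool.Agent.H864.EmbDML

set_option autoImplicit false

/-! Étale periodic points of endomorphisms of projective space. -/

namespace Pool.Agent.H864.PN

open MvPolynomial Pool.Agent.H936R2 Pool.Agent.H864.BS Pool.Agent.H864.Pad

section iter

variable {σ R : Type} [CommRing R]

lemma it_homogeneous (f : σ → MvPolynomial σ R) (d : ℕ) (hf : ∀ i, (f i).IsHomogeneous d) (n : ℕ)
    (i : σ) : (it f n i).IsHomogeneous (d ^ n) := by
  induction n generalizing i with
  | zero => simpa [it] using isHomogeneous_X R i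
  | succ n ih =>
    rw [it, pow_succ, mul_comm]
    exact (ih i).aeval f hf

lemma bind_it_succ (f : σ → MvPolynomial σ R) (n : ℕ) (u : MvPolynomial σ R) :
    bind₁ (it f (n + 1)) u = bind₁ f (bind₁ (it f n) u) := by
  rw [bind₁_bind₁]
  rfl

lemma bind_it_injective (f : σ → MvPolynomial σ R) (h : Function.Injective (bind₁ f)) (n : ℕ) :
    Function.Injective (bind₁ (it f n)) := by
  induction n with
  | zero =>
    intro u v huv
    have h1 : ∀ w : MvPolynomial σ R, bind₁ (it f 0) w = w := fun w => by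
      show bind₁ X w = w
      rw [bind₁_X_left]
      rfl
    rwa [h1, h1] at huv
  | succ n ih =>
    intro u v huv
    rw [bind_it_succ, bind_it_succ] at huv
    exact ih (h huv)

lemma cert_it [Finite σ] (f : σ → MvPolynomial σ R) (m : ℕ)
    (hm : ∀ i, (X i : MvPolynomial σ R) ^ m ∈ Ideal.span (Set.range f)) (n : ℕ) :
    ∃ m' : ℕ, ∀ i, (X i : MvPolynomial σ R) ^ m' ∈ Ideal.span (Set.range (it f n)) := by
  classical
  have := Fintype.ofFinite σ
  have hrad : ∀ i, (X i : MvPolynomial σ R) ∈ (Ideal.span (Set.range (it f n))).radical := by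
    induction n with
    | zero =>
      intro i
      exact Ideal.le_radical (Ideal.subset_span ⟨i, rfl⟩)
    | succ n ih =>
      have h1 : ∀ i, f i ∈ (Ideal.span (Set.range (it f (n + 1)))).radical := by
        intro i
        obtain ⟨k, hk⟩ := ih i
        refine ⟨k, ?_⟩
        have h2 : (bind₁ f).toRingHom (X i ^ k) ∈
            (Ideal.span (Set.range (it f n))).map (bind₁ f).toRingHom := Ideal.mem_map_of_mem _ hk
        rw [Ideal.map_span] at h2
        have h3 : (bind₁ f).toRingHom (X i ^ k) = f i ^ k := by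
          show bind₁ f (X i ^ k) = _
          rw [map_pow, bind₁_X_right]
        rw [h3] at h2
        refine Ideal.span_mono ?_ h2
        rintro _ ⟨_, ⟨j, rfl⟩, rfl⟩
        exact ⟨j, rfl⟩
      intro i
      have h2 : Ideal.span (Set.range f) ≤ (Ideal.span (Set.range (it f (n + 1)))).radical := by
        rw [Ideal.span_le]
        rintro _ ⟨j, rfl⟩
        exact h1 j
      have h3 := h2 (hm i)
      rw [← Ideal.radical_idem]
      exact ⟨m, h3⟩
  have h1 : ∀ i, ∃ k : ℕ, (X i : MvPolynomial σ R) ^ k ∈ Ideal.span (Set.range (it f n)) := hrad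
  choose k hk using h1
  refine ⟨Finset.univ.sup k, fun i => ?_⟩
  have h2 : k i ≤ Finset.univ.sup k := Finset.le_sup (Finset.mem_univ i)
  rw [← Nat.sub_add_cancel h2, pow_add]
  exact Ideal.mul_mem_left _ _ (hk i)

end iter

/-- The valuation ring of an embedding. -/
noncomputable def valRing {p : ℕ} [Fact p.Prime] (τ : ℂ →+* PadicAlgCl p) : ValuationSubring ℂ :=
  { (unitBall (PadicAlgCl p)).comap τ with
    mem_or_inv_mem' := by
      intro x
      by_cases h : ‖τ x‖ ≤ 1
      · exact Or.inl h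
      · right
        show ‖τ x⁻¹‖ ≤ 1
        push Not at h
        rw [map_inv₀, norm_inv]
        exact inv_le_one_of_one_le₀ h.le }

lemma mem_valRing {p : ℕ} [Fact p.Prime] (τ : ℂ →+* PadicAlgCl p) (x : ℂ) :
    x ∈ valRing τ ↔ ‖τ x‖ ≤ 1 := Iff.rfl

/-- **Étale periodic points**, relative to an embedding for which everything has good reduction. -/
theorem exists_etale_periodic {σ : Type} [Fintype σ] [DecidableEq σ] {p : ℕ} [hp : Fact p.Prime]
    (τ : ℂ →+* PadicAlgCl p) (F : σ → MvPolynomial σ ℂ) (d : ℕ) (hd : 2 ≤ d)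
    (hF : ∀ i, (F i).IsHomogeneous d) (hFV : ∀ i m, ‖τ ((F i).coeff m)‖ ≤ 1) (m : ℕ)
    (A : σ → σ → MvPolynomial σ ℂ) (hA : ∀ i, (X i : MvPolynomial σ ℂ) ^ m = ∑ j, A i j * F j)
    (hAV : ∀ i j l, ‖τ ((A i j).coeff l)‖ ≤ 1) (P : MvPolynomial σ ℂ)
    (hPV : ∀ l, ‖τ (P.coeff l)‖ ≤ 1) (l₀ : σ →₀ ℕ) (hPu : ‖τ (P.coeff l₀)‖ = 1)
    (P₁ : MvPolynomial σ (ResF (PadicAlgCl p))) (hP₁ : P₁ ≠ 0) :
    ∃ (s : ℕ) (ξ : σ → ℂ), 0 < s ∧ (pt F)^[s] ξ = ξ ∧ (∀ i, ‖τ (ξ i)‖ ≤ 1) ∧
      (∀ n, ‖τ (eval ((pt F)^[n] ξ) P)‖ = 1) ∧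
      ∀ b : σ → unitBall (PadicAlgCl p), (∀ i, (b i : PadicAlgCl p) = τ (ξ i)) →
        eval (fun i => res (PadicAlgCl p) (b i)) P₁ ≠ 0 := by
  classical
  have := charP_resF (p := p)
  have := isAlgClosed_resF (p := p)
  have hpp := hp.out
  let V := valRing τ
  let ρ : V →+* unitBall (PadicAlgCl p) := (τ.comp V.subtype).codRestrict _ fun x => x.2
  let ρ' : V →+* ResF (PadicAlgCl p) := (res (PadicAlgCl p)).comp ρ
  have hρ0 : ∀ x : V, ρ' x = 0 ↔ ‖τ (x : ℂ)‖ < 1 := fun x => res_eq_zero_iff _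
  choose fV hfV using fun i => exists_lift V.subtype (F i) fun l => ⟨⟨_, hFV i l⟩, rfl⟩
  choose AV hAV' using fun i => fun j => exists_lift V.subtype (A i j) fun l => ⟨⟨_, hAV i j l⟩, rfl⟩
  obtain ⟨PV, hPV'⟩ := exists_lift V.subtype P fun l => ⟨⟨_, hPV l⟩, rfl⟩
  have hinj : Function.Injective (map V.subtype : MvPolynomial σ V →+* MvPolynomial σ ℂ) :=
    map_injective _ Subtype.val_injective
  have hcertV : ∀ i, (X i : MvPolynomial σ V) ^ m ∈ Ideal.span (Set.range fV) := by
    intro i
    rw [Ideal.mem_span_range_iff_exists_fun]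
    refine ⟨AV i, ?_⟩
    apply hinj
    rw [map_sum, map_pow, map_X, hA i]
    apply Finset.sum_congr rfl
    intro j _
    rw [map_mul, hAV', hfV]
  have hfVhom : ∀ i, (fV i).IsHomogeneous d := by
    intro i
    apply IsHomogeneous.of_map (f := V.subtype) Subtype.val_injective
    rw [hfV]
    exact hF i
  -- the reduction
  set fb : σ → MvPolynomial σ (ResF (PadicAlgCl p)) := fun i => map ρ' (fV i) with hfb
  set Pb : MvPolynomial σ (ResF (PadicAlgCl p)) := map ρ' PV with hPb
  have hcertb : ∀ i, (X i : MvPolynomial σ (ResF (PadicAlgCl p))) ^ m ∈ Ideal.span (Set.range fb) := by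
    intro i
    have h1 : (map ρ') (X i ^ m) ∈ (Ideal.span (Set.range fV)).map (map ρ') :=
      Ideal.mem_map_of_mem _ (hcertV i)
    rw [Ideal.map_span, map_pow, map_X] at h1
    refine Ideal.span_mono ?_ h1
    rintro _ ⟨_, ⟨j, rfl⟩, rfl⟩
    exact ⟨j, rfl⟩
  have hfbhom : ∀ i, (fb i).IsHomogeneous d := fun i => (hfVhom i).map ρ'
  have hindb : AlgebraicIndependent (ResF (PadicAlgCl p)) fb := by
    apply indep_of_finite
    have h1 := finite_of_cert fb (fun _ => 0) d 0 (by omega) hfbhom (fun _ => isHomogeneous_zero _ _ 0) m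
      hcertb
    have h2 : (fun i => fb i - (0 : MvPolynomial σ (ResF (PadicAlgCl p)))) = fb :=
      funext fun i => sub_zero _
    rw [h2] at h1
    exact h1
  have hinjb : Function.Injective (bind₁ fb) := by
    have h1 := algebraicIndependent_iff_injective_aeval.1 hindb
    exact h1
  have hPb0 : Pb ≠ 0 := by
    intro h0
    have h1 : coeff l₀ Pb = 0 := by rw [h0, coeff_zero]
    rw [hPb, coeff_map, hρ0] at h1
    have h2 : ((coeff l₀ PV : V) : ℂ) = coeff l₀ P := by
      rw [← hPV', coeff_map]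
      rfl
    rw [h2] at h1
    exact absurd hPu h1.ne
  set M := Fintype.card σ with hM
  set Q := Pb * P₁ with hQ
  have hQ0 : Q ≠ 0 := mul_ne_zero hPb0 hP₁
  have hGb : bind₁ (it fb M) Q ≠ 0 := by
    intro h0
    apply hQ0
    apply bind_it_injective fb hinjb M
    rw [h0, map_zero]
  -- a power of Frobenius which fixes everything
  let t : Finset (ResF (PadicAlgCl p)) :=
    (Finset.univ.biUnion fun i => (fb i).support.image fun m => (fb i).coeff m) ∪
      Q.support.image fun m => Q.coeff m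
  obtain ⟨r, hr, htr⟩ := exists_frob_fixed_finset t
  have hfixf : ∀ i, map (iterateFrobenius (ResF (PadicAlgCl p)) p r) (fb i) = fb i := by
    intro i
    ext m
    rw [coeff_map, iterateFrobenius_def]
    by_cases hm : m ∈ (fb i).support
    · apply htr
      apply Finset.mem_union_left
      exact Finset.mem_biUnion.2 ⟨i, Finset.mem_univ i, Finset.mem_image.2 ⟨m, hm, rfl⟩⟩
    · rw [MvPolynomial.notMem_support_iff.1 hm, zero_pow (pow_ne_zero _ hpp.ne_zero)]
  have hfixQ : map (iterateFrobenius (ResF (PadicAlgCl p)) p r) Q = Q := by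
    ext m
    rw [coeff_map, iterateFrobenius_def]
    by_cases hm : m ∈ Q.support
    · apply htr
      apply Finset.mem_union_right
      exact Finset.mem_image.2 ⟨m, hm, rfl⟩
    · rw [MvPolynomial.notMem_support_iff.1 hm, zero_pow (pow_ne_zero _ hpp.ne_zero)]
  have hpowfix : ∀ (u : MvPolynomial σ (ResF (PadicAlgCl p))),
      map (iterateFrobenius (ResF (PadicAlgCl p)) p r) u = u → ∀ j,
      map (iterateFrobenius (ResF (PadicAlgCl p)) p (r * j)) u = u := by
    intro u hu j
    induction j with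
    | zero =>
      have h1 : iterateFrobenius (ResF (PadicAlgCl p)) p (r * 0) = RingHom.id _ := by
        rw [Nat.mul_zero]
        exact iterateFrobenius_zero _ p
      rw [h1, MvPolynomial.map_id]
    | succ j ih =>
      have h1 : iterateFrobenius (ResF (PadicAlgCl p)) p (r * (j + 1)) =
          (iterateFrobenius (ResF (PadicAlgCl p)) p (r * j)).comp
            (iterateFrobenius (ResF (PadicAlgCl p)) p r) := by
        rw [Nat.mul_add, Nat.mul_one]
        exact iterateFrobenius_add _ p (r * j) r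
      rw [h1, ← MvPolynomial.map_map, hu, ih]
  obtain ⟨m0, hm0⟩ := exists_quasi_fixed p fb M le_rfl Q hGb r hr hfixf
  obtain ⟨a, ha, haQ⟩ := hm0 m0 le_rfl
  set e := r * m0 with he
  have horb : ∀ n, (pt fb)^[n] a = fun i => iterateFrobenius (ResF (PadicAlgCl p)) p (e * n) (a i) :=
    quasi_orbit p fb e (fun i => hpowfix _ (hfixf i) m0) a ha
  have hQa : eval a Q ≠ 0 := by
    intro h0
    apply haQ
    rw [eval_bind]
    have h1 : (fun i => eval a (it fb M i)) = fun i => iterateFrobenius (ResF (PadicAlgCl p)) p (e * M) (a i) := by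
      funext i
      rw [eval_it', horb]
    rw [h1]
    have h2 : map (iterateFrobenius (ResF (PadicAlgCl p)) p (e * M)) Q = Q := by
      rw [he, mul_assoc]
      exact hpowfix _ hfixQ _
    conv_lhs => rw [← h2]
    rw [eval_map', h0, map_zero]
  have hQorb : ∀ n, eval ((pt fb)^[n] a) Q ≠ 0 := by
    intro n
    rw [horb]
    have h2 : map (iterateFrobenius (ResF (PadicAlgCl p)) p (e * n)) Q = Q := by
      rw [he, mul_assoc]
      exact hpowfix _ hfixQ _
    rw [← h2, eval_map']
    intro h0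
    exact hQa ((iterateFrobenius (ResF (PadicAlgCl p)) p (e * n)).injective (by rw [h0, map_zero]))
  -- the point is periodic
  obtain ⟨s, hs, has⟩ := exists_frob_fixed_finset (Finset.univ.image a)
  have hper : (pt fb)^[s] a = a := by
    rw [horb]
    funext i
    have h1 : ∀ v, a i ^ p ^ (s * v) = a i := by
      intro v
      induction v with
      | zero => simp
      | succ v ih =>
        rw [Nat.mul_succ, pow_add, pow_mul, ih]
        exact has _ (Finset.mem_image_of_mem _ (Finset.mem_univ i))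
    show iterateFrobenius (ResF (PadicAlgCl p)) p (e * s) (a i) = a i
    rw [iterateFrobenius_def, mul_comm]
    exact h1 e
  -- the lifting
  obtain ⟨m', hm'⟩ := cert_it fV m hcertV s
  have hfin := finite_of_cert (it fV s) X (d ^ s) 1 (Nat.one_lt_pow hs.ne' (by omega))
    (it_homogeneous fV d hfVhom s) (fun i => isHomogeneous_X _ i) m' hm'
  let φ : MvPolynomial σ V →+* ResF (PadicAlgCl p) := eval₂Hom ρ' a
  have hφ : ∀ u, φ u = eval a (map ρ' u) := fun u => by
    rw [eval_map]
    rfl
  have hφG : ∀ i, φ (it fV s i - X i) = 0 := by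
    intro i
    rw [hφ, map_sub, map_it, map_X, map_sub, eval_X, eval_it']
    have h1 := congrFun hper i
    show (pt fb)^[s] a i - a i = 0
    rw [h1, sub_self]
  obtain ⟨ξ, hξ, hξφ⟩ := lift_zero (K := ℂ) (fun i => it fV s i - X i) hfin φ hφG
  have hξa : ∀ i, ρ' (ξ i) = a i := by
    intro i
    have h1 := hξφ (X i)
    rw [eval_X] at h1
    have h2 : φ (X i) = a i := eval₂Hom_X' ρ' a i
    have h3 : φ (C (ξ i)) = ρ' (ξ i) := eval₂Hom_C ρ' a (ξ i)
    rw [h2, h3] at h1
    exact h1.symm
  have horbV : ∀ n, (fun i => ρ' ((pt fV)^[n] ξ i)) = (pt fb)^[n] a := by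
    intro n
    rw [← pt_map]
    congr 1
    funext i
    exact hξa i
  have horbC : ∀ n, (fun i => (((pt fV)^[n] ξ i : V) : ℂ)) = (pt F)^[n] fun i => (ξ i : ℂ) := by
    intro n
    have h1 := pt_map V.subtype fV ξ n
    have h2 : (fun i => map V.subtype (fV i)) = F := funext hfV
    rw [h2] at h1
    exact h1.symm
  refine ⟨s, fun i => (ξ i : ℂ), hs, ?_, fun i => (ξ i).2, fun n => ?_, fun b hb => ?_⟩
  · rw [← horbC]
    funext i
    have h1 := hξ i
    rw [map_sub, eval_X, eval_it', sub_eq_zero] at h1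
    exact congrArg _ h1
  · rw [← horbC]
    have h1 : eval (fun i => (((pt fV)^[n] ξ i : V) : ℂ)) P = ((eval ((pt fV)^[n] ξ) PV : V) : ℂ) := by
      rw [← hPV']
      exact eval_map' V.subtype _ _
    rw [h1]
    have h2 : ρ' (eval ((pt fV)^[n] ξ) PV) ≠ 0 := by
      rw [← eval_map', horbV]
      intro h0
      apply hQorb n
      rw [hQ, map_mul]
      show eval _ (map ρ' PV) * _ = 0
      rw [h0, zero_mul]
    rw [Ne, hρ0, not_lt] at h2
    exact le_antisymm (eval ((pt fV)^[n] ξ) PV).2 h2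
  · have h1 : (fun i => res (PadicAlgCl p) (b i)) = a := by
      funext i
      rw [← hξa]
      show res (PadicAlgCl p) (b i) = res (PadicAlgCl p) (ρ (ξ i))
      congr 1
      exact Subtype.ext (hb i)
    rw [h1]
    intro h0
    apply hQa
    rw [hQ, map_mul, h0, mul_zero]

end Pool.Agent.H864.PN
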