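import Pool.Agent.H864.PNc
import Pool.Agent.H864.Cas

set_option autoImplicit false

/-! The dynamical Mordell-Lang property in residue classes, for all endomorphisms of projective
space. -/

namespace Pool.Agent.H864.PN

open MvPolynomial Pool.Agent.H936R2 Pool.Agent.H864.BS Pool.Agent.H864.Pad Pool.Agent.H864.Cas
  Pool.Agent.TH838.PR

section basics

variable {σ : Type} [Fintype σ] [DecidableEq σ]

/-- Forms without a common zero are algebraically independent. -/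
theorem bind_injective (F : σ → MvPolynomial σ ℂ) (d : ℕ) (hd : 1 ≤ d)
    (hF : ∀ i, (F i).IsHomogeneous d) (h0 : ∀ z : σ → ℂ, (∀ i, eval z (F i) = 0) → z = 0) :
    Function.Injective (bind₁ F) := by
  obtain ⟨m, hm⟩ := exists_cert F h0
  have hind : AlgebraicIndependent ℂ F := by
    apply indep_of_finite
    have h1 := finite_of_cert F (fun _ => 0) d 0 (by omega) hF (fun _ => isHomogeneous_zero _ _ 0) m hm
    have h2 : (fun i => F i - (0 : MvPolynomial σ ℂ)) = F := funext fun i => sub_zero _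
    rw [h2] at h1
    exact h1
  exact algebraicIndependent_iff_injective_aeval.1 hind

theorem det_ne_zero (F : σ → MvPolynomial σ ℂ) (h : Function.Injective (bind₁ F)) :
    (jacP F).det ≠ 0 := by
  obtain ⟨M, g, -, hg, hG⟩ := exists_perturbation F
  have h1 : g = fun _ => 0 := by
    funext i
    apply bind_it_injective F h M
    rw [hg, map_zero]
  intro h0
  apply hG
  rw [h1]
  have h2 : (fun i => F i + (fun _ => (0 : MvPolynomial σ ℂ)) i) = F := funext fun i => add_zero _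
  rw [h2, h0, map_zero]

/-- The coefficients of finitely many polynomials. -/
noncomputable def coeffs {ι : Type} [Fintype ι] (F : ι → MvPolynomial σ ℂ) : Finset ℂ :=
  Finset.univ.biUnion fun i => (F i).support.image fun m => (F i).coeff m

omit [Fintype σ] [DecidableEq σ] in
lemma coeff_mem_coeffs {ι : Type} [Fintype ι] (F : ι → MvPolynomial σ ℂ) (i : ι) (m : σ →₀ ℕ) :
    (F i).coeff m = 0 ∨ (F i).coeff m ∈ coeffs F := by
  classical
  by_cases hm : m ∈ (F i).support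
  · right
    unfold coeffs
    rw [Finset.mem_biUnion]
    exact ⟨i, Finset.mem_univ i, Finset.mem_image.2 ⟨m, hm, rfl⟩⟩
  · left
    exact notMem_support_iff.1 hm

omit [Fintype σ] [DecidableEq σ] in
lemma norm_coeff_le {ι : Type} [Fintype ι] {p : ℕ} [Fact p.Prime] (τ : ℂ →+* PadicAlgCl p)
    (F : ι → MvPolynomial σ ℂ) (h : ∀ x ∈ coeffs F, ‖τ x‖ ≤ 1) (i : ι) (m : σ →₀ ℕ) :
    ‖τ ((F i).coeff m)‖ ≤ 1 := by
  rcases coeff_mem_coeffs F i m with h0 | h0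
  · rw [h0, map_zero, norm_zero]
    exact zero_le_one
  · exact h _ h0

/-- Étale periodic points avoiding a given hypersurface exist for all endomorphisms of projective
space. -/
theorem exists_periodic (F : σ → MvPolynomial σ ℂ) (d : ℕ) (hd : 2 ≤ d)
    (hF : ∀ i, (F i).IsHomogeneous d) (h0 : ∀ z : σ → ℂ, (∀ i, eval z (F i) = 0) → z = 0)
    (P : MvPolynomial σ ℂ) (hP : P ≠ 0) :
    ∃ (s : ℕ) (ξ : σ → ℂ), 0 < s ∧ (pt F)^[s] ξ = ξ ∧ ∀ n, eval ((pt F)^[n] ξ) P ≠ 0 := by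
  classical
  obtain ⟨m, hm⟩ := exists_cert F h0
  have hA : ∀ i, ∃ A : σ → MvPolynomial σ ℂ, (X i : MvPolynomial σ ℂ) ^ m = ∑ j, A j * F j := by
    intro i
    obtain ⟨A, hA⟩ := Ideal.mem_span_range_iff_exists_fun.1 (hm i)
    exact ⟨A, hA.symm⟩
  choose A hA using hA
  obtain ⟨l₀, hl₀⟩ := MvPolynomial.support_nonempty.2 hP
  rw [mem_support_iff] at hl₀
  obtain ⟨N, hN⟩ := emb_finite (coeffs F ∪ coeffs (fun q : σ × σ => A q.1 q.2) ∪
    coeffs (fun _ : Unit => P) ∪ {(P.coeff l₀)⁻¹})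
  obtain ⟨p, hpN, hpp⟩ := Nat.exists_infinite_primes (N + 1)
  have hp : Fact p.Prime := ⟨hpp⟩
  obtain ⟨τ, hτ⟩ := hN p (by omega)
  have hPV : ∀ l, ‖τ (P.coeff l)‖ ≤ 1 := norm_coeff_le τ (fun _ : Unit => P) (fun x hx => hτ x (by
    simp only [Finset.mem_union]; exact Or.inl (Or.inr hx))) ()
  have hPu : ‖τ (P.coeff l₀)‖ = 1 := by
    apply le_antisymm (hPV l₀)
    have h1 : ‖τ (P.coeff l₀)⁻¹‖ ≤ 1 := hτ _ (by simp)
    rw [map_inv₀, norm_inv] at h1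
    by_contra hlt
    push Not at hlt
    have h5 : 0 < ‖τ (P.coeff l₀)‖ := norm_pos_iff.2 (by rwa [Ne, map_eq_zero])
    exact absurd h1 (not_le.2 ((one_lt_inv₀ h5).2 hlt))
  obtain ⟨s, ξ, hs, hper, -, hne, -⟩ := exists_etale_periodic τ F d hd hF
    (norm_coeff_le τ F fun x hx => hτ x (by
      simp only [Finset.mem_union]; exact Or.inl (Or.inl (Or.inl hx)))) m A hA
    (fun i j l => norm_coeff_le τ (fun q : σ × σ => A q.1 q.2) (fun x hx => hτ x (by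
      simp only [Finset.mem_union]; exact Or.inl (Or.inl (Or.inr hx)))) (i, j) l)
    P hPV l₀ hPu 1 one_ne_zero
  refine ⟨s, ξ, hs, hper, fun n h1 => ?_⟩
  have h2 := hne n
  rw [h1, map_zero, norm_zero] at h2
  exact zero_ne_one h2

/-- Congruent points have congruent values. -/
theorem norm_eval_sub_lt {p : ℕ} [hp : Fact p.Prime] (τ : ℂ →+* PadicAlgCl p)
    (P : MvPolynomial σ ℂ) (hP : ∀ l, ‖τ (P.coeff l)‖ ≤ 1) (x y : σ → ℂ)
    (hx : ∀ i, ‖τ (x i)‖ ≤ 1) (hy : ∀ i, ‖τ (y i)‖ ≤ 1) (hxy : ∀ i, ‖τ (x i) - τ (y i)‖ < 1) :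
    ‖τ (eval x P)‖ ≤ 1 ∧ ‖τ (eval y P)‖ ≤ 1 ∧ ‖τ (eval x P) - τ (eval y P)‖ < 1 := by
  classical
  let V := valRing τ
  let ρ : V →+* unitBall (PadicAlgCl p) := (τ.comp V.subtype).codRestrict _ fun x => x.2
  let ρ' : V →+* ResF (PadicAlgCl p) := (res (PadicAlgCl p)).comp ρ
  have hρ0 : ∀ x : V, ρ' x = 0 ↔ ‖τ (x : ℂ)‖ < 1 := fun x => res_eq_zero_iff _
  obtain ⟨PV, hPV⟩ := exists_lift V.subtype P fun l => ⟨⟨_, hP l⟩, rfl⟩
  let xV : σ → V := fun i => ⟨x i, hx i⟩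
  let yV : σ → V := fun i => ⟨y i, hy i⟩
  have hxe : eval x P = ((eval xV PV : V) : ℂ) := by
    rw [← hPV]
    exact eval_map' V.subtype xV PV
  have hye : eval y P = ((eval yV PV : V) : ℂ) := by
    rw [← hPV]
    exact eval_map' V.subtype yV PV
  have hxy' : ∀ i, ρ' (xV i) = ρ' (yV i) := by
    intro i
    rw [← sub_eq_zero, ← map_sub, hρ0]
    show ‖τ (x i - y i)‖ < 1
    rw [map_sub]
    exact hxy i
  refine ⟨?_, ?_, ?_⟩
  · rw [hxe]
    exact (eval xV PV).2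
  · rw [hye]
    exact (eval yV PV).2
  · have h1 : ρ' (eval xV PV - eval yV PV) = 0 := by
      have h2 : ρ' (eval xV PV) = ρ' (eval yV PV) := by
        rw [← eval_map' ρ' xV PV, ← eval_map' ρ' yV PV, funext hxy']
      rw [map_sub, h2, sub_self]
    have h3 : ‖τ ((eval xV PV - eval yV PV : V) : ℂ)‖ < 1 := (hρ0 _).1 h1
    have h4 : ((eval xV PV - eval yV PV : V) : ℂ) = eval x P - eval y P := by
      rw [hxe, hye]
      exact map_sub V.subtype _ _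
    rw [h4, map_sub] at h3
    exact h3

theorem orbit_close {p : ℕ} [hp : Fact p.Prime] (τ : ℂ →+* PadicAlgCl p)
    (F : σ → MvPolynomial σ ℂ) (hF : ∀ i l, ‖τ ((F i).coeff l)‖ ≤ 1) (x y : σ → ℂ)
    (hx : ∀ i, ‖τ (x i)‖ ≤ 1) (hy : ∀ i, ‖τ (y i)‖ ≤ 1) (hxy : ∀ i, ‖τ (x i) - τ (y i)‖ < 1)
    (n : ℕ) : (∀ i, ‖τ ((pt F)^[n] x i)‖ ≤ 1) ∧ (∀ i, ‖τ ((pt F)^[n] y i)‖ ≤ 1) ∧
      ∀ i, ‖τ ((pt F)^[n] x i) - τ ((pt F)^[n] y i)‖ < 1 := by
  induction n with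
  | zero => exact ⟨hx, hy, hxy⟩
  | succ n ih =>
    obtain ⟨h1, h2, h3⟩ := ih
    rw [Function.iterate_succ_apply', Function.iterate_succ_apply']
    exact ⟨fun i => (norm_eval_sub_lt τ (F i) (hF i) _ _ h1 h2 h3).1,
      fun i => (norm_eval_sub_lt τ (F i) (hF i) _ _ h1 h2 h3).2.1,
      fun i => (norm_eval_sub_lt τ (F i) (hF i) _ _ h1 h2 h3).2.2⟩

lemma norm_eq_one_of_close {p : ℕ} [hp : Fact p.Prime] {a b : PadicAlgCl p} (ha : ‖a‖ ≤ 1)
    (hab : ‖a - b‖ < 1) (hb : ‖b‖ = 1) : ‖a‖ = 1 := by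
  apply le_antisymm ha
  by_contra hlt
  push Not at hlt
  have h1 : b = a - (a - b) := by ring
  have h2 := Pool.Agent.H864.Frob.norm_sub_lt hlt hab
  rw [← h1, hb] at h2
  exact lt_irrefl _ h2

/-- **Residue classes of étale periodic points.** -/
theorem exists_class [Nonempty σ] (F : σ → MvPolynomial σ ℂ) (d : ℕ) (hd : 2 ≤ d)
    (hF : ∀ i, (F i).IsHomogeneous d) (h0 : ∀ z : σ → ℂ, (∀ i, eval z (F i) = 0) → z = 0)
    (s₀ : Finset ℂ) (B : ℕ) :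
    ∃ (p : ℕ) (_ : Fact p.Prime), B < p ∧ ∃ (τ : ℂ →+* PadicAlgCl p) (ξ : σ → ℂ),
      (∀ x ∈ s₀, ‖τ x‖ ≤ 1 ∧ ‖τ x - τ x ^ p‖ < 1) ∧
      (∀ i, ‖τ (ξ i)‖ ≤ 1 ∧ ‖τ (ξ i) - τ (ξ i) ^ p‖ < 1) ∧ (∃ i, ‖τ (ξ i)‖ = 1) ∧
      ∀ α : σ → ℂ, (∀ i, ‖τ (α i)‖ ≤ 1) → (∀ i, ‖τ (α i) - τ (ξ i)‖ < 1) →
        ∃ L : ℕ, 0 < L ∧ ∀ S : Set (MvPolynomial σ ℂ), ∃ T : Finset (ℕ × ℕ),
          (∀ q ∈ T, q.2 = 0 ∨ q.2 = L) ∧
          {n : ℕ | ∀ g ∈ S, eval ((pt F)^[n] α) g = 0} = {n | ∃ q ∈ T, ∃ m, n = q.1 + q.2 * m} := by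
  classical
  set P := (jacP F).det with hPdef
  have hP : P ≠ 0 := det_ne_zero F (bind_injective F d (by omega) hF h0)
  obtain ⟨i₀⟩ := (inferInstance : Nonempty σ)
  obtain ⟨k, ξ, hk, hper, hne⟩ := exists_periodic F d hd hF h0 (P * X i₀)
    (mul_ne_zero hP (X_ne_zero i₀))
  have hneP : ∀ n, eval ((pt F)^[n] ξ) P ≠ 0 := fun n h => hne n (by rw [map_mul, h, zero_mul])
  have hξ0 : ξ i₀ ≠ 0 := by
    intro h
    apply hne 0
    rw [map_mul, eval_X]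
    show _ * ξ i₀ = 0
    rw [h, mul_zero]
  let s₁ : Finset ℂ := s₀ ∪ coeffs F ∪ coeffs (fun _ : Unit => P) ∪ Finset.univ.image ξ ∪ {(ξ i₀)⁻¹} ∪
    (Finset.range k).image fun n => (eval ((pt F)^[n] ξ) P)⁻¹
  obtain ⟨p, hp, hpB, τ, hτ⟩ := exists_split_embedding s₁ B
  have hFV := norm_coeff_le τ F fun x hx => (hτ x (by
    simp only [s₁, Finset.mem_union]
    exact Or.inl (Or.inl (Or.inl (Or.inl (Or.inr hx)))))).1
  have hPV : ∀ l, ‖τ (P.coeff l)‖ ≤ 1 := norm_coeff_le τ (fun _ : Unit => P) (fun x hx => (hτ x (by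
    simp only [s₁, Finset.mem_union]
    exact Or.inl (Or.inl (Or.inl (Or.inr hx))))).1) ()
  have hξ : ∀ i, ‖τ (ξ i)‖ ≤ 1 ∧ ‖τ (ξ i) - τ (ξ i) ^ p‖ < 1 := fun i => hτ _ (by
    simp only [s₁, Finset.mem_union]
    exact Or.inl (Or.inl (Or.inr (Finset.mem_image_of_mem ξ (Finset.mem_univ i)))))
  have hinv : ∀ z : ℂ, z ≠ 0 → ‖τ z‖ ≤ 1 → ‖τ z⁻¹‖ ≤ 1 → ‖τ z‖ = 1 := by
    intro z hz h1 h2
    apply le_antisymm h1
    rw [map_inv₀, norm_inv] at h2
    by_contra hlt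
    push Not at hlt
    have h5 : 0 < ‖τ z‖ := norm_pos_iff.2 (by rwa [Ne, map_eq_zero])
    exact absurd h2 (not_le.2 ((one_lt_inv₀ h5).2 hlt))
  refine ⟨p, hp, hpB, τ, ξ, fun x hx => hτ x (by
    simp only [s₁, Finset.mem_union]
    exact Or.inl (Or.inl (Or.inl (Or.inl (Or.inl hx))))), hξ, ⟨i₀, hinv _ hξ0 (hξ i₀).1 (hτ _ (by
      simp only [s₁, Finset.mem_union]
      exact Or.inl (Or.inr (Finset.mem_singleton_self _)))).1⟩, fun α hα hαξ => ?_⟩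
  -- the determinant along the cycle
  have hcyc : ∀ n, ‖τ (eval ((pt F)^[n] ξ) P)‖ = 1 := by
    intro n
    have h1 : (pt F)^[n] ξ = (pt F)^[n % k] ξ := by
      conv_lhs => rw [← Nat.mod_add_div n k]
      rw [Function.iterate_add_apply]
      congr 1
      induction n / k with
      | zero => rfl
      | succ j ih => rw [Nat.mul_succ, Function.iterate_add_apply, hper, ih]
    rw [h1]
    have h2 := (orbit_close τ F hFV ξ ξ (fun i => (hξ i).1) (fun i => (hξ i).1) (fun i => by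
      rw [sub_self, norm_zero]; exact one_pos) (n % k)).1
    have h3 := (norm_eval_sub_lt τ P hPV _ _ h2 h2 (fun i => by
      rw [sub_self, norm_zero]; exact one_pos)).1
    apply hinv _ (hneP _) h3
    exact (hτ _ (by
      simp only [s₁, Finset.mem_union]
      exact Or.inr (Finset.mem_image_of_mem (fun n => (eval ((pt F)^[n] ξ) P)⁻¹)
        (Finset.mem_range.2 (Nat.mod_lt n hk))))).1
  apply dml_of_embedding F α τ hFV hα 0
  intro n _
  rw [← eval_det_jacP]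
  obtain ⟨h1, h2, h3⟩ := orbit_close τ F hFV α ξ hα (fun i => (hξ i).1) hαξ n
  obtain ⟨h4, h5, h6⟩ := norm_eval_sub_lt τ P hPV _ _ h1 h2 h3
  exact norm_eq_one_of_close h4 h6 (hcyc n)

end basics

end Pool.Agent.H864.PN
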