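import Pool.Agent.H864.PNd
import Pool.Agent.H864.Count

set_option autoImplicit false

/-! Residue classes of points over finitely generated rings. -/

namespace Pool.Agent.H864.PN

open MvPolynomial Pool.Agent.H936R2 Pool.Agent.H864.BS Pool.Agent.H864.Pad Pool.Agent.H864.Cas

/-- The elements of the prime field are the fixed points of Frobenius. -/
lemma exists_zmod {p : ℕ} [hp : Fact p.Prime] {k : Type} [Field k] [CharP k p] (x : k)
    (hx : x ^ p = x) : ∃ c : ZMod p, ZMod.castHom (dvd_refl p) k c = x := by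
  classical
  let f : ZMod p →+* k := ZMod.castHom (dvd_refl p) k
  have h1 : (Polynomial.X ^ p - Polynomial.X : Polynomial (ZMod p)) =
      ∏ c : ZMod p, (Polynomial.X - Polynomial.C c) := by
    have hmonic : (Polynomial.X ^ p - Polynomial.X : Polynomial (ZMod p)).Monic := by
      apply Polynomial.monic_X_pow_sub
      rw [Polynomial.degree_X]
      exact_mod_cast hp.out.one_lt
    have h2 := FiniteField.roots_X_pow_card_sub_X (ZMod p)
    rw [ZMod.card] at h2
    have h3 : (Polynomial.X ^ p - Polynomial.X : Polynomial (ZMod p)).natDegree = p :=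
      FiniteField.X_pow_card_sub_X_natDegree_eq _ hp.out.one_lt
    have h4 := Polynomial.prod_multiset_X_sub_C_of_monic_of_roots_card_eq hmonic (by
      rw [h2, h3]
      simp [ZMod.card])
    rw [← h4, h2]
    rfl
  have h5 := congrArg (Polynomial.eval₂ f x) h1
  rw [Polynomial.eval₂_sub, Polynomial.eval₂_pow, Polynomial.eval₂_X, hx, sub_self,
    Polynomial.eval₂_finsetProd] at h5
  obtain ⟨c, -, hc⟩ := Finset.prod_eq_zero_iff.1 h5.symm
  rw [Polynomial.eval₂_sub, Polynomial.eval₂_X, Polynomial.eval₂_C, sub_eq_zero] at hc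
  exact ⟨c, hc.symm⟩

theorem exists_residue_hom {p : ℕ} [hp : Fact p.Prime] (τ : ℂ →+* PadicAlgCl p) (s : Finset ℂ)
    (hs : ∀ x ∈ s, ‖τ x‖ ≤ 1 ∧ ‖τ x - τ x ^ p‖ < 1) (A : Subring ℂ)
    (hA : A = Subring.closure (s : Set ℂ)) :
    ∃ (π : A →+* ZMod p), ∀ a : A, ‖τ a‖ ≤ 1 ∧ ∀ (c : ℕ), π a = c → ‖τ (a : ℂ) - c‖ < 1 := by
  classical
  have := charP_resF (p := p)
  let V := valRing τ
  let ρ : V →+* unitBall (PadicAlgCl p) := (τ.comp V.subtype).codRestrict _ fun x => x.2
  let ρ' : V →+* ResF (PadicAlgCl p) := (res (PadicAlgCl p)).comp ρ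
  have hρ0 : ∀ x : V, ρ' x = 0 ↔ ‖τ (x : ℂ)‖ < 1 := fun x => res_eq_zero_iff _
  let f : ZMod p →+* ResF (PadicAlgCl p) := ZMod.castHom (dvd_refl p) _
  let W : Subring ℂ := (f.range.comap ρ').map V.toSubring.subtype
  have hAW : A ≤ W := by
    rw [hA, Subring.closure_le]
    intro x hx
    obtain ⟨h1, h2⟩ := hs x hx
    let xV : V := ⟨x, h1⟩
    have h3 : ρ' xV ^ p = ρ' xV := by
      have h4 : ρ' (xV - xV ^ p) = 0 := by
        rw [hρ0]
        have h5 : ((xV - xV ^ p : V) : ℂ) = x - x ^ p := rfl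
        rw [h5, map_sub, map_pow]
        exact h2
      rw [map_sub, map_pow, sub_eq_zero] at h4
      exact h4.symm
    obtain ⟨c, hc⟩ := exists_zmod (p := p) (ρ' xV) h3
    exact ⟨xV, ⟨c, hc⟩, rfl⟩
  have hAV : ∀ a : A, (a : ℂ) ∈ V := by
    intro a
    obtain ⟨w, -, hw⟩ := hAW a.2
    have : (a : ℂ) = (w : ℂ) := hw.symm
    rw [this]
    exact w.2
  let incl : A →+* V := A.subtype.codRestrict V.toSubring hAV
  have hrange : ∀ a : A, (ρ'.comp incl) a ∈ f.range := by
    intro a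
    obtain ⟨w, hw1, hw2⟩ := hAW a.2
    have h1 : incl a = w := Subtype.ext hw2.symm
    show ρ' (incl a) ∈ f.range
    rw [h1]
    exact hw1
  have hfinj : Function.Injective f := f.injective
  let e : ZMod p ≃+* f.range := RingEquiv.ofBijective f.rangeRestrict
    ⟨fun x y h => hfinj (congrArg Subtype.val h), f.rangeRestrict_surjective⟩
  let π : A →+* ZMod p := (e.symm : f.range →+* ZMod p).comp ((ρ'.comp incl).codRestrict f.range hrange)
  refine ⟨π, fun a => ⟨hAV a, fun c hc => ?_⟩⟩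
  have h1 : f (π a) = ρ' (incl a) := by
    have h2 : e (π a) = (ρ'.comp incl).codRestrict f.range hrange a := e.apply_symm_apply _
    exact congrArg Subtype.val h2
  rw [hc, map_natCast] at h1
  have h2 : ρ' (incl a - (c : V)) = 0 := by
    rw [map_sub, map_natCast, ← h1, sub_self]
  rw [hρ0] at h2
  have h3 : ((incl a - (c : V) : V) : ℂ) = (a : ℂ) - c := by
    have h4 : ((c : V) : ℂ) = c := map_natCast V.subtype c
    rw [← h4]
    rfl
  rw [h3, map_sub, map_natCast] at h2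
  exact h2

variable {σ : Type} [Fintype σ] [DecidableEq σ]

/-- **The dynamical Mordell-Lang property in residue classes over finitely generated rings.** -/
theorem exists_residue_class [Nonempty σ] (F : σ → MvPolynomial σ ℂ) (d : ℕ) (hd : 2 ≤ d)
    (hF : ∀ i, (F i).IsHomogeneous d) (h0 : ∀ z : σ → ℂ, (∀ i, eval z (F i) = 0) → z = 0)
    (A : Subring ℂ) (hA : ∃ s : Finset ℂ, A = Subring.closure (s : Set ℂ)) (B : ℕ) :
    ∃ p : ℕ, B < p ∧ p.Prime ∧ ∃ (π : A →+* ZMod p) (c : σ → ZMod p), c ≠ 0 ∧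
      ∀ v : σ → A, (∀ i, π (v i) = c i) → ∃ L : ℕ, 0 < L ∧ ∀ S : Set (MvPolynomial σ ℂ),
        ∃ T : Finset (ℕ × ℕ), (∀ q ∈ T, q.2 = 0 ∨ q.2 = L) ∧
          {n : ℕ | ∀ g ∈ S, eval ((pt F)^[n] fun i => (v i : ℂ)) g = 0} =
            {n | ∃ q ∈ T, ∃ m, n = q.1 + q.2 * m} := by
  classical
  obtain ⟨s, hs⟩ := hA
  obtain ⟨p, hp, hpB, τ, ξ, hτs, hξ, ⟨i₀, hi₀⟩, hcl⟩ := exists_class F d hd hF h0 s B
  have := charP_resF (p := p)
  obtain ⟨π, hπ⟩ := exists_residue_hom τ s hτs A hs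
  -- the residues of the point
  have hres : ∀ i, ∃ c : ZMod p, ‖τ (ξ i) - (c.val : ℕ)‖ < 1 := by
    intro i
    obtain ⟨h1, h2⟩ := hξ i
    let x : unitBall (PadicAlgCl p) := ⟨τ (ξ i), h1⟩
    have h3 : res (PadicAlgCl p) x ^ p = res (PadicAlgCl p) x := by
      have h4 : res (PadicAlgCl p) (x - x ^ p) = 0 := by
        rw [res_eq_zero_iff]
        exact h2
      rw [map_sub, map_pow, sub_eq_zero] at h4
      exact h4.symm
    obtain ⟨c, hc⟩ := exists_zmod (p := p) (res (PadicAlgCl p) x) h3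
    refine ⟨c, ?_⟩
    have h5 : res (PadicAlgCl p) (x - (c.val : ℕ)) = 0 := by
      rw [map_sub, map_natCast, ← hc, sub_eq_zero]
      conv_lhs => rw [← ZMod.natCast_zmod_val c]
      rw [map_natCast]
    rw [res_eq_zero_iff] at h5
    exact h5
  choose c hc using hres
  refine ⟨p, hpB, hp.out, π, c, ?_, fun v hv => ?_⟩
  · intro hc0
    have h1 := hc i₀
    rw [hc0] at h1
    simp only [Pi.zero_apply, ZMod.val_zero, Nat.cast_zero, sub_zero] at h1
    rw [hi₀] at h1
    exact lt_irrefl _ h1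
  · have h1 : ∀ i, ‖τ (v i : ℂ)‖ ≤ 1 := fun i => (hπ (v i)).1
    apply hcl _ h1
    intro i
    have h2 := (hπ (v i)).2 ((c i).val) (by rw [hv i, ZMod.natCast_zmod_val])
    have h3 := Pool.Agent.H864.Frob.norm_sub_lt h2 (hc i)
    have h4 : τ (v i : ℂ) - τ (ξ i) = (τ (v i : ℂ) - ((c i).val : ℕ)) - (τ (ξ i) - ((c i).val : ℕ)) := by
      ring
    rw [h4]
    exact h3

end Pool.Agent.H864.PN
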