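import Pool.Agent.H864.Rel2

set_option autoImplicit false

/-! Every polynomial self-map of affine space over a field of characteristic zero can be changed on
the complement of its eventual image so that it becomes étale at the generic point of the eventual
image. -/

namespace Pool.Agent.H864.BS

open MvPolynomial

variable {σ : Type} [Fintype σ] [DecidableEq σ] {k : Type} [Field k] [CharZero k]

section der

variable {L : Type} [Field L] (e : MvPolynomial σ k →+* L) (u : σ → L)

/-- The derivation with the values `u` at the variables, over the homomorphism `e`. -/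
noncomputable def dd (g : MvPolynomial σ k) : L := ∑ j, e (pderiv j g) * u j

omit [DecidableEq σ] [CharZero k] in
lemma dd_add (g h : MvPolynomial σ k) : dd e u (g + h) = dd e u g + dd e u h := by
  simp only [dd, map_add, add_mul, Finset.sum_add_distrib]

omit [DecidableEq σ] [CharZero k] in
lemma dd_mul (g h : MvPolynomial σ k) : dd e u (g * h) = e g * dd e u h + e h * dd e u g := by
  simp only [dd, Derivation.leibniz, smul_eq_mul, map_add, map_mul, add_mul,
    Finset.sum_add_distrib, Finset.mul_sum]
  congr 1 <;> apply Finset.sum_congr rfl <;> intro j _ <;> ring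

omit [DecidableEq σ] [CharZero k] in
lemma dd_C (c : k) : dd e u (C c) = 0 := by
  simp [dd]

omit [CharZero k] in
lemma dd_X (i : σ) : dd e u (X i) = u i := by
  simp [dd, pderiv_X, Pi.single_apply]

omit [DecidableEq σ] [CharZero k] in
lemma dd_zero : dd e u 0 = 0 := by
  simp [dd]

omit [DecidableEq σ] [CharZero k] in
lemma dd_sum {κ : Type} (s : Finset κ) (g : κ → MvPolynomial σ k) :
    dd e u (∑ j ∈ s, g j) = ∑ j ∈ s, dd e u (g j) := by
  classical
  induction s using Finset.induction_on with
  | empty => simp [dd_zero]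
  | insert a s ha ih => rw [Finset.sum_insert ha, Finset.sum_insert ha, dd_add, ih]

omit [DecidableEq σ] [CharZero k] in
lemma dd_pow (g : MvPolynomial σ k) (n : ℕ) :
    dd e u (g ^ n) = (n : L) * e g ^ (n - 1) * dd e u g := by
  induction n with
  | zero =>
    rw [pow_zero, ← C_1, dd_C]
    simp
  | succ n ih =>
    rw [pow_succ, dd_mul, ih, map_pow, Nat.add_sub_cancel]
    rcases Nat.eq_zero_or_pos n with h | h
    · subst h
      simp
    · obtain ⟨m, rfl⟩ : ∃ m, n = m + 1 := ⟨n - 1, by omega⟩
      rw [Nat.add_sub_cancel]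
      push_cast
      ring

omit [DecidableEq σ] [CharZero k] in
/-- The chain rule, if the derivation kills the `f i`. -/
lemma dd_bind (f : σ → MvPolynomial σ k) (hf : ∀ i, dd e u (f i) = 0) (g : MvPolynomial σ k) :
    dd e u (bind₁ f g) = 0 := by
  induction g using MvPolynomial.induction_on with
  | C a => simp [dd_C]
  | add p q hp hq => rw [map_add, dd_add, hp, hq, add_zero]
  | mul_X p i hp => rw [map_mul, bind₁_X_right, dd_mul, hp, hf]; simp

end der

/-- **Perturbation.** -/
theorem exists_perturbation (f : σ → MvPolynomial σ k) :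
    ∃ (M : ℕ) (h : σ → MvPolynomial σ k), Fintype.card σ ≤ M ∧
      (∀ i, bind₁ (it f M) (h i) = 0) ∧
      bind₁ (it f M) (jacP (fun i => f i + h i)).det ≠ 0 := by
  classical
  obtain ⟨n0, hn0⟩ := exists_stable f
  set M := max n0 (Fintype.card σ) with hM
  set φ := bind₁ (it f M) with hφ
  set ψ := bind₁ (it f (M + 1)) with hψ
  have hker : ∀ u, φ u = 0 ↔ ψ u = 0 := by
    intro u
    have h1 := hn0 M (le_max_left _ _)
    have h2 := hn0 (M + 1) ((le_max_left _ _).trans (Nat.le_succ _))
    have h3 : RingHom.ker φ.toRingHom = RingHom.ker ψ.toRingHom := h1.symm.trans h2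
    have h4 : u ∈ RingHom.ker φ.toRingHom ↔ u ∈ RingHom.ker ψ.toRingHom := by rw [h3]
    exact h4
  have hψφ : ∀ g, ψ g = φ (bind₁ f g) := by
    intro g
    rw [hψ, hφ, bind₁_bind₁]
    congr 2
    funext i
    exact it_succ' f M i
  have hle : ψ.range ≤ φ.range := by
    rintro _ ⟨g, rfl⟩
    exact ⟨bind₁ f g, (hψφ g).symm⟩
  set L := FractionRing (MvPolynomial σ k) with hL
  let e : MvPolynomial σ k →+* L := (algebraMap (MvPolynomial σ k) L).comp φ.toRingHom
  have he : ∀ g, e g = algebraMap (MvPolynomial σ k) L (φ g) := fun g => rfl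
  have hinj : Function.Injective (algebraMap (MvPolynomial σ k) L) := IsFractionRing.injective _ _
  -- vectors killed by all the differentials
  have hkill : ∀ u : σ → L, (∀ h, φ h = 0 → dd e u h = 0) → (∀ i, dd e u (f i) = 0) → u = 0 := by
    intro u h1 h2
    funext i
    obtain ⟨R, hR0, hR1⟩ := exists_separable φ ψ hker (it f M i) ⟨X i, by rw [hφ]; simp⟩ hle
    let H : MvPolynomial σ k := ∑ l ∈ Finset.range (R.natDegree + 1), bind₁ f (R.coeff l) * X i ^ l
    have h6 : φ (X i) = it f M i := by rw [hφ]; simp
    have hφH : φ H = 0 := by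
      rw [← hR0, Polynomial.eval₂_eq_sum_range, map_sum]
      apply Finset.sum_congr rfl
      intro l _
      rw [map_mul, map_pow, ← hψφ, h6]
      rfl
    have h3 := h1 H hφH
    have h4 : dd e u H = algebraMap (MvPolynomial σ k) L
        (Polynomial.eval₂ (ψ : MvPolynomial σ k →+* MvPolynomial σ k) (it f M i) (Polynomial.derivative R)) * u i := by
      rw [dd_sum]
      have h5 : ∀ l ∈ Finset.range (R.natDegree + 1),
          dd e u (bind₁ f (R.coeff l) * X i ^ l) =
            algebraMap (MvPolynomial σ k) L (ψ (R.coeff l) * ((l : MvPolynomial σ k) * it f M i ^ (l - 1))) * u i := by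
        intro l _
        rw [dd_mul, dd_bind e u f h2, mul_zero, add_zero, dd_pow, dd_X, he, he, ← hψφ, h6]
        simp only [map_mul, map_pow, map_natCast]
        ring
      rw [Finset.sum_congr rfl h5, ← Finset.sum_mul, ← map_sum]
      congr 2
      conv_rhs => rw [R.as_sum_range_C_mul_X_pow]
      rw [Polynomial.derivative_sum, Polynomial.eval₂_finsetSum]
      apply Finset.sum_congr rfl
      intro l _
      rw [Polynomial.derivative_C_mul_X_pow, Polynomial.eval₂_mul, Polynomial.eval₂_C,
        Polynomial.eval₂_X_pow, map_mul, map_natCast]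
      show ψ (R.coeff l) * _ = ψ (R.coeff l) * _ * _
      ring
    rw [h4] at h3
    rcases mul_eq_zero.1 h3 with h5 | h5
    · exact absurd (hinj (by rw [h5, map_zero])) hR1
    · exact h5
  -- the rows
  let r : σ → σ → L := fun i j => e (pderiv j (f i))
  let W : Set (σ → L) := {v | ∃ h, φ h = 0 ∧ v = fun j => e (pderiv j h)}
  have hspan : Submodule.span L (Set.range r ∪ W) = ⊤ := by
    by_contra hne
    obtain ⟨ℓ, hℓ0, hℓ⟩ := Submodule.exists_le_ker_of_lt_top _ (lt_top_iff_ne_top.2 hne)
    let u : σ → L := fun j => ℓ (Pi.single j 1)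
    have hu : ∀ v : σ → L, ℓ v = ∑ j, v j * u j := by
      intro v
      have h1 : v = ∑ j, v j • (Pi.single j (1 : L) : σ → L) := by
        funext i
        simp [Finset.sum_apply, Pi.single_apply]
      conv_lhs => rw [h1]
      rw [map_sum]
      apply Finset.sum_congr rfl
      intro j _
      rw [map_smul, smul_eq_mul]
    have hu0 : u = 0 := by
      apply hkill
      · intro h hh
        have h1 : (fun j => e (pderiv j h)) ∈ Submodule.span L (Set.range r ∪ W) :=
          Submodule.subset_span (Or.inr ⟨h, hh, rfl⟩)
        have h2 := hℓ h1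
        rw [LinearMap.mem_ker, hu] at h2
        exact h2
      · intro i
        have h1 : r i ∈ Submodule.span L (Set.range r ∪ W) :=
          Submodule.subset_span (Or.inl ⟨i, rfl⟩)
        have h2 := hℓ h1
        rw [LinearMap.mem_ker, hu] at h2
        exact h2
    apply hℓ0
    ext v
    simp only [LinearMap.coe_comp, LinearMap.coe_single, Function.comp_apply, LinearMap.zero_comp,
      LinearMap.zero_apply]
    exact congrFun hu0 v
  obtain ⟨w, hw, hind⟩ := exists_independent r W ⟨0, by rw [map_zero], by funext j; simp [he]⟩ (by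
    rintro v ⟨h, hh, rfl⟩ w ⟨h', hh', rfl⟩
    refine ⟨h + h', by rw [map_add, hh, hh', add_zero], ?_⟩
    funext j
    simp [map_add]) hspan
  choose h hh0 hh using hw
  refine ⟨M, h, le_max_right _ _, hh0, ?_⟩
  intro hdet
  have h1 : (Matrix.of fun i j => e (pderiv j (f i + h i))).det ≠ 0 := by
    have h2 : LinearIndependent L (Matrix.of fun i j => e (pderiv j (f i + h i))).row := by
      have h3 : (Matrix.of fun i j => e (pderiv j (f i + h i))).row = fun i => r i + w i := by
        funext i j
        rw [Pi.add_apply, congrFun (hh i) j]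
        show e (pderiv j (f i + h i)) = e (pderiv j (f i)) + e (pderiv j (h i))
        rw [map_add, map_add]
      rw [h3]
      exact hind
    exact ((Matrix.isUnit_iff_isUnit_det _).1 (Matrix.linearIndependent_rows_iff_isUnit.1 h2)).ne_zero
  apply h1
  have h2 : (Matrix.of fun i j => e (pderiv j (f i + h i))) =
      (algebraMap (MvPolynomial σ k) L).mapMatrix (φ.toRingHom.mapMatrix (jacP fun i => f i + h i)) := by
    ext i j
    rfl
  rw [h2, ← RingHom.map_det, ← RingHom.map_det]
  have h3 : φ.toRingHom (jacP fun i => f i + h i).det = 0 := hdet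
  rw [h3, map_zero]

end Pool.Agent.H864.BS
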