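import Pool.Graph.R_seed8.Y199.DM.Emb
import Pool.Agent.H864.Rel3

set_option autoImplicit false

/-! The residue field of the algebraic closure of `ℚ_p`. -/

namespace Pool.Agent.H864.Pad

open Pool.Agent.H936R2 MvPolynomial

variable {p : ℕ} [hp : Fact p.Prime]

theorem charP_resF : CharP (ResF (PadicAlgCl p)) p := by
  have hpres : ((p : ℕ) : ResF (PadicAlgCl p)) = 0 := by
    have h1 : res (PadicAlgCl p) ((p : ℕ) : unitBall (PadicAlgCl p)) = 0 := by
      rw [res_eq_zero_iff]
      exact norm_p_lt_one p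
    rw [map_natCast] at h1
    exact h1
  obtain ⟨q, hq⟩ := CharP.exists (ResF (PadicAlgCl p))
  have hqp : q ∣ p := (CharP.cast_eq_zero_iff (ResF (PadicAlgCl p)) q p).1 hpres
  have hq1 : q ≠ 1 := CharP.char_ne_one (ResF (PadicAlgCl p)) q
  have hqe : q = p := (Nat.Prime.eq_one_or_self_of_dvd hp.out q hqp).resolve_left hq1
  exact hqe ▸ hq

/-- Roots of monic polynomials with integral coefficients are integral. -/
lemma norm_le_one_of_root {K : Type} [NormedField K] [IsUltrametricDist K] (P : Polynomial K)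
    (hP : P.Monic) (hc : ∀ i, ‖P.coeff i‖ ≤ 1) (x : K) (hx : P.eval x = 0) : ‖x‖ ≤ 1 := by
  by_contra hlt
  rw [not_le] at hlt
  rw [Polynomial.eval_eq_sum_range, Finset.sum_range_succ, hP.coeff_natDegree, one_mul] at hx
  have h2 : x ^ P.natDegree = - ∑ i ∈ Finset.range P.natDegree, P.coeff i * x ^ i := by
    linear_combination hx
  have h3 : ‖x ^ P.natDegree‖ = ‖∑ i ∈ Finset.range P.natDegree, P.coeff i * x ^ i‖ := by
    rw [h2, norm_neg]
  rcases Nat.eq_zero_or_pos P.natDegree with h0 | h0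
  · rw [h0] at h3
    simp at h3
  · obtain ⟨i, hi, hle⟩ := IsUltrametricDist.exists_norm_finsetSum_le_of_nonempty
      (t := Finset.range P.natDegree) ⟨0, Finset.mem_range.2 h0⟩ (fun i => P.coeff i * x ^ i)
    rw [Finset.mem_range] at hi
    have h4 : ‖P.coeff i * x ^ i‖ ≤ ‖x‖ ^ i := by
      rw [norm_mul, norm_pow]
      calc _ ≤ 1 * ‖x‖ ^ i := mul_le_mul_of_nonneg_right (hc i) (by positivity)
        _ = ‖x‖ ^ i := one_mul _
    have h5 : ‖x‖ ^ i < ‖x‖ ^ P.natDegree := pow_lt_pow_right₀ hlt hi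
    rw [norm_pow] at h3
    linarith

theorem isAlgClosed_resF : IsAlgClosed (ResF (PadicAlgCl p)) := by
  apply IsAlgClosed.of_exists_root
  intro q hq hirr
  have hsurj : Function.Surjective (res (PadicAlgCl p)) := Ideal.Quotient.mk_surjective
  have hlift : q ∈ Polynomial.lifts (res (PadicAlgCl p)) := by
    rw [Polynomial.lifts_iff_coeff_lifts]
    intro n
    exact hsurj _
  obtain ⟨Q, hQ, hdeg, hmon⟩ := Polynomial.lifts_and_natDegree_eq_and_monic hlift hq
  have hQ' : (Q.map (unitBall (PadicAlgCl p)).subtype).Monic := hmon.map _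
  have hd : (Q.map (unitBall (PadicAlgCl p)).subtype).degree ≠ 0 := by
    rw [hmon.degree_map, Polynomial.degree_eq_natDegree hmon.ne_zero, hdeg]
    have := hirr.natDegree_pos
    exact_mod_cast this.ne'
  obtain ⟨z, hz⟩ := IsAlgClosed.exists_root _ hd
  rw [Polynomial.IsRoot.def] at hz
  have hz1 : ‖z‖ ≤ 1 := norm_le_one_of_root _ hQ' (fun i => by
    rw [Polynomial.coeff_map]
    exact unitBall_norm_le _) z hz
  refine ⟨res (PadicAlgCl p) ⟨z, hz1⟩, ?_⟩
  rw [← hQ, Polynomial.eval_map, Polynomial.eval₂_hom]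
  have h0 : Polynomial.eval (⟨z, hz1⟩ : unitBall (PadicAlgCl p)) Q = 0 := by
    apply Subtype.ext
    rw [Polynomial.eval_map] at hz
    have h1 := Polynomial.hom_eval₂ Q (RingHom.id _) (unitBall (PadicAlgCl p)).subtype (⟨z, hz1⟩ : unitBall (PadicAlgCl p))
    rw [RingHom.comp_id] at h1
    have h2 : (unitBall (PadicAlgCl p)).subtype (Polynomial.eval (⟨z, hz1⟩ : unitBall (PadicAlgCl p)) Q) = 0 := by
      rw [Polynomial.eval, h1]
      exact hz
    exact h2
  rw [h0, map_zero]

/-- Elements of the residue field are fixed by a power of Frobenius. -/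
theorem exists_frob_fixed (x : ResF (PadicAlgCl p)) : ∃ n, 0 < n ∧ x ^ p ^ n = x := by
  have := charP_resF (p := p)
  obtain ⟨a, rfl⟩ := Ideal.Quotient.mk_surjective x
  obtain ⟨N, m, hm, h⟩ := res_orbit_periodic (ι := Unit) p (fun _ => (X () : MvPolynomial Unit (unitBall (PadicAlgCl p))) ^ p)
    (fun _ => a)
  refine ⟨m, hm, ?_⟩
  have hit : ∀ (R : Type) [CommRing R] (b : R) (n : ℕ), (pt fun _ : Unit => (X () : MvPolynomial Unit R) ^ p)^[n]
      (fun _ => b) = fun _ => b ^ p ^ n := by
    intro R _ b n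
    induction n with
    | zero => simp
    | succ n ih =>
      rw [Function.iterate_succ_apply', ih]
      funext i
      simp [pt, ← pow_mul, pow_succ]
  have h1 := congrFun (h N le_rfl) ()
  rw [hit] at h1
  have h2 : (fun i => map (res (PadicAlgCl p)) ((fun _ : Unit => (X () : MvPolynomial Unit (unitBall (PadicAlgCl p))) ^ p) i)) =
      fun _ : Unit => (X () : MvPolynomial Unit (ResF (PadicAlgCl p))) ^ p := by
    funext i
    simp
  rw [h2, hit] at h1
  simp only [map_pow] at h1
  rw [← pow_mul, mul_comm, pow_mul] at h1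
  have h3 : Function.Injective (iterateFrobenius (ResF (PadicAlgCl p)) p N) :=
    (iterateFrobenius (ResF (PadicAlgCl p)) p N).injective
  apply h3
  rw [iterateFrobenius_def, iterateFrobenius_def]
  exact h1

/-- Finitely many elements of the residue field are fixed by one power of Frobenius. -/
theorem exists_frob_fixed_finset (t : Finset (ResF (PadicAlgCl p))) :
    ∃ r, 0 < r ∧ ∀ x ∈ t, x ^ p ^ r = x := by
  classical
  induction t using Finset.induction_on with
  | empty => exact ⟨1, one_pos, by simp⟩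
  | insert a t ha ih =>
    obtain ⟨r, hr, h⟩ := ih
    obtain ⟨n, hn, hna⟩ := exists_frob_fixed a
    have hmul : ∀ (x : ResF (PadicAlgCl p)) (u v : ℕ), x ^ p ^ u = x → x ^ p ^ (u * v) = x := by
      intro x u v hx
      induction v with
      | zero => simp
      | succ v ih => rw [Nat.mul_succ, pow_add, pow_mul, ih, hx]
    refine ⟨n * r, Nat.mul_pos hn hr, fun x hx => ?_⟩
    rcases Finset.mem_insert.1 hx with rfl | hx
    · exact hmul _ _ _ hna
    · rw [mul_comm]
      exact hmul _ _ _ (h x hx)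

/-- Algebraic lifts. -/
theorem exists_algebraic_lift (x : ResF (PadicAlgCl p)) :
    ∃ ω : unitBall (PadicAlgCl p), res (PadicAlgCl p) ω = x ∧ IsAlgebraic ℚ (ω : PadicAlgCl p) := by
  obtain ⟨n, hn, hx⟩ := exists_frob_fixed x
  obtain ⟨a, rfl⟩ := Ideal.Quotient.mk_surjective x
  have hq : 1 < p ^ n := Nat.one_lt_pow hn.ne' hp.out.one_lt
  set Q : Polynomial (PadicAlgCl p) := Polynomial.X ^ p ^ n - Polynomial.X with hQ
  have hQ0 : Q ≠ 0 := FiniteField.X_pow_card_sub_X_ne_zero _ hq
  have hmonic : Q.Monic := by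
    apply Polynomial.monic_X_pow_sub
    rw [Polynomial.degree_X]
    exact_mod_cast hq
  have hprod : Q = (Q.roots.map fun r => Polynomial.X - Polynomial.C r).prod :=
    (IsAlgClosed.splits Q).eq_prod_roots_of_monic hmonic
  have hev : ‖((Q.roots.map fun r => (a : PadicAlgCl p) - r).prod)‖ < 1 := by
    have h1 : Q.eval (a : PadicAlgCl p) = (Q.roots.map fun r => (a : PadicAlgCl p) - r).prod := by
      conv_lhs => rw [hprod]
      rw [Polynomial.eval_multiset_prod, Multiset.map_map]
      simp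
    rw [← h1]
    have h2 : Q.eval (a : PadicAlgCl p) = ((a ^ p ^ n - a : unitBall (PadicAlgCl p)) : PadicAlgCl p) := by
      simp [hQ]
    rw [h2, ← res_eq_zero_iff, map_sub, map_pow, sub_eq_zero]
    exact hx
  obtain ⟨r, hr, hra⟩ : ∃ r ∈ Q.roots, ‖(a : PadicAlgCl p) - r‖ < 1 := by
    by_contra hcon
    push Not at hcon
    have h1 : ∀ s : Multiset (PadicAlgCl p), (∀ r ∈ s, 1 ≤ ‖(a : PadicAlgCl p) - r‖) →
        1 ≤ ‖(s.map fun r => (a : PadicAlgCl p) - r).prod‖ := by
      intro s
      induction s using Multiset.induction_on with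
      | empty => simp
      | cons r s ih =>
        intro h
        rw [Multiset.map_cons, Multiset.prod_cons, norm_mul]
        exact one_le_mul_of_one_le_of_one_le (h r (Multiset.mem_cons_self r s))
          (ih fun r' hr' => h r' (Multiset.mem_cons_of_mem hr'))
    exact absurd hev (not_lt.2 (h1 _ hcon))
  have hr1 : ‖r‖ ≤ 1 := by
    have h1 : r = (a : PadicAlgCl p) - ((a : PadicAlgCl p) - r) := by ring
    rw [h1, sub_eq_add_neg]
    refine (IsUltrametricDist.norm_add_le_max _ _).trans (max_le (unitBall_norm_le a) ?_)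
    rw [norm_neg]
    exact hra.le
  refine ⟨⟨r, hr1⟩, ?_, ?_⟩
  · show res (PadicAlgCl p) ⟨r, hr1⟩ = res (PadicAlgCl p) a
    rw [← sub_eq_zero, ← map_sub, res_eq_zero_iff]
    show ‖r - (a : PadicAlgCl p)‖ < 1
    rw [← norm_neg, neg_sub]
    exact hra
  · refine ⟨Polynomial.X ^ p ^ n - Polynomial.X, FiniteField.X_pow_card_sub_X_ne_zero _ hq, ?_⟩
    have h1 : Q.eval r = 0 := (Polynomial.mem_roots hQ0).1 hr
    simpa [hQ] using h1

end Pool.Agent.H864.Pad
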