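import Pool.Agent.H864.Ratl

set_option autoImplicit false

/-! Definitions and first properties for dominant endomorphisms of rational quasiprojective
varieties. -/

namespace Pool.Agent.H864.RV

open MvPolynomial Pool.Agent.H864.Pad Pool.Agent.H864.Hom Pool.Agent.H864.BS

/-- The polynomial has coefficients in `K`. -/
def InR (K : Subfield ℂ) {σ : Type} (u : MvPolynomial σ ℂ) : Prop := ∃ v, map K.subtype v = u

lemma InR.coeff {K : Subfield ℂ} {σ : Type} {u : MvPolynomial σ ℂ} (h : InR K u) (m : σ →₀ ℕ) :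
    u.coeff m ∈ K := by
  obtain ⟨v, rfl⟩ := h
  rw [coeff_map]
  exact (v.coeff m).2

lemma InR.of_coeff {K : Subfield ℂ} {σ : Type} {u : MvPolynomial σ ℂ} (h : ∀ m, u.coeff m ∈ K) :
    InR K u := exists_lift K.subtype u fun m => ⟨⟨_, h m⟩, rfl⟩

lemma InR.bind {K : Subfield ℂ} {σ τ : Type} {f : σ → MvPolynomial τ ℂ} {u : MvPolynomial σ ℂ}
    (hf : ∀ i, InR K (f i)) (hu : InR K u) : InR K (bind₁ f u) := by
  choose g hg using hf
  obtain ⟨v, rfl⟩ := hu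
  refine ⟨bind₁ g v, ?_⟩
  rw [map_bind₁]
  simp only [hg]

lemma InR.homg {K : Subfield ℂ} {ι : Type} [Fintype ι] {u : MvPolynomial ι ℂ} (D : ℕ)
    (hu : InR K u) : InR K (homg D u) := by
  obtain ⟨v, rfl⟩ := hu
  exact ⟨Hom.homg D v, map_homg _ _ _⟩

lemma InR.map {K : Subfield ℂ} {ι : Type} (u : MvPolynomial ι K) : InR K (MvPolynomial.map K.subtype u) :=
  ⟨u, rfl⟩

/-- A polynomial over `K` which vanishes at a generic point is zero. -/
lemma InR.eq_zero {K : Subfield ℂ} {ι : Type} {u : MvPolynomial ι ℂ} (hu : InR K u) {t : ι → ℂ}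
    (ht : AlgebraicIndependent K t) (h : eval t u = 0) : u = 0 := by
  obtain ⟨v, rfl⟩ := hu
  have h1 : aeval t v = 0 := by
    rw [eval_map] at h
    exact h
  rw [(algebraicIndependent_iff.1 ht) v h1, map_zero]

lemma eval_bind' {σ τ : Type} (f : σ → MvPolynomial τ ℂ) (a : τ → ℂ) (u : MvPolynomial σ ℂ) :
    eval a (bind₁ f u) = eval (fun i => eval a (f i)) u :=
  eval₂Hom_bind₁ (RingHom.id ℂ) a f u

variable {m : ℕ}

/-- A homogeneous polynomial in `m + 1` variables. -/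
def IsForm (F : MvPolynomial (Fin (m + 1)) ℂ) : Prop := ∃ d : ℕ, F.IsHomogeneous d

/-- Locally closed subsets of `ℙ^m(ℂ)`: quasiprojective varieties. -/
def QuasiProjective (X : Set (Projectivization ℂ (Fin (m + 1) → ℂ))) : Prop :=
  ∃ A B : Set (MvPolynomial (Fin (m + 1)) ℂ), (∀ F ∈ A, IsForm F) ∧ (∀ F ∈ B, IsForm F) ∧
    ∀ p, p ∈ X ↔ ((∀ F ∈ A, eval p.rep F = 0) ∧ ∃ F ∈ B, eval p.rep F ≠ 0)

/-- Closed subsets of `ℙ^m(ℂ)`. -/
def IsClosedSet (V : Set (Projectivization ℂ (Fin (m + 1) → ℂ))) : Prop :=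
  ∃ C : Set (MvPolynomial (Fin (m + 1)) ℂ), (∀ F ∈ C, IsForm F) ∧
    ∀ p, p ∈ V ↔ ∀ F ∈ C, eval p.rep F = 0

/-- `Φ` restricts to a morphism `X → X`: locally on `X` it is given by forms of the same degree. -/
def Endomorphism (X : Set (Projectivization ℂ (Fin (m + 1) → ℂ)))
    (Φ : Projectivization ℂ (Fin (m + 1) → ℂ) → Projectivization ℂ (Fin (m + 1) → ℂ)) : Prop :=
  (∀ x ∈ X, Φ x ∈ X) ∧
  ∀ x ∈ X, ∃ (d e : ℕ) (F : Fin (m + 1) → MvPolynomial (Fin (m + 1)) ℂ)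
    (g : MvPolynomial (Fin (m + 1)) ℂ),
    (∀ i, (F i).IsHomogeneous d) ∧ g.IsHomogeneous e ∧ eval x.rep g ≠ 0 ∧
    ∀ y ∈ X, eval y.rep g ≠ 0 →
      (fun i : Fin (m + 1) => eval y.rep (F i)) ≠ 0 ∧
      (fun i : Fin (m + 1) => eval y.rep (F i)) ∈ (Φ y).submodule

/-- The image of `X` under `Φ` is Zariski dense in `X`. -/
def Dominant (X : Set (Projectivization ℂ (Fin (m + 1) → ℂ)))
    (Φ : Projectivization ℂ (Fin (m + 1) → ℂ) → Projectivization ℂ (Fin (m + 1) → ℂ)) : Prop :=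
  ∀ h, IsForm h → (∀ x ∈ X, eval (Φ x).rep h = 0) → ∀ x ∈ X, eval x.rep h = 0

/-- `X` is a rational variety: there are polynomials `θ_0, ..., θ_m` in `N` variables such that
`t ↦ [θ_0(t) : ... : θ_m(t)]` maps a nonempty open subset of `ℂ^N` to a dense subset of `X`, and
such that the inverse `[x] ↦ (η_j(x) / η₀(x))_j` is given by forms `η₀, η_j` of the same degree. -/
def IsRational (X : Set (Projectivization ℂ (Fin (m + 1) → ℂ))) : Prop :=
  ∃ (N : ℕ) (θ : Fin (m + 1) → MvPolynomial (Fin N) ℂ) (δ : MvPolynomial (Fin N) ℂ) (e : ℕ)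
    (η₀ : MvPolynomial (Fin (m + 1)) ℂ) (η : Fin N → MvPolynomial (Fin (m + 1)) ℂ),
    δ ≠ 0 ∧
    (∀ t, eval t δ ≠ 0 → (fun j => eval t (θ j)) ≠ 0 ∧
      ∃ x ∈ X, (fun j => eval t (θ j)) ∈ x.submodule) ∧
    (∀ h, IsForm h → (∀ t, eval (fun j => eval t (θ j)) h = 0) → ∀ x ∈ X, eval x.rep h = 0) ∧
    η₀.IsHomogeneous e ∧ (∀ j, (η j).IsHomogeneous e) ∧
    (∃ t, eval (fun j => eval t (θ j)) η₀ ≠ 0) ∧
    ∀ t j, eval (fun j => eval t (θ j)) (η j) = t j * eval (fun j => eval t (θ j)) η₀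

/-- Values of forms at the points of a line. -/
lemma eval_of_mem {h : MvPolynomial (Fin (m + 1)) ℂ} {e : ℕ} (hh : h.IsHomogeneous e)
    {x : Projectivization ℂ (Fin (m + 1) → ℂ)} {v : Fin (m + 1) → ℂ} (hv : v ∈ x.submodule) :
    ∃ c : ℂ, (v = fun i => c * x.rep i) ∧ eval v h = c ^ e * eval x.rep h := by
  rw [Projectivization.submodule_eq, Submodule.mem_span_singleton] at hv
  obtain ⟨c, hc⟩ := hv
  have hv' : v = fun i => c * x.rep i := by
    rw [← hc]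
    rfl
  refine ⟨c, hv', ?_⟩
  rw [hv']
  exact Pool.Agent.H936R2.eval_scale h e hh c x.rep

lemma eval_eq_zero_iff_of_mem {h : MvPolynomial (Fin (m + 1)) ℂ} (hh : IsForm h)
    {x : Projectivization ℂ (Fin (m + 1) → ℂ)} {v : Fin (m + 1) → ℂ} (hv : v ∈ x.submodule)
    (hv0 : v ≠ 0) : eval v h = 0 ↔ eval x.rep h = 0 := by
  obtain ⟨e, he⟩ := hh
  obtain ⟨c, hc, h1⟩ := eval_of_mem he hv
  have hc0 : c ≠ 0 := by
    rintro rfl
    apply hv0
    rw [hc]
    funext i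
    simp
  rw [h1, mul_eq_zero]
  constructor
  · rintro (h | h)
    · exact absurd h (pow_ne_zero _ hc0)
    · exact h
  · exact Or.inr

end Pool.Agent.H864.RV
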