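import Pool.Agent.H864.GenMain
import Pool.Agent.H864.Hom

set_option autoImplicit false

/-! The dynamical Mordell-Lang property of rational self-maps of affine space at generic points. -/

namespace Pool.Agent.H864.Pad

open Pool.Agent.H936R2 MvPolynomial Pool.Agent.H864.BS Pool.Agent.H864.Hom

/-- A number which is transcendental over the ring generated by finitely many numbers over a
countable field. -/
lemma exists_transcendental_over (K : Subfield ℂ) (hK : Countable K) {ι : Type} [Fintype ι] (t : ι → ℂ) :
    ∃ s : ℂ, Transcendental (Algebra.adjoin K (Set.range t)) s := by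
  by_contra hcon
  simp only [Transcendental, not_exists, not_not] at hcon
  have halg : Algebra.IsAlgebraic (Algebra.adjoin K (Set.range t)) ℂ := ⟨hcon⟩
  have hcount : Cardinal.mk (Algebra.adjoin K (Set.range t)) ≤ Cardinal.aleph0 := by
    have h1 : Function.Surjective (aeval t : MvPolynomial ι K →ₐ[K] ℂ).rangeRestrict :=
      AlgHom.rangeRestrict_surjective _
    have h2 : Algebra.adjoin K (Set.range t) = (aeval t : MvPolynomial ι K →ₐ[K] ℂ).range :=
      Algebra.adjoin_range_eq_range_aeval K t
    rw [h2]
    refine (Cardinal.mk_le_of_surjective h1).trans ?_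
    have h3 := MvPolynomial.cardinalMk_le_max (σ := ι) (R := K)
    refine h3.trans ?_
    simp only [max_le_iff]
    exact ⟨⟨Cardinal.mk_le_aleph0_iff.2 hK, Cardinal.mk_le_aleph0⟩, le_rfl⟩
  have h1 := Algebra.IsAlgebraic.cardinalMk_le_max (Algebra.adjoin K (Set.range t)) ℂ
  rw [Cardinal.mk_complex, max_eq_right hcount] at h1
  exact absurd h1 (not_le.2 Cardinal.aleph0_lt_continuum)

/-- The cone over a generic point. -/
lemma cone_generic (K : Subfield ℂ) {ι : Type} [Fintype ι] (t : ι → ℂ) (ht : AlgebraicIndependent K t)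
    (s : ℂ) (hs : Transcendental (Algebra.adjoin K (Set.range t)) s) :
    AlgebraicIndependent K (fun o : Option ι => o.elim s fun i => s * t i) := by
  have h1 := (ht.option_iff_transcendental s).2 hs
  rw [algebraicIndependent_iff] at h1 ⊢
  intro G hG
  -- substitute
  have h2 : aeval (fun o : Option ι => o.elim s t)
      (bind₁ (fun o : Option ι => o.elim (X none : MvPolynomial (Option ι) K)
        fun i => X none * X (some i)) G) = 0 := by
    rw [aeval_bind₁]
    convert hG using 2
    ext o
    cases o with
    | none => simp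
    | some i => simp
  have h3 := h1 _ h2
  -- `X none * G = 0`
  have h4 : (X none : MvPolynomial (Option ι) K) * G = 0 := by
    apply MvPolynomial.funext
    intro x
    rw [map_mul, eval_X, map_zero]
    by_cases hx : x none = 0
    · rw [hx, zero_mul]
    · have h5 := congrArg (eval (fun o : Option ι => o.elim (x none) fun i => x (some i) / x none)) h3
      rw [eval_bind, map_zero] at h5
      have h6 : (fun o : Option ι => eval (fun o : Option ι => o.elim (x none) fun i => x (some i) / x none)
          (o.elim (X none : MvPolynomial (Option ι) K) fun i => X none * X (some i))) = x := by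
        funext o
        cases o with
        | none => simp
        | some i => simp [mul_div_cancel₀ _ hx]
      rw [h6] at h5
      rw [h5, mul_zero]
  exact (mul_eq_zero.1 h4).resolve_left (X_ne_zero _)

/-- The rational self-map with the numerators `a (some i)` and the denominator `a none`. -/
noncomputable def rmap {ι : Type} (a : Option ι → MvPolynomial ι ℂ) (t : ι → ℂ) : ι → ℂ :=
  fun i => eval t (a (some i)) / eval t (a none)

/-- **Rational self-maps of affine space at generic points.** -/
theorem rational_generic_dml {ι : Type} [Fintype ι] [DecidableEq ι] (K : Subfield ℂ) (hK : Countable K)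
    (a : Option ι → MvPolynomial ι ℂ) (haK : ∀ o m, (a o).coeff m ∈ K)
    (ha0 : ∀ t : ι → ℂ, AlgebraicIndependent K t → eval t (a none) ≠ 0)
    (hdom : ∀ t : ι → ℂ, AlgebraicIndependent K t → AlgebraicIndependent K (rmap a t)) :
    ∃ L : ℕ, 0 < L ∧ ∀ t : ι → ℂ, AlgebraicIndependent K t → ∀ S : Set (MvPolynomial ι ℂ),
      ∃ T : Finset (ℕ × ℕ), (∀ q ∈ T, q.2 = 0 ∨ q.2 = L) ∧
        {n : ℕ | ∀ g ∈ S, eval ((rmap a)^[n] t) g = 0} = {n | ∃ q ∈ T, ∃ m, n = q.1 + q.2 * m} := by
  set D := Finset.univ.sup fun o => (a o).totalDegree with hD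
  have hDo : ∀ o, (a o).totalDegree ≤ D := fun o =>
    Finset.le_sup (f := fun o => (a o).totalDegree) (Finset.mem_univ o)
  let Ψ : Option ι → MvPolynomial (Option ι) ℂ := fun o => homg D (a o)
  -- the coefficients
  have hΨK : ∀ o m, (Ψ o).coeff m ∈ K := by
    intro o m
    obtain ⟨b, hb⟩ := exists_lift K.subtype (a o) fun m => ⟨⟨_, haK o m⟩, rfl⟩
    have h1 : Ψ o = map K.subtype (homg D b) := by
      rw [map_homg, hb]
    rw [h1, coeff_map]
    exact ((homg D b).coeff m).2
  obtain ⟨L, hL, h⟩ := generic_dml Ψ K hΨK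
  refine ⟨L, hL, fun t ht S => ?_⟩
  obtain ⟨s, hs⟩ := exists_transcendental_over K hK t
  have hz := cone_generic K t ht s hs
  have hs0 : s ≠ 0 := by
    rintro rfl
    exact hs isAlgebraic_zero
  have hgen : ∀ n, AlgebraicIndependent K ((rmap a)^[n] t) := by
    intro n
    induction n with
    | zero => exact ht
    | succ n ih =>
      rw [Function.iterate_succ_apply']
      exact hdom _ ih
  have horb : ∀ n, ∃ c : ℂ, c ≠ 0 ∧ (pt Ψ)^[n] (fun o : Option ι => o.elim s fun i => s * t i) =
      fun o : Option ι => o.elim c fun i => c * (rmap a)^[n] t i := by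
    intro n
    induction n with
    | zero => exact ⟨s, hs0, rfl⟩
    | succ n ih =>
      obtain ⟨c, hc, h1⟩ := ih
      have ha := ha0 _ (hgen n)
      refine ⟨c ^ D * eval ((rmap a)^[n] t) (a none), mul_ne_zero (pow_ne_zero _ hc) ha, ?_⟩
      rw [Function.iterate_succ_apply', h1]
      funext o
      show eval _ (homg D (a o)) = _
      rw [eval_homg D (a o) (hDo o)]
      cases o with
      | none => rfl
      | some i =>
        simp only [Option.elim_some]
        rw [Function.iterate_succ_apply', rmap]
        field_simp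
  obtain ⟨T, hT, hT2⟩ := h _ hz {g' | ∃ g ∈ S, g' = homg g.totalDegree g}
  refine ⟨T, hT, ?_⟩
  rw [← hT2]
  ext n
  obtain ⟨c, hc, h1⟩ := horb n
  simp only [Set.mem_ofPred_eq]
  rw [h1]
  constructor
  · rintro h2 _ ⟨g, hg, rfl⟩
    rw [eval_homg _ g le_rfl, h2 g hg, mul_zero]
  · intro h2 g hg
    have h3 := h2 _ ⟨g, hg, rfl⟩
    rw [eval_homg _ g le_rfl] at h3
    exact (mul_eq_zero.1 h3).resolve_left (pow_ne_zero _ hc)

end Pool.Agent.H864.Pad
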