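import Pool.Agent.H864.BSd

set_option autoImplicit false

/-! Every polynomial self-map of affine space over a field of characteristic zero can be changed on
the complement of its eventual image so that it becomes étale at the generic point of the eventual
image. -/

namespace Pool.Agent.H864.BS

open MvPolynomial

section linear

variable {L : Type} [Field L] {σ : Type} [Fintype σ]

/-- Perturbation of the rows of a matrix by elements of an additive set. -/
lemma exists_independent (r : σ → σ → L) (W : Set (σ → L)) (h0 : (0 : σ → L) ∈ W)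
    (hadd : ∀ v ∈ W, ∀ w ∈ W, v + w ∈ W) (hspan : Submodule.span L (Set.range r ∪ W) = ⊤) :
    ∃ w : σ → σ → L, (∀ i, w i ∈ W) ∧ LinearIndependent L (fun i => r i + w i) := by
  classical
  let rk : (σ → σ → L) → ℕ := fun w => Module.finrank L (Submodule.span L (Set.range fun i => r i + w i))
  have hbd : ∀ w, rk w ≤ Fintype.card σ := by
    intro w
    have := Submodule.finrank_le (Submodule.span L (Set.range fun i => r i + w i))
    rwa [Module.finrank_fintype_fun_eq_card] at this
  -- a choice with maximal rank
  obtain ⟨w, hw, hmax⟩ : ∃ w : σ → σ → L, (∀ i, w i ∈ W) ∧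
      ∀ w' : σ → σ → L, (∀ i, w' i ∈ W) → rk w' ≤ rk w := by
    let A : Set ℕ := {n | ∃ w : σ → σ → L, (∀ i, w i ∈ W) ∧ rk w = n}
    have hA : A.Nonempty := ⟨_, fun _ => 0, fun _ => h0, rfl⟩
    have hAb : BddAbove A := ⟨Fintype.card σ, by
      rintro _ ⟨w, -, rfl⟩
      exact hbd w⟩
    obtain ⟨w, hw, hw1⟩ := Nat.sSup_mem hA hAb
    exact ⟨w, hw, fun w' hw' => by
      rw [hw1]
      exact le_csSup hAb ⟨w', hw', rfl⟩⟩
  refine ⟨w, hw, ?_⟩
  by_contra hdep
  set U := Submodule.span L (Set.range fun i => r i + w i) with hU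
  have hUtop : U ≠ ⊤ := by
    intro h
    apply hdep
    apply linearIndependent_of_top_le_span_of_card_eq_finrank
    · rw [← hU, h]
    · rw [Module.finrank_fintype_fun_eq_card]
  obtain ⟨v, hv, hvU⟩ : ∃ v ∈ W, v ∉ U := by
    by_contra hcon
    push Not at hcon
    apply hUtop
    rw [eq_top_iff, ← hspan, Submodule.span_le]
    rintro x (⟨i, rfl⟩ | hx)
    · have h1 : r i + w i ∈ U := Submodule.subset_span ⟨i, rfl⟩
      have h2 := U.sub_mem h1 (hcon _ (hw i))
      simpa using h2
    · exact hcon x hx
  rw [linearIndependent_iff_notMem_span] at hdep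
  push Not at hdep
  obtain ⟨i0, hi0⟩ := hdep
  set U0 := Submodule.span L ((fun i => r i + w i) '' (Set.univ \ {i0})) with hU0
  have hUU0 : U ≤ U0 := by
    rw [hU, Submodule.span_le]
    rintro _ ⟨i, rfl⟩
    by_cases hi : i = i0
    · subst hi
      exact hi0
    · exact Submodule.subset_span ⟨i, by simp [hi], rfl⟩
  let w' : σ → σ → L := Function.update w i0 (w i0 + v)
  have hw' : ∀ i, w' i ∈ W := by
    intro i
    by_cases hi : i = i0
    · subst hi
      simp only [w', Function.update_self]
      exact hadd _ (hw i) _ hv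
    · simp only [w', Function.update_of_ne hi]
      exact hw i
  have hlt : U < Submodule.span L (Set.range fun i => r i + w' i) := by
    have hle : U ≤ Submodule.span L (Set.range fun i => r i + w' i) := by
      refine hUU0.trans ?_
      rw [hU0, Submodule.span_le]
      rintro _ ⟨i, hi, rfl⟩
      have hi' : i ≠ i0 := by simpa using hi
      refine Submodule.subset_span ⟨i, ?_⟩
      simp only [w', Function.update_of_ne hi']
    refine lt_of_le_of_ne hle ?_
    intro heq
    apply hvU
    have h1 : r i0 + (w i0 + v) ∈ U := by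
      rw [heq]
      refine Submodule.subset_span ⟨i0, ?_⟩
      simp only [w', Function.update_self]
    have h2 : r i0 + w i0 ∈ U := Submodule.subset_span ⟨i0, rfl⟩
    have h3 := U.sub_mem h1 h2
    convert h3 using 1
    abel
  have h1 := Submodule.finrank_lt_finrank_of_lt hlt
  have h2 := hmax w' hw'
  exact absurd h1 (not_lt.2 h2)

end linear

variable {σ : Type} [Fintype σ] [DecidableEq σ] {k : Type} [Field k] [CharZero k]

/-- The Jacobian matrix of polynomials. -/
noncomputable def jacP {R : Type} [CommRing R] (f : σ → MvPolynomial σ R) : Matrix σ σ (MvPolynomial σ R) :=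
  Matrix.of fun i j => pderiv j (f i)

omit [Fintype σ] [DecidableEq σ] [CharZero k] in
lemma exists_stable (f : σ → MvPolynomial σ k) [Finite σ] :
    ∃ n0, ∀ n, n0 ≤ n → RingHom.ker (bind₁ (it f n0)).toRingHom = RingHom.ker (bind₁ (it f n)).toRingHom := by
  have hmono : ∀ n, RingHom.ker (bind₁ (it f n)).toRingHom ≤ RingHom.ker (bind₁ (it f (n + 1))).toRingHom := by
    intro n u hu
    rw [RingHom.mem_ker] at hu ⊢
    have h1 : bind₁ (it f n) u = 0 := hu
    show bind₁ (it f (n + 1)) u = 0
    have h2 : bind₁ (it f (n + 1)) u = bind₁ f (bind₁ (it f n) u) := by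
      rw [bind₁_bind₁]
      rfl
    rw [h2, h1, map_zero]
  obtain ⟨n0, h⟩ := monotone_stabilizes_iff_noetherian.2
    (inferInstance : IsNoetherian (MvPolynomial σ k) (MvPolynomial σ k))
    ⟨fun n => RingHom.ker (bind₁ (it f n)).toRingHom, monotone_nat_of_le_succ hmono⟩
  exact ⟨n0, h⟩

end Pool.Agent.H864.BS
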