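import Pool.Agent.H864.Rel

set_option autoImplicit false

/-! Every polynomial self-map of affine space over a field of characteristic zero can be changed on
the complement of its eventual image so that it becomes étale at the generic point of the eventual
image. -/

namespace Pool.Agent.H864.BS

open MvPolynomial

variable {σ : Type} [Fintype σ] [DecidableEq σ] {k : Type} [Field k] [CharZero k]

omit [DecidableEq σ] [CharZero k] in
/-- Two homomorphisms with the same kernel: the larger image is algebraic over the smaller one. -/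
lemma isAlgebraic_of_ker_eq (φ ψ : MvPolynomial σ k →ₐ[k] MvPolynomial σ k)
    (hker : ∀ u, φ u = 0 ↔ ψ u = 0) (y : MvPolynomial σ k) (hy : y ∈ φ.range)
    (hle : ψ.range ≤ φ.range) : IsAlgebraic ψ.range y := by
  by_contra htr
  obtain ⟨s, hs⟩ := exists_isTranscendenceBasis k ψ.range
  -- the basis in the polynomial ring
  let x : s → MvPolynomial σ k := fun b => ((b : ψ.range) : MvPolynomial σ k)
  have hx : AlgebraicIndependent k x :=
    hs.1.map' (f := ψ.range.val) Subtype.val_injective
  have hfin : Cardinal.mk s ≤ Fintype.card σ := by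
    have h1 := hx.cardinalMk_le_trdeg
    rw [MvPolynomial.trdeg_of_isDomain] at h1
    simpa using h1
  have hopt : AlgebraicIndependent k (fun o : Option s => o.elim y x) := by
    rw [hx.option_iff_transcendental]
    intro halg
    apply htr
    obtain ⟨q, hq0, hq⟩ := halg
    have hsub : Algebra.adjoin k (Set.range x) ≤ ψ.range := by
      apply Algebra.adjoin_le
      rintro _ ⟨b, rfl⟩
      exact (b : ψ.range).2
    refine ⟨q.map (Subalgebra.inclusion hsub).toRingHom, ?_, ?_⟩
    · exact (Polynomial.map_ne_zero_iff (Subalgebra.inclusion_injective hsub)).2 hq0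
    · rw [Polynomial.aeval_def, Polynomial.eval₂_map]
      rw [Polynomial.aeval_def] at hq
      exact hq
  -- transfer to the smaller image
  have hmem : ∀ o : Option s, o.elim y x ∈ φ.range := by
    intro o
    cases o with
    | none => exact hy
    | some b => exact hle (b : ψ.range).2
  choose a ha using hmem
  have h2 : AlgebraicIndependent k (fun o : Option s => (⟨ψ (a o), ⟨a o, rfl⟩⟩ : ψ.range)) := by
    rw [algebraicIndependent_iff]
    intro Q hQ
    have h3 : aeval (fun o : Option s => ψ (a o)) Q = 0 := by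
      have h4 := MvPolynomial.comp_aeval_apply
        (fun o : Option s => (⟨ψ (a o), ⟨a o, rfl⟩⟩ : ψ.range)) ψ.range.val Q
      rw [hQ, map_zero] at h4
      exact h4.symm
    have h5 : ψ (aeval a Q) = 0 := by
      rw [MvPolynomial.comp_aeval_apply]
      exact h3
    rw [← hker] at h5
    rw [MvPolynomial.comp_aeval_apply] at h5
    have h6 : (fun o => φ (a o)) = (fun o : Option s => o.elim y x) := funext fun o => ha o
    rw [h6] at h5
    exact (algebraicIndependent_iff.1 hopt) Q h5
  have h3 := h2.cardinalMk_le_trdeg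
  rw [← hs.cardinalMk_eq_trdeg, Cardinal.mk_option] at h3
  obtain ⟨n, hn⟩ := Cardinal.lt_aleph0.1 (lt_of_le_of_lt hfin (Cardinal.natCast_lt_aleph0))
  rw [hn] at h3
  have h4 : n + 1 ≤ n := by exact_mod_cast h3
  omega

omit [DecidableEq σ] in
/-- A separable relation. -/
lemma exists_separable (φ ψ : MvPolynomial σ k →ₐ[k] MvPolynomial σ k)
    (hker : ∀ u, φ u = 0 ↔ ψ u = 0) (y : MvPolynomial σ k) (hy : y ∈ φ.range)
    (hle : ψ.range ≤ φ.range) :
    ∃ R : Polynomial (MvPolynomial σ k), Polynomial.eval₂ (ψ : MvPolynomial σ k →+* MvPolynomial σ k) y R = 0 ∧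
      Polynomial.eval₂ (ψ : MvPolynomial σ k →+* MvPolynomial σ k) y (Polynomial.derivative R) ≠ 0 := by
  have halg := isAlgebraic_of_ker_eq φ ψ hker y hy hle
  classical
  let A : Set ℕ := {n | ∃ q : Polynomial ψ.range, q ≠ 0 ∧ Polynomial.aeval y q = 0 ∧ q.natDegree = n}
  have hA : A.Nonempty := by
    obtain ⟨q, hq0, hq⟩ := halg
    exact ⟨_, q, hq0, hq, rfl⟩
  obtain ⟨q, hq0, hq, hqn⟩ := Nat.sInf_mem hA
  have hpos : 0 < q.natDegree := by
    rw [Nat.pos_iff_ne_zero]
    intro h0
    rw [Polynomial.eq_C_of_natDegree_eq_zero h0, Polynomial.aeval_C] at hq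
    apply hq0
    rw [Polynomial.eq_C_of_natDegree_eq_zero h0]
    have h1 : q.coeff 0 = 0 := by
      apply Subtype.ext
      exact hq
    rw [h1, Polynomial.C_0]
  have hder : Polynomial.aeval y (Polynomial.derivative q) ≠ 0 := by
    intro h0
    have hne : Polynomial.derivative q ≠ 0 := by
      intro h1
      have := Polynomial.natDegree_eq_zero_of_derivative_eq_zero h1
      omega
    have h2 : sInf A ≤ (Polynomial.derivative q).natDegree := Nat.sInf_le ⟨_, hne, h0, rfl⟩
    have h3 := Polynomial.natDegree_derivative_lt (p := q) (by omega)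
    omega
  -- lift the coefficients
  obtain ⟨R, hR⟩ := Polynomial.map_surjective (ψ.rangeRestrict : MvPolynomial σ k →+* ψ.range)
    ψ.rangeRestrict_surjective q
  have hev : ∀ T : Polynomial (MvPolynomial σ k),
      Polynomial.eval₂ (ψ : MvPolynomial σ k →+* MvPolynomial σ k) y T =
        Polynomial.aeval y (T.map (ψ.rangeRestrict : MvPolynomial σ k →+* ψ.range)) := by
    intro T
    rw [Polynomial.aeval_def, Polynomial.eval₂_map]
    rfl
  refine ⟨R, ?_, ?_⟩
  · rw [hev, hR, hq]
  · rw [hev, ← Polynomial.derivative_map, hR]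
    exact hder

end Pool.Agent.H864.BS
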