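import Pool.Agent.H864.EmbDML

set_option autoImplicit false

/-! Jacobian determinants of skew products and of monomial maps. -/

namespace Pool.Agent.H864.Skew

open Pool.Agent.H936R2 MvPolynomial Matrix

section skew

variable {B M : Type} [Fintype B] [DecidableEq B] [Fintype M] [DecidableEq M]

/-- The polynomials which define a skew product. -/
noncomputable def skewP (G : B → MvPolynomial B ℂ) (F : M → MvPolynomial (B ⊕ M) ℂ) :
    B ⊕ M → MvPolynomial (B ⊕ M) ℂ :=
  Sum.elim (fun b => rename Sum.inl (G b)) F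

omit [Fintype B] [Fintype M] [DecidableEq B] [DecidableEq M] in
lemma pt_skewP (G : B → MvPolynomial B ℂ) (F : M → MvPolynomial (B ⊕ M) ℂ) (x : B → ℂ)
    (y : M → ℂ) :
    pt (skewP G F) (Sum.elim x y) =
      Sum.elim (pt G x) (fun i => eval (Sum.elim x y) (F i)) := by
  funext o
  rcases o with b | i
  · show eval (Sum.elim x y) (rename Sum.inl (G b)) = eval x (G b)
    rw [eval_rename]
    rfl
  · rfl

/-- The Jacobian determinant of a skew product. -/
lemma det_jac_skewP (G : B → MvPolynomial B ℂ) (F : M → MvPolynomial (B ⊕ M) ℂ) (x : B → ℂ)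
    (y : M → ℂ) :
    (jac (skewP G F) (Sum.elim x y)).det = (jac G x).det *
      (Matrix.of fun i j => eval (Sum.elim x y) (pderiv (Sum.inr j) (F i))).det := by
  have h1 : jac (skewP G F) (Sum.elim x y) = Matrix.fromBlocks (jac G x) 0
      (Matrix.of fun i j => eval (Sum.elim x y) (pderiv (Sum.inl j) (F i)))
      (Matrix.of fun i j => eval (Sum.elim x y) (pderiv (Sum.inr j) (F i))) := by
    ext a b
    rcases a with a | a <;> rcases b with b | b
    · show eval (Sum.elim x y) (pderiv (Sum.inl b) (rename Sum.inl (G a))) =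
        eval x (pderiv b (G a))
      rw [pderiv_rename Sum.inl_injective, eval_rename]
      rfl
    · show eval (Sum.elim x y) (pderiv (Sum.inr b) (rename Sum.inl (G a))) = 0
      rw [pderiv_eq_zero_of_notMem_vars, map_zero]
      intro h
      have h2 := MvPolynomial.vars_rename (Sum.inl : B → B ⊕ M) (G a) h
      rw [Finset.mem_image] at h2
      obtain ⟨c, -, hc⟩ := h2
      cases hc
    · rfl
    · rfl
  rw [h1, Matrix.det_fromBlocks_zero₁₂]

end skew

section mono

variable {B : Type} [Fintype B] [DecidableEq B]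

/-- A monomial map. -/
noncomputable def monoP (g : B → ℂ) (E : Matrix B B ℕ) : B → MvPolynomial B ℂ := fun b =>
  monomial (Finsupp.equivFunOnFinite.symm (E b)) (g b)

omit [DecidableEq B] in
lemma eval_monoP (g : B → ℂ) (E : Matrix B B ℕ) (x : B → ℂ) (b : B) :
    eval x (monoP g E b) = g b * ∏ c, x c ^ E b c := by
  unfold monoP
  rw [eval_monomial, Finsupp.prod_fintype _ _ (fun i => pow_zero _)]
  rfl

lemma eval_pderiv_monoP (g : B → ℂ) (E : Matrix B B ℕ) (x : B → ℂ) (hx : ∀ b, x b ≠ 0) (b c : B) :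
    eval x (pderiv c (monoP g E b)) = (g b * ∏ c, x c ^ E b c) * (E b c : ℂ) * (x c)⁻¹ := by
  unfold monoP
  rw [pderiv_monomial, eval_monomial, Finsupp.prod_fintype _ _ (fun i => pow_zero _)]
  have h1 : ∏ i, x i ^ ((Finsupp.equivFunOnFinite.symm (E b) - Finsupp.single c 1 : B →₀ ℕ) i) =
      x c ^ (E b c - 1) * ∏ i ∈ Finset.univ.erase c, x i ^ E b i := by
    rw [← Finset.mul_prod_erase Finset.univ _ (Finset.mem_univ c)]
    congr 1
    · simp
    · apply Finset.prod_congr rfl
      intro i hi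
      have : i ≠ c := Finset.ne_of_mem_erase hi
      simp [this]
  have h2 : ∏ i, x i ^ E b i = x c ^ E b c * ∏ i ∈ Finset.univ.erase c, x i ^ E b i :=
    (Finset.mul_prod_erase Finset.univ _ (Finset.mem_univ c)).symm
  rw [h1, h2]
  have h3 : (Finsupp.equivFunOnFinite.symm (E b)) c = E b c := rfl
  rw [h3]
  rcases Nat.eq_zero_or_pos (E b c) with h0 | h0
  · rw [h0]
    simp
  · have h4 : x c ^ E b c = x c ^ (E b c - 1) * x c := by
      rw [← pow_succ, Nat.sub_add_cancel h0]
    rw [h4]
    have := hx c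
    field_simp

/-- The Jacobian determinant of a monomial map. -/
lemma det_jac_monoP (g : B → ℂ) (E : Matrix B B ℕ) (x : B → ℂ) (hx : ∀ b, x b ≠ 0) :
    (jac (monoP g E) x).det = (∏ b, (g b * ∏ c, x c ^ E b c)) * (E.map (Nat.cast : ℕ → ℂ)).det *
      ∏ b, (x b)⁻¹ := by
  have h1 : jac (monoP g E) x = Matrix.diagonal (fun b => g b * ∏ c, x c ^ E b c) *
      (E.map (Nat.cast : ℕ → ℂ)) * Matrix.diagonal (fun b => (x b)⁻¹) := by
    ext b c
    rw [Matrix.mul_diagonal, Matrix.diagonal_mul]
    exact eval_pderiv_monoP g E x hx b c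
  rw [h1, Matrix.det_mul, Matrix.det_mul, Matrix.det_diagonal, Matrix.det_diagonal]

end mono

section blocks

variable {r : ℕ}

/-- The determinant of a symmetric block matrix. -/
lemma det_blocks (A B : Matrix (Fin r) (Fin r) ℂ) :
    (Matrix.fromBlocks A B B A).det = (A - B).det * (A + B).det := by
  have h1 : Matrix.fromBlocks (1 : Matrix (Fin r) (Fin r) ℂ) 0 1 1 * Matrix.fromBlocks A B B A *
      Matrix.fromBlocks 1 0 (-1) 1 = Matrix.fromBlocks (A - B) B 0 (A + B) := by
    rw [Matrix.fromBlocks_multiply, Matrix.fromBlocks_multiply]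
    congr 1
    · simp [sub_eq_add_neg]
    · simp
    · simp only [Matrix.one_mul, Matrix.mul_one, Matrix.mul_neg]
      abel
    · simp [add_comm]
  have h2 := congrArg Matrix.det h1
  rw [Matrix.det_mul, Matrix.det_mul, Matrix.det_fromBlocks_zero₁₂, Matrix.det_fromBlocks_zero₁₂,
    Matrix.det_fromBlocks_zero₂₁] at h2
  simpa using h2

/-- Decomposition of an integral matrix. -/
lemma exists_nonneg (M : Matrix (Fin r) (Fin r) ℤ) (hM : M.det ≠ 0) :
    ∃ E : Matrix (Fin r ⊕ Fin r) (Fin r ⊕ Fin r) ℕ,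
      (∀ i j, (E (Sum.inl i) (Sum.inl j) : ℤ) - E (Sum.inl i) (Sum.inr j) = M i j) ∧
      (∀ i j, E (Sum.inr i) (Sum.inr j) = E (Sum.inl i) (Sum.inl j)) ∧
      (∀ i j, E (Sum.inr i) (Sum.inl j) = E (Sum.inl i) (Sum.inr j)) ∧
      (E.map (Nat.cast : ℕ → ℂ)).det ≠ 0 := by
  classical
  let A₀ : Matrix (Fin r) (Fin r) ℕ := Matrix.of fun i j => (M i j).toNat
  let B₀ : Matrix (Fin r) (Fin r) ℕ := Matrix.of fun i j => (-M i j).toNat
  let C : Matrix (Fin r) (Fin r) ℂ := Matrix.of fun i j => -((A₀ i j : ℂ) + B₀ i j)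
  obtain ⟨N, hN⟩ : ∃ N : ℕ, ¬ (C.charpoly).IsRoot (2 * N : ℂ) := by
    by_contra hcon
    push Not at hcon
    have hinf : Set.Infinite {z : ℂ | C.charpoly.IsRoot z} := by
      have h1 : (Set.range fun N : ℕ => (2 * N : ℂ)).Infinite := by
        apply Set.infinite_range_of_injective
        intro a b h
        simp only at h
        have h2 : (2 : ℂ) ≠ 0 := two_ne_zero
        exact_mod_cast mul_left_cancel₀ h2 h
      refine h1.mono ?_
      rintro _ ⟨N, rfl⟩
      exact hcon N
    exact hinf (Polynomial.finite_setOfPred_isRoot (C.charpoly_monic.ne_zero))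
  let A : Matrix (Fin r) (Fin r) ℕ := A₀ + N • 1
  let B : Matrix (Fin r) (Fin r) ℕ := B₀ + N • 1
  have hAB : ∀ i j, ((A i j : ℕ) : ℤ) - B i j = M i j := by
    intro i j
    simp only [A, B, Matrix.add_apply, A₀, B₀, Matrix.of_apply]
    push_cast
    omega
  refine ⟨Matrix.fromBlocks A B B A, hAB, fun i j => rfl, fun i j => rfl, ?_⟩
  rw [Matrix.fromBlocks_map, det_blocks]
  apply mul_ne_zero
  · have h1 : A.map (Nat.cast : ℕ → ℂ) - B.map (Nat.cast : ℕ → ℂ) = M.map (Int.castRingHom ℂ) := by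
      ext i j
      rw [Matrix.sub_apply, Matrix.map_apply, Matrix.map_apply, Matrix.map_apply, ← hAB i j]
      simp
    rw [h1]
    have h2 := RingHom.map_det (Int.castRingHom ℂ) M
    rw [RingHom.mapMatrix_apply] at h2
    rw [← h2]
    simpa using hM
  · have h1 : A.map (Nat.cast : ℕ → ℂ) + B.map (Nat.cast : ℕ → ℂ) =
        Matrix.scalar (Fin r) (2 * N : ℂ) - C := by
      ext i j
      simp only [A, B, C, Matrix.add_apply, Matrix.map_apply, Matrix.sub_apply, Matrix.of_apply,
        Matrix.smul_apply, smul_eq_mul, Matrix.scalar_apply, Matrix.diagonal_apply, Matrix.one_apply]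
      push_cast
      split_ifs <;> ring
    rw [h1, ← Matrix.eval_charpoly]
    exact hN

end blocks

end Pool.Agent.H864.Skew
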